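import Pool.Agent.Lib.MP_52661b_pr.TwoPiece

set_option autoImplicit false

namespace Pool.Agent.Lib.MP_52661b_pr

open Finset

private theorem pc_mem {n : ℕ} {A : Finset (Cube n)} {R : Finset (Fin n)} {x y : Cube n} :
    y ∈ fib A R x ↔ y ∈ A ∧ ∀ j, j ∉ R → y j = x j := by
  unfold fib
  rw [Finset.mem_filter]

private theorem pc_mem_upd {n : ℕ} {A : Finset (Cube n)} {R : Finset (Fin n)} {x y : Cube n}
    {i : Fin n} (hi : i ∉ R) (v : Bool) :
    y ∈ fib A R (Function.update x i v) ↔ y ∈ fib A (insert i R) x ∧ y i = v := by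
  rw [pc_mem, pc_mem]
  constructor
  · rintro ⟨h1, h2⟩
    refine ⟨⟨h1, fun j hj => ?_⟩, ?_⟩
    · have hji : j ≠ i := fun h => hj (h ▸ Finset.mem_insert_self i R)
      have := h2 j (fun h => hj (Finset.mem_insert_of_mem h))
      rwa [Function.update_of_ne hji] at this
    · have := h2 i hi
      rwa [Function.update_self] at this
  · rintro ⟨⟨h1, h2⟩, h3⟩
    refine ⟨h1, fun j hj => ?_⟩
    by_cases hji : j = i
    · subst hji
      rw [Function.update_self, h3]
    · rw [Function.update_of_ne hji]
      refine h2 j (fun h => ?_)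
      rcases Finset.mem_insert.1 h with h | h
      · exact hji h
      · exact hj h

private theorem pc_split {n : ℕ} (A : Finset (Cube n)) {R : Finset (Fin n)} (x : Cube n)
    {i : Fin n} (hi : i ∉ R) :
    fib A (insert i R) x =
      fib A R (Function.update x i true) ∪ fib A R (Function.update x i false) := by
  ext y
  rw [Finset.mem_union, pc_mem_upd hi, pc_mem_upd hi]
  constructor
  · intro h
    cases hy : y i with
    | true => exact Or.inl ⟨h, rfl⟩
    | false => exact Or.inr ⟨h, rfl⟩
  · rintro (h | h)
    · exact h.1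
    · exact h.1

private theorem pc_disj {n : ℕ} (A : Finset (Cube n)) {R : Finset (Fin n)} (x : Cube n)
    {i : Fin n} (hi : i ∉ R) :
    Disjoint (fib A R (Function.update x i true)) (fib A R (Function.update x i false)) := by
  rw [Finset.disjoint_left]
  intro y h1 h2
  rw [pc_mem_upd hi] at h1 h2
  rw [h1.2] at h2
  exact absurd h2.2 (by decide)

private theorem pc_sum {n : ℕ} (A : Finset (Cube n)) {R : Finset (Fin n)} (x : Cube n)
    {i : Fin n} (hi : i ∉ R) (g : Cube n → ℝ) :
    ∑ y ∈ fib A (insert i R) x, g y = ∑ y ∈ fib A R (Function.update x i true), g y +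
      ∑ y ∈ fib A R (Function.update x i false), g y := by
  rw [pc_split A x hi, Finset.sum_union (pc_disj A x hi)]

private theorem pc_cardsum {n : ℕ} (A : Finset (Cube n)) {R : Finset (Fin n)} (x : Cube n)
    {i : Fin n} (hi : i ∉ R) :
    (fib A (insert i R) x).card = (fib A R (Function.update x i true)).card +
      (fib A R (Function.update x i false)).card := by
  rw [pc_split A x hi, Finset.card_union_of_disjoint (pc_disj A x hi)]

private theorem pc_card {n : ℕ} (A : Finset (Cube n)) (R : Finset (Fin n)) :
    ∀ x : Cube n, (fib A R x).card ≤ 2 ^ R.card := by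
  induction R using Finset.induction_on with
  | empty =>
    intro x
    rw [Finset.card_empty, pow_zero, Finset.card_le_one]
    intro a ha b hb
    rw [pc_mem] at ha hb
    funext j
    rw [ha.2 j (Finset.notMem_empty j), hb.2 j (Finset.notMem_empty j)]
  | insert i R hi ih =>
    intro x
    rw [pc_cardsum A x hi, Finset.card_insert_of_notMem hi, pow_succ]
    have h1 := ih (Function.update x i true)
    have h2 := ih (Function.update x i false)
    omega

private theorem pc_real (S T P V1 V0 E1 E0 Ei D W : ℝ) (hS : 0 < S) (hT : 0 ≤ T) (hP : 0 < P)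
    (hle : S + T ≤ 2 * P) (hE0 : 0 ≤ E0) (hEi : 0 ≤ Ei) (hb : D ≤ 2 * Ei)
    (h1 : V1 ≤ 8 / (S / P) ^ 2 * E1) (h0 : V0 ≤ 8 / (T / P) ^ 2 * E0)
    (key : W ≤ (2 * T / (S + T)) ^ 2 * V0 + (2 * S / (S + T)) ^ 2 * V1 + 4 * D) :
    W ≤ 8 / ((S + T) / (2 * P)) ^ 2 * (Ei + (E1 + E0)) := by
  have hST : 0 < S + T := by linarith
  have a1 : (2 * S / (S + T)) ^ 2 * V1 ≤ 8 / ((S + T) / (2 * P)) ^ 2 * E1 := by
    have e : 8 / ((S + T) / (2 * P)) ^ 2 * E1 = (2 * S / (S + T)) ^ 2 * (8 / (S / P) ^ 2 * E1) := by
      field_simp
    rw [e]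
    exact mul_le_mul_of_nonneg_left h1 (sq_nonneg _)
  have hc0 : 0 ≤ 8 / ((S + T) / (2 * P)) ^ 2 := by positivity
  have a0 : (2 * T / (S + T)) ^ 2 * V0 ≤ 8 / ((S + T) / (2 * P)) ^ 2 * E0 := by
    rcases hT.eq_or_lt with hT0 | hT0
    · rw [← hT0]
      rw [← hT0] at hc0
      simp only [mul_zero, zero_div, ne_eq, OfNat.ofNat_ne_zero, not_false_eq_true, zero_pow,
        zero_mul]
      exact mul_nonneg hc0 hE0
    · have e : 8 / ((S + T) / (2 * P)) ^ 2 * E0 =
          (2 * T / (S + T)) ^ 2 * (8 / (T / P) ^ 2 * E0) := by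
        field_simp
      rw [e]
      exact mul_le_mul_of_nonneg_left h0 (sq_nonneg _)
  have ai : 8 * Ei ≤ 8 / ((S + T) / (2 * P)) ^ 2 * Ei := by
    refine mul_le_mul_of_nonneg_right ?_ hEi
    have h2 : 0 < (S + T) / (2 * P) := by positivity
    have h3 : (S + T) / (2 * P) ≤ 1 := by
      rw [div_le_one (by positivity)]
      exact hle
    rw [le_div_iff₀ (by positivity)]
    nlinarith
  have e2 : 8 / ((S + T) / (2 * P)) ^ 2 * (Ei + (E1 + E0)) =
      8 / ((S + T) / (2 * P)) ^ 2 * Ei + 8 / ((S + T) / (2 * P)) ^ 2 * E1 +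
        8 / ((S + T) / (2 * P)) ^ 2 * E0 := by ring
  rw [e2]
  linarith

private theorem pc_main {n : ℕ} {A : Finset (Cube n)} (hA : IsUpperSet (A : Set (Cube n)))
    (f : Cube n → ℝ) (R : Finset (Fin n)) : ∀ x : Cube n,
    ∑ y ∈ fib A R x, (f y) ^ 2 - (∑ y ∈ fib A R x, f y) ^ 2 / ((fib A R x).card : ℝ) ≤
      8 / (dens A R x) ^ 2 * ∑ i ∈ R, ∑ y ∈ fib A R x, (f y - eu A i f y) ^ 2 := by
  induction R using Finset.induction_on with
  | empty =>
    intro x
    rw [Finset.sum_empty, mul_zero]
    by_cases hne : (fib A ∅ x).Nonempty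
    · obtain ⟨z, hz⟩ := hne
      have h1 : fib A ∅ x = {z} := by
        have h2 := pc_card A ∅ x
        rw [Finset.card_empty, pow_zero, Finset.card_le_one] at h2
        exact Finset.eq_singleton_iff_unique_mem.2 ⟨hz, fun y hy => h2 y hy z hz⟩
      rw [h1, Finset.sum_singleton, Finset.sum_singleton, Finset.card_singleton]
      simp
    · rw [Finset.not_nonempty_iff_eq_empty.1 hne]
      simp
  | insert i R hi ih =>
    intro x
    set s := fib A R (Function.update x i true) with hs
    set t0 := fib A R (Function.update x i false) with ht0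
    have hup : ∀ y ∈ t0, Function.update y i true ∈ s := by
      intro y hy
      rw [hs, pc_mem_upd hi, pc_mem]
      rw [ht0, pc_mem_upd hi, pc_mem] at hy
      refine ⟨⟨?_, fun j hj => ?_⟩, Function.update_self _ _ _⟩
      · have h1 : y ≤ Function.update y i true := by
          intro j
          by_cases hji : j = i
          · subst hji
            rw [Function.update_self]
            exact Bool.le_true _
          · rw [Function.update_of_ne hji]
        exact Finset.mem_coe.1 (hA h1 (Finset.mem_coe.2 hy.1.1))
      · have hji : j ≠ i := fun h => hj (h ▸ Finset.mem_insert_self i R)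
        rw [Function.update_of_ne hji]
        exact hy.1.2 j hj
    have hdown : ∀ y ∈ t0, Function.update (Function.update y i true) i false = y := by
      intro y hy
      rw [ht0, pc_mem_upd hi] at hy
      rw [Function.update_idem, ← hy.2, Function.update_eq_self]
    by_cases hne : s.Nonempty
    · have hinj : Set.InjOn (fun y : Cube n => Function.update y i true) (t0 : Set (Cube n)) := by
        intro y hy z hz hyz
        have h1 := congrArg (fun w : Cube n => Function.update w i false) hyz
        dsimp only at h1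
        rwa [hdown y hy, hdown z hz] at h1
      set t := t0.image (fun y : Cube n => Function.update y i true) with ht
      have hts : t ⊆ s := by
        intro y hy
        rw [ht, Finset.mem_image] at hy
        obtain ⟨z, hz, rfl⟩ := hy
        exact hup z hz
      have htc : t.card = t0.card := Finset.card_image_of_injOn hinj
      have hsum : ∀ g : Cube n → ℝ, ∑ y ∈ t, g (Function.update y i false) = ∑ y ∈ t0, g y := by
        intro g
        rw [ht, Finset.sum_image hinj]
        exact Finset.sum_congr rfl fun y hy => by rw [hdown y hy]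
      have key := twoPiece s t hts hne f (fun y => f (Function.update y i false))
      rw [hsum (fun y => f y ^ 2), hsum f, htc] at key
      have hb : ∑ y ∈ t, (f (Function.update y i false) - f y) ^ 2 ≤
          2 * ∑ y ∈ fib A (insert i R) x, (f y - eu A i f y) ^ 2 := by
        rw [pc_sum A x hi, ← hs, ← ht0]
        have h1 : ∑ y ∈ t, (f (Function.update y i false) - f y) ^ 2 / 4 ≤
            ∑ y ∈ s, (f y - eu A i f y) ^ 2 := by
          refine le_trans (le_of_eq ?_) (Finset.sum_le_sum_of_subset_of_nonneg hts
            (fun y _ _ => sq_nonneg _))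
          refine Finset.sum_congr rfl fun y hy => ?_
          rw [ht, Finset.mem_image] at hy
          obtain ⟨z, hz, rfl⟩ := hy
          have h2 : Function.update (Function.update z i true) i false ∈ A := by
            rw [hdown z hz]
            rw [ht0, pc_mem] at hz
            exact hz.1
          have h3 : Function.update (Function.update z i true) i true =
              Function.update z i true := Function.update_idem _ _ _
          unfold eu
          rw [if_pos h2, h3]
          ring
        have h4 : ∑ y ∈ t, (f (Function.update y i false) - f y) ^ 2 / 4 =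
            ∑ y ∈ t0, (f y - eu A i f y) ^ 2 := by
          rw [ht, Finset.sum_image hinj]
          refine Finset.sum_congr rfl fun z hz => ?_
          have h5 : Function.update z i false = z := by
            rw [ht0, pc_mem_upd hi] at hz
            rw [← hz.2, Function.update_eq_self]
          have h2 : Function.update z i false ∈ A := by
            rw [h5]
            rw [ht0, pc_mem] at hz
            exact hz.1
          unfold eu
          rw [if_pos h2, hdown z hz, h5]
          ring
        have h6 : ∑ y ∈ t, (f (Function.update y i false) - f y) ^ 2 / 4 =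
            (∑ y ∈ t, (f (Function.update y i false) - f y) ^ 2) / 4 := by
          rw [Finset.sum_div]
        rw [h6] at h1 h4
        linarith
      have hcard := pc_cardsum A x hi
      rw [← hs, ← ht0] at hcard
      have hle := pc_card A (insert i R) x
      have hleR : ((fib A (insert i R) x).card : ℝ) ≤ 2 ^ (insert i R).card := by
        exact_mod_cast hle
      have hIH1 := ih (Function.update x i true)
      have hIH0 := ih (Function.update x i false)
      rw [← hs] at hIH1
      rw [← ht0] at hIH0
      unfold dens at hIH1 hIH0 ⊢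
      rw [← hs] at hIH1
      rw [← ht0] at hIH0
      rw [pc_sum A x hi, pc_sum A x hi, ← hs, ← ht0, Finset.sum_insert hi]
      have hEn : ∑ j ∈ R, ∑ y ∈ fib A (insert i R) x, (f y - eu A j f y) ^ 2 =
          ∑ j ∈ R, ∑ y ∈ s, (f y - eu A j f y) ^ 2 +
            ∑ j ∈ R, ∑ y ∈ t0, (f y - eu A j f y) ^ 2 := by
        rw [← Finset.sum_add_distrib]
        exact Finset.sum_congr rfl fun j _ => pc_sum A x hi _
      rw [hEn]
      rw [hcard, Finset.card_insert_of_notMem hi] at hleR ⊢
      push_cast at hleR ⊢
      have hE1 : 0 ≤ ∑ j ∈ R, ∑ y ∈ s, (f y - eu A j f y) ^ 2 :=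
        Finset.sum_nonneg fun j _ => Finset.sum_nonneg fun y _ => sq_nonneg _
      have hE0 : 0 ≤ ∑ j ∈ R, ∑ y ∈ t0, (f y - eu A j f y) ^ 2 :=
        Finset.sum_nonneg fun j _ => Finset.sum_nonneg fun y _ => sq_nonneg _
      have hEi : 0 ≤ ∑ y ∈ fib A (insert i R) x, (f y - eu A i f y) ^ 2 :=
        Finset.sum_nonneg fun y _ => sq_nonneg _
      have hSpos : (0 : ℝ) < (s.card : ℝ) := by exact_mod_cast Finset.card_pos.2 hne
      have hTnn : (0 : ℝ) ≤ (t0.card : ℝ) := Nat.cast_nonneg _
      have hP : (0 : ℝ) < 2 ^ R.card := by positivity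
      have hpw : (2 : ℝ) ^ (R.card + 1) = 2 * 2 ^ R.card := by rw [pow_succ, mul_comm]
      rw [hpw] at hleR ⊢
      exact pc_real _ _ _ _ _ _ _ _ _ _ hSpos hTnn hP hleR hE0 hEi hb hIH1 hIH0 key
    · have hs0 : s = ∅ := Finset.not_nonempty_iff_eq_empty.1 hne
      have ht00 : t0 = ∅ := by
        rw [Finset.eq_empty_iff_forall_notMem]
        intro y hy
        exact hne ⟨_, hup y hy⟩
      have hf : fib A (insert i R) x = ∅ := by
        rw [pc_split A x hi, ← hs, ← ht0, hs0, ht00, Finset.union_empty]
      rw [hf]
      simp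

/-- Poincare inequality on every fibre of a monotone set -/
theorem poincare {n : ℕ} {A : Finset (Cube n)} (hA : IsUpperSet (A : Set (Cube n)))
    (f : Cube n → ℝ) (R : Finset (Fin n)) (x : Cube n) (h : (fib A R x).Nonempty) :
    ∑ y ∈ fib A R x, (f y) ^ 2 - (∑ y ∈ fib A R x, f y) ^ 2 / ((fib A R x).card : ℝ) ≤
      8 / (dens A R x) ^ 2 * ∑ i ∈ R, ∑ y ∈ fib A R x, (f y - eu A i f y) ^ 2 := by
  exact pc_main hA f R x

end Pool.Agent.Lib.MP_52661b_pr
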