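import Pool.Agent.Lib.MP_52661b_pr.Fibres
import Pool.Agent.Lib.MP_52661b_pr.Poincare

set_option autoImplicit false

namespace Pool.Agent.Lib.MP_52661b_pr

open Finset

private theorem fib_eq_of_mem {n : ℕ} {A : Finset (Cube n)} {R : Finset (Fin n)} {x y : Cube n}
    (h : y ∈ fib A R x) : fib A R y = fib A R x := by
  unfold fib at *
  rw [mem_filter] at h
  ext z
  simp only [mem_filter]
  constructor
  · rintro ⟨h1, h2⟩
    exact ⟨h1, fun j hj => (h2 j hj).trans (h.2 j hj)⟩
  · rintro ⟨h1, h2⟩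
    exact ⟨h1, fun j hj => (h2 j hj).trans (h.2 j hj).symm⟩

private theorem self_mem_fib {n : ℕ} {A : Finset (Cube n)} {R : Finset (Fin n)} {x : Cube n}
    (h : x ∈ A) : x ∈ fib A R x := by
  unfold fib
  rw [mem_filter]
  exact ⟨h, fun _ _ => rfl⟩

/-- block variance is controlled by the energy -/
theorem block_lower {n : ℕ} {A : Finset (Cube n)} (hA : IsUpperSet (A : Set (Cube n)))
    (f : Cube n → ℝ) (q : ℝ) (hq : 0 < q) (R : Finset (Fin n)) :
    ∑ x ∈ A, (if q ≤ dens A R x then (f x) ^ 2 - (cmean A R f x) ^ 2 else 0) ≤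
      8 / q ^ 2 * ∑ i ∈ R, ∑ x ∈ A, (f x - eu A i f x) ^ 2 := by
  classical
  set h : Cube n → ℝ := fun x => if q ≤ dens A R x then 1 else 0 with hh
  set g : Cube n → ℝ := fun x => ∑ i ∈ R, (f x - eu A i f x) ^ 2 with hg
  have hinv : ∀ x y, x ∈ A → y ∈ fib A R x → h y = h x := by
    intro x y _ hy
    have hd : dens A R y = dens A R x := by simp only [dens, fib_eq_of_mem hy]
    simp only [hh, hd]
  have hg0 : ∀ x, 0 ≤ g x := fun x => sum_nonneg fun i _ => sq_nonneg _
  have hh0 : ∀ x, 0 ≤ h x := fun x => by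
    simp only [hh]; split_ifs <;> norm_num
  have hh1 : ∀ x, h x ≤ 1 := fun x => by
    simp only [hh]; split_ifs <;> norm_num
  have e1 : ∑ x ∈ A, (if q ≤ dens A R x then (f x) ^ 2 - (cmean A R f x) ^ 2 else 0) =
      ∑ x ∈ A, h x * ((f x) ^ 2 - (cmean A R f x) ^ 2) := by
    refine sum_congr rfl fun x _ => ?_
    simp only [hh]
    split_ifs <;> ring
  rw [e1, ← sum_fibre_avg A R h (fun x => (f x) ^ 2 - (cmean A R f x) ^ 2) hinv]
  have e2 : ∀ x ∈ A, h x * ((∑ y ∈ fib A R x, ((f y) ^ 2 - (cmean A R f y) ^ 2)) /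
      ((fib A R x).card : ℝ)) ≤
      h x * ((∑ y ∈ fib A R x, 8 / q ^ 2 * g y) / ((fib A R x).card : ℝ)) := by
    intro x hx
    have hne : (fib A R x).Nonempty := ⟨x, self_mem_fib hx⟩
    have hc : (0 : ℝ) < ((fib A R x).card : ℝ) := by exact_mod_cast hne.card_pos
    by_cases hd : q ≤ dens A R x
    · have hx1 : h x = 1 := by simp only [hh, if_pos hd]
      rw [hx1, one_mul, one_mul]
      apply div_le_div_of_nonneg_right _ hc.le
      have hcm : ∀ y ∈ fib A R x, cmean A R f y = cmean A R f x := by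
        intro y hy
        simp only [cmean, fib_eq_of_mem hy]
      rw [sum_sub_distrib]
      have e3 : ∑ y ∈ fib A R x, (cmean A R f y) ^ 2 =
          (∑ y ∈ fib A R x, f y) ^ 2 / ((fib A R x).card : ℝ) := by
        rw [sum_congr rfl (fun y hy => by rw [hcm y hy])]
        rw [sum_const, nsmul_eq_mul, cmean]
        field_simp
      rw [e3]
      refine (poincare hA f R x hne).trans ?_
      rw [← mul_sum, hg]
      simp only
      rw [sum_comm]
      apply mul_le_mul_of_nonneg_right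
      · apply div_le_div_of_nonneg_left (by norm_num) (by positivity)
        exact pow_le_pow_left₀ hq.le hd 2
      · exact sum_nonneg fun y _ => sum_nonneg fun i _ => sq_nonneg _
    · have hx0 : h x = 0 := by simp only [hh, if_neg hd]
      rw [hx0, zero_mul, zero_mul]
  refine (sum_le_sum e2).trans ?_
  rw [sum_fibre_avg A R h (fun y => 8 / q ^ 2 * g y) hinv]
  have e4 : ∑ i ∈ R, ∑ x ∈ A, (f x - eu A i f x) ^ 2 = ∑ x ∈ A, g x := by
    rw [hg, sum_comm]
  rw [e4, mul_sum]
  refine sum_le_sum fun x _ => ?_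
  have : 0 ≤ 8 / q ^ 2 * g x := mul_nonneg (by positivity) (hg0 x)
  nlinarith [hh1 x, hh0 x]

end Pool.Agent.Lib.MP_52661b_pr
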