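import Pool.Agent.Lib.MP_52661b_pr.Defs

set_option autoImplicit false

namespace Pool.Agent.Lib.MP_52661b_pr

open Finset

private theorem bo_sum {n : ℕ} (G : Cube (n + 1) → ℝ) :
    ∑ x, G x = ∑ x : Cube n, (G (Fin.cons false x) + G (Fin.cons true x)) := by
  have h1 : ∑ x, G x = ∑ p : Bool × Cube n, G (Fin.cons p.1 p.2) := by
    symm
    exact Fintype.sum_equiv (Fin.consEquiv fun _ => Bool) _ _ fun p => rfl
  rw [h1, Fintype.sum_prod_type, Fintype.sum_bool, ← Finset.sum_add_distrib]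
  refine Finset.sum_congr rfl fun x _ => ?_
  rw [add_comm]

private theorem bo_ker {n : ℕ} (s : ℝ) (b c : Bool) (x y : Cube n) :
    ker s (Fin.cons b x : Cube (n + 1)) (Fin.cons c y : Cube (n + 1)) =
      (if b = c then (1 + s) / 2 else (1 - s) / 2) * ker s x y := by
  unfold ker
  rw [Fin.prod_univ_succ]
  simp only [Fin.cons_zero, Fin.cons_succ]

private theorem bo_noise {n : ℕ} (s : ℝ) (F : Cube (n + 1) → ℝ) (b : Bool) (x : Cube n) :
    noise s F (Fin.cons b x : Cube (n + 1)) =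
      (if b = false then (1 + s) / 2 else (1 - s) / 2) *
        noise s (fun y => F (Fin.cons false y)) x +
      (if b = true then (1 + s) / 2 else (1 - s) / 2) *
        noise s (fun y => F (Fin.cons true y)) x := by
  unfold noise
  rw [bo_sum, Finset.sum_add_distrib, Finset.mul_sum, Finset.mul_sum]
  congr 1
  · refine Finset.sum_congr rfl fun y _ => ?_
    rw [bo_ker]
    ring
  · refine Finset.sum_congr rfl fun y _ => ?_
    rw [bo_ker]
    ring

private theorem bo_lin {n : ℕ} (s a b : ℝ) (F G : Cube n → ℝ) (x : Cube n) :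
    noise s (fun y => a * F y + b * G y) x = a * noise s F x + b * noise s G x := by
  unfold noise
  rw [Finset.mul_sum, Finset.mul_sum, ← Finset.sum_add_distrib]
  refine Finset.sum_congr rfl fun y _ => ?_
  ring

/-- (4,2) hypercontractivity -/
theorem bonami {n : ℕ} (s : ℝ) (hs0 : 0 ≤ s) (hs : s ≤ 1 / 2) (F : Cube n → ℝ) :
    (2 : ℝ) ^ n * ∑ x, (noise s F x) ^ 4 ≤ (∑ x, (F x) ^ 2) ^ 2 := by
  induction n with
  | zero =>
    unfold noise ker
    simp only [Fintype.sum_unique, Finset.univ_eq_empty, Finset.prod_empty, pow_zero, one_mul]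
    apply le_of_eq
    ring
  | succ n ih =>
    set F0 : Cube n → ℝ := fun y => F (Fin.cons false y) with hF0
    set F1 : Cube n → ℝ := fun y => F (Fin.cons true y) with hF1
    set g : Cube n → ℝ := fun y => (1 / 2) * F0 y + (1 / 2) * F1 y with hg
    set h : Cube n → ℝ := fun y => (1 / 2) * F0 y + (-(1 / 2)) * F1 y with hh
    have ihg := ih g
    have ihh := ih h
    have hTg : ∀ x, noise s g x = (1 / 2) * noise s F0 x + (1 / 2) * noise s F1 x := fun x =>
      bo_lin s _ _ F0 F1 x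
    have hTh : ∀ x, noise s h x = (1 / 2) * noise s F0 x + (-(1 / 2)) * noise s F1 x := fun x =>
      bo_lin s _ _ F0 F1 x
    set G := ∑ x, (g x) ^ 2 with hG
    set H := ∑ x, (h x) ^ 2 with hH
    have hG0 : 0 ≤ G := Finset.sum_nonneg fun x _ => sq_nonneg _
    have hH0 : 0 ≤ H := Finset.sum_nonneg fun x _ => sq_nonneg _
    have hFsum : ∑ x, (F x) ^ 2 = 2 * (G + H) := by
      rw [bo_sum, hG, hH, ← Finset.sum_add_distrib, Finset.mul_sum]
      refine Finset.sum_congr rfl fun x _ => ?_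
      simp only [hg, hh, hF0, hF1]
      ring
    have hLHS : ∑ x, (noise s F x) ^ 4 = 2 * (∑ x, (noise s g x) ^ 4 +
        6 * s ^ 2 * ∑ x, (noise s g x) ^ 2 * (noise s h x) ^ 2 +
        s ^ 4 * ∑ x, (noise s h x) ^ 4) := by
      rw [bo_sum, Finset.mul_sum, Finset.mul_sum, ← Finset.sum_add_distrib,
        ← Finset.sum_add_distrib, Finset.mul_sum]
      refine Finset.sum_congr rfl fun x _ => ?_
      rw [bo_noise, bo_noise, hTg, hTh]
      simp only [if_true, reduceCtorEq, if_false]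
      ring
    set X := ∑ x, (noise s g x) ^ 2 * (noise s h x) ^ 2 with hX
    have hX0 : 0 ≤ X := Finset.sum_nonneg fun x _ => by positivity
    have hCS : ((2 : ℝ) ^ n * X) ^ 2 ≤ (G * H) ^ 2 := by
      have h1 := Finset.sum_mul_sq_le_sq_mul_sq univ (fun x => (noise s g x) ^ 2)
        (fun x => (noise s h x) ^ 2)
      have h2 : ∀ a : Cube n → ℝ, ∑ x, ((a x) ^ 2) ^ 2 = ∑ x, (a x) ^ 4 := by
        intro a
        refine Finset.sum_congr rfl fun x _ => ?_
        ring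
      rw [h2, h2] at h1
      have hA0 : 0 ≤ (2 : ℝ) ^ n * ∑ x, (noise s h x) ^ 4 := by positivity
      calc ((2 : ℝ) ^ n * X) ^ 2 = 2 ^ n * 2 ^ n * X ^ 2 := by ring
        _ ≤ 2 ^ n * 2 ^ n * ((∑ x, (noise s g x) ^ 4) * ∑ x, (noise s h x) ^ 4) :=
          mul_le_mul_of_nonneg_left h1 (by positivity)
        _ = (2 ^ n * ∑ x, (noise s g x) ^ 4) * (2 ^ n * ∑ x, (noise s h x) ^ 4) := by ring
        _ ≤ G ^ 2 * H ^ 2 := mul_le_mul ihg ihh hA0 (sq_nonneg _)
        _ = _ := by ring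
    have hX2 : (2 : ℝ) ^ n * X ≤ G * H :=
      (pow_le_pow_iff_left₀ (by positivity) (by positivity) two_ne_zero).mp hCS
    have hs2 : 6 * s ^ 2 ≤ 2 := by nlinarith
    have hs4 : s ^ 4 ≤ 1 := pow_le_one₀ hs0 (by linarith)
    have hY0 : 0 ≤ (2 : ℝ) ^ n * X := by positivity
    have hZ0 : 0 ≤ (2 : ℝ) ^ n * ∑ x, (noise s h x) ^ 4 := by positivity
    rw [hFsum, hLHS]
    have h5 : (2 : ℝ) ^ (n + 1) * (2 * (∑ x, (noise s g x) ^ 4 + 6 * s ^ 2 * X +
        s ^ 4 * ∑ x, (noise s h x) ^ 4)) = 4 * ((2 ^ n * ∑ x, (noise s g x) ^ 4) +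
          6 * s ^ 2 * (2 ^ n * X) + s ^ 4 * (2 ^ n * ∑ x, (noise s h x) ^ 4)) := by ring
    rw [h5]
    have h6 : 6 * s ^ 2 * ((2 : ℝ) ^ n * X) ≤ 2 * (G * H) :=
      mul_le_mul hs2 hX2 hY0 (by norm_num)
    have h7 : s ^ 4 * ((2 : ℝ) ^ n * ∑ x, (noise s h x) ^ 4) ≤ 1 * H ^ 2 :=
      mul_le_mul hs4 ihh hZ0 (by norm_num)
    have h8 : (2 * (G + H)) ^ 2 = 4 * (G ^ 2 + 2 * (G * H) + 1 * H ^ 2) := by ring
    rw [h8]
    linarith

end Pool.Agent.Lib.MP_52661b_pr
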