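import Pool.Agent.Lib.MP_52661b_pr.FreeMix

set_option autoImplicit false

namespace Pool.Agent.Lib.MP_52661b_pr

open Finset

private theorem update_mono' {n : ℕ} {x y : Cube n} (h : x ≤ y) (i : Fin n) (b : Bool) :
    Function.update x i b ≤ Function.update y i b := by
  intro j
  by_cases hj : j = i
  · subst hj; simp
  · simp only [Function.update_of_ne hj]
    exact h j

private theorem update_false_le_true {n : ℕ} (x : Cube n) (i : Fin n) :
    Function.update x i false ≤ Function.update x i true := by
  intro j
  by_cases hj : j = i
  · subst hj; simp
  · simp only [Function.update_of_ne hj]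
    exact le_rfl

private theorem update_false_le {n : ℕ} (x : Cube n) (i : Fin n) : Function.update x i false ≤ x := by
  intro j
  by_cases hj : j = i
  · subst hj; simp
  · simp only [Function.update_of_ne hj]
    exact le_rfl

/-- the free heat bath preserves monotone functions -/
private theorem eu_univ_mono {n : ℕ} {h : Cube n → ℝ} (hm : Monotone h) (i : Fin n) :
    Monotone (eu univ i h) := by
  intro x y hxy
  unfold eu
  rw [if_pos (mem_univ _), if_pos (mem_univ _)]
  have h1 := hm (update_mono' hxy i false)
  have h2 := hm (update_mono' hxy i true)
  linarith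

private theorem step_univ_mono {n : ℕ} {h : Cube n → ℝ} (hm : Monotone h) :
    Monotone (step univ h) := by
  intro x y hxy
  unfold step
  apply mul_le_mul_of_nonneg_left _ (by positivity)
  exact Finset.sum_le_sum fun i _ => eu_univ_mono hm i hxy

private theorem iter_univ_mono {n : ℕ} {h : Cube n → ℝ} (hm : Monotone h) (t : ℕ) :
    Monotone ((step univ)^[t] h) := by
  induction t with
  | zero => exact hm
  | succ t ih =>
    rw [Function.iterate_succ_apply']
    exact step_univ_mono ih

/-- the censored walk dominates the free walk on increasing functions -/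
theorem compare {n : ℕ} {A : Finset (Cube n)} (h : Cube n → ℝ) (hm : Monotone h) (t : ℕ)
    (x : Cube n) (hx : x ∈ A) (hA : IsUpperSet (A : Set (Cube n))) :
    (step univ)^[t] h x ≤ (step A)^[t] h x := by
  induction t generalizing x with
  | zero => exact le_rfl
  | succ t ih =>
    rw [Function.iterate_succ_apply', Function.iterate_succ_apply']
    have hmono := iter_univ_mono hm t
    generalize (step univ)^[t] h = g' at *
    generalize (step A)^[t] h = g at *
    unfold step
    apply mul_le_mul_of_nonneg_left _ (by positivity)
    apply Finset.sum_le_sum
    intro i _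
    unfold eu
    rw [if_pos (mem_univ _)]
    split_ifs with h0
    · have h1 : Function.update x i true ∈ A := by
        have := hA (update_false_le_true x i) (by exact_mod_cast h0)
        exact_mod_cast this
      have e0 := ih _ h0
      have e1 := ih _ h1
      linarith
    · have hxi : x i = true := by
        by_contra hb
        rw [Bool.not_eq_true] at hb
        apply h0
        rw [← hb, Function.update_eq_self]
        exact hx
      have e : Function.update x i true = x := by
        rw [← hxi, Function.update_eq_self]
      rw [e]
      have e0 := ih x hx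
      have e1 := hmono (update_false_le x i)
      linarith

/-- the censored walk dominates the free walk on increasing events, and the free walk mixes -/
theorem burn_in {n : ℕ} (hn : 0 < n) {A : Finset (Cube n)} (hA : IsUpperSet (A : Set (Cube n)))
    (G : Finset (Cube n)) (hG : IsUpperSet (G : Set (Cube n))) (t : ℕ) (x : Cube n) (hx : x ∈ A) :
    (G.card : ℝ) / 2 ^ n - n * (1 - 1 / (n : ℝ)) ^ t ≤
      (step A)^[t] (fun y => if y ∈ G then (1 : ℝ) else 0) x := by
  have hm : Monotone (fun y : Cube n => if y ∈ G then (1 : ℝ) else 0) := by
    intro a b hab
    show (if a ∈ G then (1 : ℝ) else 0) ≤ if b ∈ G then (1 : ℝ) else 0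
    by_cases ha : a ∈ G
    · have hb : b ∈ G := by
        have := hG hab (by exact_mod_cast ha)
        exact_mod_cast this
      rw [if_pos ha, if_pos hb]
    · rw [if_neg ha]
      split_ifs <;> norm_num
  have h1 := free_mix hn (fun y : Cube n => if y ∈ G then (1 : ℝ) else 0)
    (fun y => by show (0 : ℝ) ≤ if y ∈ G then (1 : ℝ) else 0; split_ifs <;> norm_num)
    (fun y => by show (if y ∈ G then (1 : ℝ) else 0) ≤ 1; split_ifs <;> norm_num) t x
  have h2 := compare (fun y : Cube n => if y ∈ G then (1 : ℝ) else 0) hm t x hx hA
  have h3 : (∑ y : Cube n, if y ∈ G then (1 : ℝ) else 0) = (G.card : ℝ) := by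
    simp
  rw [h3] at h1
  exact h1.trans h2

end Pool.Agent.Lib.MP_52661b_pr
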