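import Pool.Agent.Lib.MP_52661b_pr.Defs

set_option autoImplicit false

namespace Pool.Agent.Lib.MP_52661b_pr

open Finset

theorem chainProb_nonneg {n : ℕ} (A : Finset (Cube n)) (q : ℝ) (j : ℕ)
    (R : Finset (Fin n)) (x : Cube n) : 0 ≤ chainProb A q j R x := by
  induction j generalizing R x with
  | zero => exact zero_le_one
  | succ j ih =>
    unfold chainProb
    have h1 : 0 ≤ ∑ R' ∈ R.powerset, chainProb A q j R' x := sum_nonneg fun R' _ => ih R' x
    split_ifs
    · positivity
    · simp

theorem chainProb_le_one {n : ℕ} (A : Finset (Cube n)) (q : ℝ) (j : ℕ)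
    (R : Finset (Fin n)) (x : Cube n) : chainProb A q j R x ≤ 1 := by
  induction j generalizing R x with
  | zero => exact le_rfl
  | succ j ih =>
    unfold chainProb
    have h1 : ∑ R' ∈ R.powerset, chainProb A q j R' x ≤ 2 ^ R.card := by
      calc ∑ R' ∈ R.powerset, chainProb A q j R' x ≤ ∑ _R' ∈ R.powerset, (1 : ℝ) :=
            sum_le_sum fun R' _ => ih R' x
        _ = 2 ^ R.card := by simp
    split_ifs
    · rw [one_mul, one_div, inv_mul_le_iff₀ (by positivity), mul_one]
      exact h1
    · simp

theorem cf_succ {n : ℕ} (A : Finset (Cube n)) (q : ℝ) (j : ℕ) (R : Finset (Fin n)) (x : Cube n) :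
    chainProb A q (j + 1) R x = (if q ≤ dens A R x then 1 else 0) *
      ((1 / 2 ^ R.card) * ∑ R' ∈ R.powerset, chainProb A q j R' x) := rfl

theorem cf_card_univ {n : ℕ} (R : Finset (Fin n)) (x : Cube n) :
    (fib univ R x).card = 2 ^ R.card := by
  classical
  have h : fib univ R x = Fintype.piFinset (fun i => if i ∈ R then univ else {x i}) := by
    ext y
    unfold fib
    rw [mem_filter, Fintype.mem_piFinset]
    constructor
    · rintro ⟨_, hy⟩ i
      by_cases hi : i ∈ R
      · rw [if_pos hi]; exact mem_univ _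
      · rw [if_neg hi, mem_singleton]; exact hy i hi
    · intro hy
      refine ⟨mem_univ _, fun i hi => ?_⟩
      have := hy i
      rwa [if_neg hi, mem_singleton] at this
  rw [h, Fintype.card_piFinset]
  have h2 : ∀ i : Fin n, ((if i ∈ R then univ else {x i} : Finset Bool)).card =
      if i ∈ R then 2 else 1 := by
    intro i
    split_ifs
    · simp
    · simp
  rw [prod_congr rfl fun i _ => h2 i, Finset.prod_ite_mem, univ_inter, prod_const]

theorem cf_mem {n : ℕ} {A : Finset (Cube n)} {R : Finset (Fin n)} {x y : Cube n} :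
    y ∈ fib A R x ↔ y ∈ A ∧ ∀ j, j ∉ R → y j = x j := by
  unfold fib
  rw [mem_filter]

theorem cf_fib_eq {n : ℕ} {A : Finset (Cube n)} {R : Finset (Fin n)} {x y : Cube n}
    (hy : ∀ j, j ∉ R → y j = x j) : fib A R y = fib A R x := by
  ext z
  rw [cf_mem, cf_mem]
  refine and_congr_right fun _ => forall_congr' fun j => forall_congr' fun hj => ?_
  rw [hy j hj]

/-- double counting -/
theorem cf_double {n : ℕ} (A : Finset (Cube n)) {R R' : Finset (Fin n)} (hR : R' ⊆ R)
    (x : Cube n) (g : Cube n → ℝ) :
    ∑ z ∈ fib univ R x, ∑ y ∈ fib A R' z, g y = 2 ^ R'.card * ∑ y ∈ fib A R x, g y := by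
  classical
  have h1 : ∀ z ∈ fib univ R x, ∑ y ∈ fib A R' z, g y =
      ∑ y ∈ fib A R x, if z ∈ fib univ R' y then g y else 0 := by
    intro z hz
    rw [← sum_filter]
    refine sum_congr ?_ fun _ _ => rfl
    ext y
    rw [mem_filter, cf_mem, cf_mem, cf_mem]
    rw [cf_mem] at hz
    constructor
    · rintro ⟨hyA, hy⟩
      refine ⟨⟨hyA, fun j hj => ?_⟩, mem_univ _, fun j hj => (hy j hj).symm⟩
      rw [hy j fun h => hj (hR h), hz.2 j hj]
    · rintro ⟨⟨hyA, _⟩, _, hy⟩
      exact ⟨hyA, fun j hj => (hy j hj).symm⟩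
  rw [sum_congr rfl h1, sum_comm, mul_sum]
  refine sum_congr rfl fun y hy => ?_
  rw [cf_mem] at hy
  rw [← sum_filter, sum_const, nsmul_eq_mul]
  have h2 : (fib univ R x).filter (fun z => z ∈ fib univ R' y) = fib univ R' y := by
    ext z
    rw [mem_filter, cf_mem, cf_mem]
    refine ⟨fun h => h.2, fun h => ⟨⟨mem_univ _, fun j hj => ?_⟩, h⟩⟩
    rw [h.2 j fun h' => hj (hR h'), hy.2 j hj]
  rw [h2, cf_card_univ]
  push_cast
  ring

/-- failure probability, restricted to a fibre -/
theorem chain_fail {n : ℕ} (A : Finset (Cube n)) (q : ℝ) (hq : 0 < q) (j : ℕ)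
    (R : Finset (Fin n)) (x : Cube n) :
    ∑ y ∈ fib A R x, (1 - chainProb A q j R y) ≤ q * 2 ^ R.card := by
  induction j generalizing R x with
  | zero =>
    have : ∑ y ∈ fib A R x, (1 - chainProb A q 0 R y) = 0 :=
      sum_eq_zero fun y _ => sub_self _
    rw [this]
    positivity
  | succ j ih =>
    have hdens : ∀ y ∈ fib A R x, dens A R y = dens A R x := by
      intro y hy
      unfold dens
      rw [cf_fib_eq (cf_mem.1 hy).2]
    have hP : (0 : ℝ) < 2 ^ R.card := by positivity
    by_cases hd : q ≤ dens A R x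
    · have h1 : ∀ y ∈ fib A R x, 1 - chainProb A q (j + 1) R y =
          (1 / 2 ^ R.card) * ∑ R' ∈ R.powerset, (1 - chainProb A q j R' y) := by
        intro y hy
        rw [sum_sub_distrib, sum_const, card_powerset, nsmul_eq_mul, mul_one, cf_succ,
          hdens y hy, if_pos hd, one_mul]
        push_cast
        field_simp
      rw [sum_congr rfl h1, ← mul_sum, sum_comm, one_div, inv_mul_le_iff₀ hP]
      calc ∑ R' ∈ R.powerset, ∑ y ∈ fib A R x, (1 - chainProb A q j R' y)
          ≤ ∑ _R' ∈ R.powerset, q * 2 ^ R.card := by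
            refine sum_le_sum fun R' hR' => ?_
            rw [mem_powerset] at hR'
            have h2 := cf_double A hR' x (fun y => 1 - chainProb A q j R' y)
            have h3 : ∑ z ∈ fib univ R x, ∑ y ∈ fib A R' z, (1 - chainProb A q j R' y) ≤
                ∑ _z ∈ fib univ R x, q * 2 ^ R'.card := sum_le_sum fun z _ => ih R' z
            rw [h2, sum_const, cf_card_univ, nsmul_eq_mul] at h3
            push_cast at h3
            have h4 : (0 : ℝ) < 2 ^ R'.card := by positivity
            refine le_of_mul_le_mul_left ?_ h4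
            calc 2 ^ R'.card * ∑ y ∈ fib A R x, (1 - chainProb A q j R' y)
                ≤ 2 ^ R.card * (q * 2 ^ R'.card) := h3
              _ = 2 ^ R'.card * (q * 2 ^ R.card) := by ring
        _ = 2 ^ R.card * (q * 2 ^ R.card) := by
            rw [sum_const, card_powerset, nsmul_eq_mul]
            push_cast
            ring
    · have h1 : ∀ y ∈ fib A R x, 1 - chainProb A q (j + 1) R y = 1 := by
        intro y hy
        rw [cf_succ, hdens y hy, if_neg hd, zero_mul, sub_zero]
      rw [sum_congr rfl h1, sum_const, nsmul_eq_mul, mul_one]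
      push Not at hd
      unfold dens at hd
      rw [div_lt_iff₀ hP] at hd
      exact hd.le

end Pool.Agent.Lib.MP_52661b_pr
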