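import Pool.Agent.Lib.MP_52661b_pr.Defs

set_option autoImplicit false

namespace Pool.Agent.Lib.MP_52661b_pr

open Finset

private theorem cp_nonneg {n : ℕ} (A : Finset (Cube n)) (q : ℝ) (x : Cube n) : ∀ (j : ℕ)
    (R : Finset (Fin n)), 0 ≤ chainProb A q j R x := by
  intro j
  induction j with
  | zero => intro R; simp [chainProb]
  | succ j ih =>
    intro R
    rw [chainProb]
    refine mul_nonneg (by split_ifs <;> norm_num) (mul_nonneg (by positivity) ?_)
    exact Finset.sum_nonneg (fun R' _ => ih R')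

private theorem cp_le_one {n : ℕ} (A : Finset (Cube n)) (q : ℝ) (x : Cube n) : ∀ (j : ℕ)
    (R : Finset (Fin n)), chainProb A q j R x ≤ 1 := by
  intro j
  induction j with
  | zero => intro R; simp [chainProb]
  | succ j ih =>
    intro R
    rw [chainProb]
    have h1 : (1 / 2 ^ R.card : ℝ) * ∑ R' ∈ R.powerset, chainProb A q j R' x ≤ 1 := by
      have : ∑ R' ∈ R.powerset, chainProb A q j R' x ≤ ∑ R' ∈ R.powerset, (1 : ℝ) :=
        Finset.sum_le_sum (fun R' _ => ih R')
      rw [Finset.sum_const, Finset.card_powerset, nsmul_eq_mul, mul_one] at this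
      push_cast at this
      rw [one_div, inv_mul_le_iff₀ (by positivity), mul_one]
      exact this
    have h0 : 0 ≤ (1 / 2 ^ R.card : ℝ) * ∑ R' ∈ R.powerset, chainProb A q j R' x :=
      mul_nonneg (by positivity) (Finset.sum_nonneg (fun R' _ => cp_nonneg A q x j R'))
    split_ifs
    · rw [one_mul]; exact h1
    · rw [zero_mul]; norm_num

private theorem sum_between {n : ℕ} (R R'' : Finset (Fin n)) (h : R'' ⊆ R) (c : ℝ) :
    ∑ R' ∈ R.powerset.filter (fun R' => R'' ⊆ R'), c ^ (R'.card - R''.card) =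
      (1 + c) ^ (R.card - R''.card) := by
  have hset : R.powerset.filter (fun R' => R'' ⊆ R') = ((R \ R'').powerset).image (fun T => R'' ∪ T) := by
    ext R'
    simp only [mem_filter, mem_powerset, mem_image]
    constructor
    · rintro ⟨h1, h2⟩
      refine ⟨R' \ R'', Finset.sdiff_subset_sdiff h1 (le_refl _), Finset.union_sdiff_of_subset h2⟩
    · rintro ⟨T, hT, rfl⟩
      exact ⟨Finset.union_subset h (hT.trans Finset.sdiff_subset), Finset.subset_union_left⟩
  rw [hset, Finset.sum_image]
  · have h1 : ∀ T ∈ (R \ R'').powerset, c ^ ((R'' ∪ T).card - R''.card) =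
        c ^ T.card * 1 ^ ((R \ R'').card - T.card) := by
      intro T hT
      rw [mem_powerset] at hT
      have hd : Disjoint R'' T := by
        refine Finset.disjoint_of_subset_right hT Finset.disjoint_sdiff
      rw [Finset.card_union_of_disjoint hd, Nat.add_sub_cancel_left, one_pow, mul_one]
    rw [Finset.sum_congr rfl h1, Finset.sum_pow_mul_eq_add_pow, Finset.card_sdiff_of_subset h, add_comm]
  · intro T hT T' hT' heq
    have hT1 : T ⊆ R \ R'' := Finset.mem_powerset.1 (Finset.mem_coe.1 hT)
    have hT2 : T' ⊆ R \ R'' := Finset.mem_powerset.1 (Finset.mem_coe.1 hT')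
    have e1 : (R'' ∪ T) \ R'' = T := by
      rw [Finset.union_sdiff_left]
      exact Finset.sdiff_eq_self_of_disjoint (Finset.disjoint_of_subset_left hT1 Finset.sdiff_disjoint)
    have e2 : (R'' ∪ T') \ R'' = T' := by
      rw [Finset.union_sdiff_left]
      exact Finset.sdiff_eq_self_of_disjoint (Finset.disjoint_of_subset_left hT2 Finset.sdiff_disjoint)
    have heq' : R'' ∪ T = R'' ∪ T' := heq
    rw [← e1, heq', e2]

private theorem chain_aux {n : ℕ} (A : Finset (Cube n)) (q : ℝ) (x : Cube n) (j : ℕ) : ∀ (k : ℕ)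
    (R : Finset (Fin n)),
    chainProb A q (k + 1 + j) R x ≤
      ∑ R' ∈ R.powerset, (1 / 2 ^ k : ℝ) ^ R'.card * (1 - 1 / 2 ^ k) ^ (R.card - R'.card) *
        (if q ≤ dens A R' x then 1 else 0) := by
  intro k
  induction k with
  | zero =>
    intro R
    have h1 : chainProb A q (0 + 1 + j) R x ≤ (if q ≤ dens A R x then 1 else 0) := by
      rw [show 0 + 1 + j = j + 1 by ring, chainProb]
      have h1 : (1 / 2 ^ R.card : ℝ) * ∑ R' ∈ R.powerset, chainProb A q j R' x ≤ 1 := by
        have : ∑ R' ∈ R.powerset, chainProb A q j R' x ≤ ∑ R' ∈ R.powerset, (1 : ℝ) :=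
          Finset.sum_le_sum (fun R' _ => cp_le_one A q x j R')
        rw [Finset.sum_const, Finset.card_powerset, nsmul_eq_mul, mul_one] at this
        push_cast at this
        rw [one_div, inv_mul_le_iff₀ (by positivity), mul_one]
        exact this
      split_ifs
      · rw [one_mul]; exact h1
      · rw [zero_mul]
    refine h1.trans ?_
    have hmem : R ∈ R.powerset := by simp
    refine le_trans ?_ (Finset.single_le_sum (f := fun R' => (1 / 2 ^ 0 : ℝ) ^ R'.card *
      (1 - 1 / 2 ^ 0) ^ (R.card - R'.card) * (if q ≤ dens A R' x then (1 : ℝ) else 0)) ?_ hmem)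
    · simp
    · intro R' _
      refine mul_nonneg (mul_nonneg (by positivity) ?_) (by split_ifs <;> norm_num)
      norm_num
  | succ k ih =>
    intro R
    rw [show k + 1 + 1 + j = (k + 1 + j) + 1 by ring, chainProb]
    have h0 : 0 ≤ (1 / 2 ^ R.card : ℝ) * ∑ R' ∈ R.powerset, chainProb A q (k + 1 + j) R' x :=
      mul_nonneg (by positivity) (Finset.sum_nonneg (fun R' _ => cp_nonneg A q x _ R'))
    have h1 : (if q ≤ dens A R x then (1 : ℝ) else 0) *
        ((1 / 2 ^ R.card) * ∑ R' ∈ R.powerset, chainProb A q (k + 1 + j) R' x) ≤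
        (1 / 2 ^ R.card) * ∑ R' ∈ R.powerset, chainProb A q (k + 1 + j) R' x := by
      split_ifs
      · rw [one_mul]
      · rw [zero_mul]; exact h0
    refine h1.trans ?_
    have hk0 : (0 : ℝ) < 1 / 2 ^ k := by positivity
    calc (1 / 2 ^ R.card : ℝ) * ∑ R' ∈ R.powerset, chainProb A q (k + 1 + j) R' x
        ≤ (1 / 2 ^ R.card : ℝ) * ∑ R' ∈ R.powerset, ∑ R'' ∈ R'.powerset,
            (1 / 2 ^ k : ℝ) ^ R''.card * (1 - 1 / 2 ^ k) ^ (R'.card - R''.card) *
              (if q ≤ dens A R'' x then 1 else 0) :=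
          mul_le_mul_of_nonneg_left (Finset.sum_le_sum (fun R' _ => ih R')) (by positivity)
      _ = (1 / 2 ^ R.card : ℝ) * ∑ R'' ∈ R.powerset, ∑ R' ∈ R.powerset.filter (fun R' => R'' ⊆ R'),
            (1 / 2 ^ k : ℝ) ^ R''.card * (1 - 1 / 2 ^ k) ^ (R'.card - R''.card) *
              (if q ≤ dens A R'' x then 1 else 0) := by
          congr 1
          refine Finset.sum_comm' (fun R' R'' => ?_)
          simp only [mem_powerset, mem_filter]
          constructor
          · rintro ⟨h1, h2⟩; exact ⟨⟨h1, h2⟩, h2.trans h1⟩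
          · rintro ⟨⟨h1, h2⟩, _⟩; exact ⟨h1, h2⟩
      _ = ∑ R'' ∈ R.powerset, (1 / 2 ^ (k + 1) : ℝ) ^ R''.card *
            (1 - 1 / 2 ^ (k + 1)) ^ (R.card - R''.card) *
            (if q ≤ dens A R'' x then 1 else 0) := by
          rw [Finset.mul_sum]
          refine Finset.sum_congr rfl (fun R'' hR'' => ?_)
          rw [mem_powerset] at hR''
          have h2 : ∑ R' ∈ R.powerset.filter (fun R' => R'' ⊆ R'),
              (1 / 2 ^ k : ℝ) ^ R''.card * (1 - 1 / 2 ^ k) ^ (R'.card - R''.card) *
              (if q ≤ dens A R'' x then 1 else 0) =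
              (1 / 2 ^ k : ℝ) ^ R''.card * (if q ≤ dens A R'' x then 1 else 0) *
                ((1 + (1 - 1 / 2 ^ k)) ^ (R.card - R''.card)) := by
            rw [← sum_between R R'' hR'', Finset.mul_sum]
            refine Finset.sum_congr rfl (fun R' _ => ?_)
            ring
          rw [h2]
          have hc : R.card = R''.card + (R.card - R''.card) := by
            have := Finset.card_le_card hR''
            omega
          set d := R.card - R''.card with hd
          rw [hc]
          have e1 : (1 / 2 ^ (k + 1) : ℝ) = (1 / 2 ^ k) * (1 / 2) := by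
            rw [pow_succ]; field_simp
          have e2 : (1 - 1 / 2 ^ (k + 1) : ℝ) = (1 + (1 - 1 / 2 ^ k)) * (1 / 2) := by
            rw [e1]; ring
          rw [e2, e1, mul_pow, mul_pow, pow_add, one_div_pow, one_div_pow, one_div_pow]
          field_simp

/-- the marginal of `R_k` -/
theorem chain_marginal {n : ℕ} (A : Finset (Cube n)) (q : ℝ) (K k : ℕ) (hk : k < K) (x : Cube n) :
    chainProb A q K univ x ≤
      ∑ R : Finset (Fin n), wt n (1 / 2 ^ k) R * (if q ≤ dens A R x then 1 else 0) := by
  obtain ⟨j, rfl⟩ : ∃ j, K = k + 1 + j := ⟨K - (k + 1), by omega⟩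
  refine (chain_aux A q x j k univ).trans (le_of_eq ?_)
  rw [Finset.powerset_univ]
  refine Finset.sum_congr rfl (fun R _ => ?_)
  rw [wt, Finset.card_univ, Fintype.card_fin]

end Pool.Agent.Lib.MP_52661b_pr
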