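import Pool.Agent.Lib.MP_52661b_pr.Defs

set_option autoImplicit false

namespace Pool.Agent.Lib.MP_52661b_pr

open Finset

/-- the upper neighbour is in `A` -/
theorem sb_upd_true {n : ℕ} {A : Finset (Cube n)} (hA : IsUpperSet (A : Set (Cube n))) (i : Fin n)
    {x : Cube n} (h : Function.update x i false ∈ A) : Function.update x i true ∈ A := by
  have hle : Function.update x i false ≤ Function.update x i true := by
    intro j
    by_cases hj : j = i
    · subst hj; simp
    · simp [Function.update_of_ne hj]
  exact hA hle h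

theorem sb_cases {n : ℕ} (i : Fin n) (x : Cube n) :
    x = Function.update x i false ∨ x = Function.update x i true := by
  cases h : x i
  · left; rw [← h, Function.update_eq_self]
  · right; rw [← h, Function.update_eq_self]

/-- pairing: if `ψ` has nonnegative sum over every pair `{x, x^i}` of `A` and is nonnegative at blocked points
then its sum over `A` is nonnegative -/
theorem pairing {n : ℕ} {A : Finset (Cube n)} (hA : IsUpperSet (A : Set (Cube n))) (i : Fin n)
    (ψ : Cube n → ℝ)
    (h1 : ∀ x ∈ A, Function.update x i false ∉ A → 0 ≤ ψ x)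
    (h2 : ∀ x ∈ A, Function.update x i false ∈ A →
      0 ≤ ψ (Function.update x i false) + ψ (Function.update x i true)) :
    0 ≤ ∑ x ∈ A, ψ x := by
  classical
  rw [← Finset.sum_filter_add_sum_filter_not A (fun x => Function.update x i false ∈ A)]
  refine add_nonneg ?_ (Finset.sum_nonneg fun x hx => ?_)
  · set F := A.filter (fun x => Function.update x i false ∈ A) with hF
    have hinv : ∀ x : Cube n, flip (flip x i) i = x := by
      intro x
      unfold flip
      simp
    have hupd : ∀ x : Cube n, ∀ b, Function.update (flip x i) i b = Function.update x i b := by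
      intro x b
      unfold flip
      simp
    have hmem : ∀ x ∈ F, flip x i ∈ F := by
      intro x hx
      rw [hF, Finset.mem_filter] at hx ⊢
      refine ⟨?_, by rw [hupd]; exact hx.2⟩
      rcases sb_cases i (flip x i) with h | h
      · rw [h, hupd]; exact hx.2
      · rw [h, hupd]; exact sb_upd_true hA i hx.2
    have hs : ∑ x ∈ F, ψ (flip x i) = ∑ x ∈ F, ψ x :=
      Finset.sum_nbij' (fun x => flip x i) (fun x => flip x i) hmem hmem
        (fun x _ => hinv x) (fun x _ => hinv x) (fun x _ => rfl)
    have h3 : 0 ≤ ∑ x ∈ F, (ψ x + ψ (flip x i)) := by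
      refine Finset.sum_nonneg fun x hx => ?_
      rw [hF, Finset.mem_filter] at hx
      have h4 := h2 x hx.1 hx.2
      cases hxi : x i
      · have e1 : Function.update x i false = x := by rw [← hxi, Function.update_eq_self]
        have e2 : Function.update x i true = flip x i := by unfold flip; rw [hxi]; rfl
        rwa [e1, e2] at h4
      · have e1 : Function.update x i true = x := by rw [← hxi, Function.update_eq_self]
        have e2 : Function.update x i false = flip x i := by unfold flip; rw [hxi]; rfl
        rw [e1, e2] at h4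
        linarith
    rw [Finset.sum_add_distrib, hs] at h3
    linarith
  · rw [Finset.mem_filter] at hx
    exact h1 x hx.1 hx.2

theorem sb_eu_upd {n : ℕ} {A : Finset (Cube n)} (i : Fin n) (f : Cube n → ℝ) (x : Cube n) (b : Bool)
    (h : Function.update x i false ∈ A) : eu A i f (Function.update x i b) =
      (f (Function.update x i false) + f (Function.update x i true)) / 2 := by
  unfold eu
  simp [h]

theorem eu_symm {n : ℕ} {A : Finset (Cube n)} (hA : IsUpperSet (A : Set (Cube n))) (i : Fin n)
    (f g : Cube n → ℝ) : ∑ x ∈ A, eu A i f x * g x = ∑ x ∈ A, f x * eu A i g x := by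
  have h : ∀ f g : Cube n → ℝ, 0 ≤ ∑ x ∈ A, (eu A i f x * g x - f x * eu A i g x) := by
    intro f g
    refine pairing hA i _ ?_ ?_
    · intro x _ hx
      simp [eu, hx]
    · intro x _ hx
      rw [sb_eu_upd i f x _ hx, sb_eu_upd i g x _ hx, sb_eu_upd i f x _ hx, sb_eu_upd i g x _ hx]
      apply le_of_eq
      ring
  have h1 := h f g
  have h2 := h g f
  rw [Finset.sum_sub_distrib] at h1 h2
  have e1 : ∑ x ∈ A, eu A i g x * f x = ∑ x ∈ A, f x * eu A i g x :=
    Finset.sum_congr rfl fun x _ => mul_comm _ _
  have e2 : ∑ x ∈ A, g x * eu A i f x = ∑ x ∈ A, eu A i f x * g x :=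
    Finset.sum_congr rfl fun x _ => mul_comm _ _
  rw [e1, e2] at h2
  linarith

theorem eu_idem {n : ℕ} {A : Finset (Cube n)} (i : Fin n)
    (f : Cube n → ℝ) (x : Cube n) : eu A i (eu A i f) x = eu A i f x := by
  by_cases h : Function.update x i false ∈ A
  · rw [eu, if_pos h, sb_eu_upd i f x _ h, sb_eu_upd i f x _ h, eu, if_pos h]
    ring
  · rw [eu, if_neg h]

theorem step_symm {n : ℕ} {A : Finset (Cube n)} (hA : IsUpperSet (A : Set (Cube n)))
    (f g : Cube n → ℝ) : ∑ x ∈ A, step A f x * g x = ∑ x ∈ A, f x * step A g x := by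
  unfold step
  have e1 : ∀ x, 1 / (n : ℝ) * (∑ i, eu A i f x) * g x = 1 / (n : ℝ) * ∑ i, eu A i f x * g x := by
    intro x; rw [mul_assoc, Finset.sum_mul]
  have e2 : ∀ x, f x * (1 / (n : ℝ) * ∑ i, eu A i g x) = 1 / (n : ℝ) * ∑ i, f x * eu A i g x := by
    intro x; rw [← mul_assoc, mul_comm (f x), mul_assoc, Finset.mul_sum]
  simp_rw [e1, e2]
  rw [← Finset.mul_sum, ← Finset.mul_sum, Finset.sum_comm, Finset.sum_comm (s := A)]
  congr 1
  exact Finset.sum_congr rfl fun i _ => eu_symm hA i f g

theorem step_sum {n : ℕ} (hn : 0 < n) {A : Finset (Cube n)} (hA : IsUpperSet (A : Set (Cube n)))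
    (f : Cube n → ℝ) : ∑ x ∈ A, step A f x = ∑ x ∈ A, f x := by
  have h := step_symm hA f (fun _ => 1)
  have h1 : ∀ x, step A (fun _ => (1 : ℝ)) x = 1 := by
    intro x
    have : ∀ i, eu A i (fun _ => (1 : ℝ)) x = 1 := by
      intro i
      unfold eu
      split_ifs <;> norm_num
    unfold step
    simp_rw [this]
    have hn' : (n : ℝ) ≠ 0 := by positivity
    simp [hn']
  simp_rw [h1, mul_one] at h
  exact h

theorem step_iter_symm {n : ℕ} {A : Finset (Cube n)} (hA : IsUpperSet (A : Set (Cube n)))
    (t : ℕ) (f g : Cube n → ℝ) :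
    ∑ x ∈ A, (step A)^[t] f x * g x = ∑ x ∈ A, f x * (step A)^[t] g x := by
  induction t generalizing f g with
  | zero => rfl
  | succ t ih =>
    rw [Function.iterate_succ_apply, Function.iterate_succ_apply', ih, step_symm hA]

theorem step_nonneg {n : ℕ} {A : Finset (Cube n)} (f : Cube n → ℝ) (hf : ∀ x, 0 ≤ f x)
    (x : Cube n) : 0 ≤ step A f x := by
  unfold step
  refine mul_nonneg (by positivity) (Finset.sum_nonneg fun i _ => ?_)
  unfold eu
  split_ifs
  · have := hf (Function.update x i false)
    have := hf (Function.update x i true)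
    linarith
  · exact hf x

theorem sb_step_mono {n : ℕ} {A : Finset (Cube n)} (hA : IsUpperSet (A : Set (Cube n)))
    (f g : Cube n → ℝ) (hfg : ∀ x ∈ A, f x ≤ g x) : ∀ x ∈ A, step A f x ≤ step A g x := by
  intro x hx
  unfold step
  refine mul_le_mul_of_nonneg_left (Finset.sum_le_sum fun i _ => ?_) (by positivity)
  unfold eu
  split_ifs with h
  · have := hfg _ h
    have := hfg _ (sb_upd_true hA i h)
    linarith
  · exact hfg x hx

/-- monotonicity of the iterates (only values on `A` matter for points of `A`) -/
theorem step_iter_mono {n : ℕ} {A : Finset (Cube n)} (hA : IsUpperSet (A : Set (Cube n)))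
    (t : ℕ) (f g : Cube n → ℝ) (hfg : ∀ x ∈ A, f x ≤ g x) :
    ∀ x ∈ A, (step A)^[t] f x ≤ (step A)^[t] g x := by
  induction t with
  | zero => exact hfg
  | succ t ih =>
    intro x hx
    rw [Function.iterate_succ_apply', Function.iterate_succ_apply']
    exact sb_step_mono hA _ _ ih x hx

end Pool.Agent.Lib.MP_52661b_pr
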