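import Pool.Agent.Lib.MP_52661b_pr.Poincare
import Pool.Agent.Lib.MP_52661b_pr.StepBasic

set_option autoImplicit false

namespace Pool.Agent.Lib.MP_52661b_pr

open Finset

private lemma ct_eu_sq {n : ℕ} {A : Finset (Cube n)} (hA : IsUpperSet (A : Set (Cube n)))
    (i : Fin n) (h : Cube n → ℝ) (κ : ℝ) :
    ∑ x ∈ A, (eu A i h x - κ) ^ 2 =
      ∑ x ∈ A, (h x - κ) ^ 2 - ∑ x ∈ A, (h x - eu A i h x) ^ 2 := by
  have h1 : ∑ x ∈ A, eu A i h x * eu A i h x = ∑ x ∈ A, h x * eu A i h x := by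
    rw [eu_symm hA i h (eu A i h)]
    refine Finset.sum_congr rfl fun x _ => ?_
    rw [eu_idem]
  have h2 : ∑ x ∈ A, eu A i h x = ∑ x ∈ A, h x := by
    have := eu_symm hA i h (fun _ => 1)
    have h3 : ∀ x : Cube n, eu A i (fun _ => (1 : ℝ)) x = 1 := by
      intro x
      unfold eu
      split_ifs <;> norm_num
    simpa [h3] using this
  have e1 : ∑ x ∈ A, (eu A i h x - κ) ^ 2 = ∑ x ∈ A, eu A i h x * eu A i h x
      - 2 * κ * ∑ x ∈ A, eu A i h x + ∑ x ∈ A, κ ^ 2 := by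
    rw [Finset.mul_sum, ← Finset.sum_sub_distrib, ← Finset.sum_add_distrib]
    exact Finset.sum_congr rfl fun x _ => by ring
  have e2 : ∑ x ∈ A, (h x - κ) ^ 2 = ∑ x ∈ A, h x * h x
      - 2 * κ * ∑ x ∈ A, h x + ∑ x ∈ A, κ ^ 2 := by
    rw [Finset.mul_sum, ← Finset.sum_sub_distrib, ← Finset.sum_add_distrib]
    exact Finset.sum_congr rfl fun x _ => by ring
  have e3 : ∑ x ∈ A, (h x - eu A i h x) ^ 2 = ∑ x ∈ A, h x * h x
      - 2 * ∑ x ∈ A, h x * eu A i h x + ∑ x ∈ A, eu A i h x * eu A i h x := by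
    rw [Finset.mul_sum, ← Finset.sum_sub_distrib, ← Finset.sum_add_distrib]
    exact Finset.sum_congr rfl fun x _ => by ring
  rw [e1, e2, e3, h1, h2]
  ring

private lemma ct_one {n : ℕ} (hn : 0 < n) {A : Finset (Cube n)}
    (hA : IsUpperSet (A : Set (Cube n)))
    (hne : A.Nonempty) (h : Cube n → ℝ) (κ : ℝ) (hκ : ∑ x ∈ A, h x = κ * (A.card : ℝ)) :
    ∑ x ∈ A, (step A h x - κ) ^ 2 ≤
      (1 - (cubeMeasure A) ^ 2 / (8 * n)) * ∑ x ∈ A, (h x - κ) ^ 2 := by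
  have hn' : (0 : ℝ) < n := by exact_mod_cast hn
  have hc : (0 : ℝ) < A.card := by exact_mod_cast hne.card_pos
  have hα : 0 < cubeMeasure A := by
    unfold cubeMeasure
    positivity
  -- Jensen
  have h1 : ∀ x ∈ A, (step A h x - κ) ^ 2 ≤ (1 / (n : ℝ)) * ∑ i : Fin n, (eu A i h x - κ) ^ 2 := by
    intro x _
    have h2 : step A h x - κ = (1 / (n : ℝ)) * ∑ i : Fin n, (eu A i h x - κ) := by
      unfold step
      rw [Finset.sum_sub_distrib, Finset.sum_const, Finset.card_univ, Fintype.card_fin,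
        nsmul_eq_mul]
      field_simp
    have h3 := sq_sum_le_card_mul_sum_sq (s := (Finset.univ : Finset (Fin n)))
      (f := fun i => eu A i h x - κ)
    rw [Finset.card_univ, Fintype.card_fin] at h3
    rw [h2, mul_pow]
    calc (1 / (n : ℝ)) ^ 2 * (∑ i : Fin n, (eu A i h x - κ)) ^ 2
        ≤ (1 / (n : ℝ)) ^ 2 * (n * ∑ i : Fin n, (eu A i h x - κ) ^ 2) :=
          mul_le_mul_of_nonneg_left h3 (by positivity)
      _ = (1 / (n : ℝ)) * ∑ i : Fin n, (eu A i h x - κ) ^ 2 := by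
          field_simp
  have h4 : ∑ x ∈ A, (step A h x - κ) ^ 2 ≤
      ∑ x ∈ A, (h x - κ) ^ 2 - (1 / (n : ℝ)) * energy A h := by
    calc ∑ x ∈ A, (step A h x - κ) ^ 2
        ≤ ∑ x ∈ A, (1 / (n : ℝ)) * ∑ i : Fin n, (eu A i h x - κ) ^ 2 := Finset.sum_le_sum h1
      _ = (1 / (n : ℝ)) * ∑ i : Fin n, ∑ x ∈ A, (eu A i h x - κ) ^ 2 := by
          rw [← Finset.mul_sum, Finset.sum_comm]
      _ = (1 / (n : ℝ)) * ∑ i : Fin n, (∑ x ∈ A, (h x - κ) ^ 2 -
            ∑ x ∈ A, (h x - eu A i h x) ^ 2) := by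
          congr 1
          exact Finset.sum_congr rfl fun i _ => ct_eu_sq hA i h κ
      _ = _ := by
          rw [Finset.sum_sub_distrib, Finset.sum_const, Finset.card_univ, Fintype.card_fin,
            nsmul_eq_mul]
          unfold energy
          field_simp
  have hfib : ∀ x : Cube n, fib A Finset.univ x = A := by
    intro x
    unfold fib
    apply Finset.filter_true_of_mem
    intro y _ j hj
    exact absurd (Finset.mem_univ j) hj
  obtain ⟨x0, hx0⟩ := hne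
  have h5 := poincare hA h Finset.univ x0 (by rw [hfib]; exact ⟨x0, hx0⟩)
  have hd : dens A Finset.univ x0 = cubeMeasure A := by
    unfold dens cubeMeasure
    rw [hfib, Finset.card_univ, Fintype.card_fin]
  rw [hfib, hd] at h5
  have h6 : ∑ y ∈ A, h y ^ 2 - (∑ y ∈ A, h y) ^ 2 / (A.card : ℝ) = ∑ x ∈ A, (h x - κ) ^ 2 := by
    have e2 : ∑ x ∈ A, (h x - κ) ^ 2 = ∑ x ∈ A, h x ^ 2
        - 2 * κ * ∑ x ∈ A, h x + ∑ x ∈ A, κ ^ 2 := by
      rw [Finset.mul_sum, ← Finset.sum_sub_distrib, ← Finset.sum_add_distrib]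
      exact Finset.sum_congr rfl fun x _ => by ring
    rw [e2, hκ, Finset.sum_const, nsmul_eq_mul]
    field_simp
    ring
  rw [h6] at h5
  have h7 : (cubeMeasure A) ^ 2 / 8 * ∑ x ∈ A, (h x - κ) ^ 2 ≤ energy A h := by
    have h8 : ∑ i : Fin n, ∑ y ∈ A, (h y - eu A i h y) ^ 2 = energy A h := rfl
    rw [h8] at h5
    calc (cubeMeasure A) ^ 2 / 8 * ∑ x ∈ A, (h x - κ) ^ 2
        ≤ (cubeMeasure A) ^ 2 / 8 * (8 / (cubeMeasure A) ^ 2 * energy A h) :=
          mul_le_mul_of_nonneg_left h5 (by positivity)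
      _ = energy A h := by
          field_simp
  refine h4.trans ?_
  have h9 : (1 / (n : ℝ)) * ((cubeMeasure A) ^ 2 / 8 * ∑ x ∈ A, (h x - κ) ^ 2) ≤
      (1 / (n : ℝ)) * energy A h := mul_le_mul_of_nonneg_left h7 (by positivity)
  have h10 : (1 - (cubeMeasure A) ^ 2 / (8 * n)) * ∑ x ∈ A, (h x - κ) ^ 2 =
      ∑ x ∈ A, (h x - κ) ^ 2 - (1 / (n : ℝ)) * ((cubeMeasure A) ^ 2 / 8 *
        ∑ x ∈ A, (h x - κ) ^ 2) := by
    field_simp
  rw [h10]
  linarith

theorem contract {n : ℕ} (hn : 0 < n) {A : Finset (Cube n)} (hA : IsUpperSet (A : Set (Cube n)))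
    (hne : A.Nonempty) (h : Cube n → ℝ) (κ : ℝ) (hκ : ∑ x ∈ A, h x = κ * (A.card : ℝ)) (s : ℕ) :
    ∑ x ∈ A, ((step A)^[s] h x - κ) ^ 2 ≤
      (1 - (cubeMeasure A) ^ 2 / (8 * n)) ^ s * ∑ x ∈ A, (h x - κ) ^ 2 := by
  have hn' : (1 : ℝ) ≤ n := by exact_mod_cast hn
  have hα0 : 0 ≤ cubeMeasure A := by
    unfold cubeMeasure
    positivity
  have hα1 : cubeMeasure A ≤ 1 := by
    unfold cubeMeasure
    rw [div_le_one (by positivity)]
    have h1 : A.card ≤ Fintype.card (Cube n) := Finset.card_le_univ A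
    have h2 : Fintype.card (Cube n) = 2 ^ n := by simp [Cube]
    rw [h2] at h1
    exact_mod_cast h1
  have hr : 0 ≤ 1 - (cubeMeasure A) ^ 2 / (8 * n) := by
    have h1 : (cubeMeasure A) ^ 2 ≤ 1 := pow_le_one₀ hα0 hα1
    have h2 : (cubeMeasure A) ^ 2 / (8 * n) ≤ 1 := by
      rw [div_le_one (by positivity)]
      linarith
    linarith
  have hsum : ∀ s : ℕ, ∑ x ∈ A, (step A)^[s] h x = κ * (A.card : ℝ) := by
    intro s
    induction s with
    | zero => simpa using hκ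
    | succ s ih =>
      rw [Function.iterate_succ_apply', step_sum hn hA, ih]
  induction s with
  | zero => simp
  | succ s ih =>
    rw [Function.iterate_succ_apply']
    refine (ct_one hn hA hne _ κ (hsum s)).trans ?_
    rw [pow_succ' (1 - (cubeMeasure A) ^ 2 / (8 * (n : ℝ))) s, mul_assoc]
    exact mul_le_mul_of_nonneg_left ih hr

end Pool.Agent.Lib.MP_52661b_pr
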