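import Mathlib

set_option autoImplicit false

namespace Pool.Agent.Lib.MP_52661b_pr

open Finset

noncomputable section

/-- flip coordinate `i` of `x` -/
def flip {n : ℕ} (x : Fin n → Bool) (i : Fin n) : Fin n → Bool := Function.update x i (!(x i))

/-- the state reached from `x` when coordinate `i` is proposed: the flip is censored if it leaves `A` -/
def propose {n : ℕ} (A : Finset (Fin n → Bool)) (x : A) (i : Fin n) : A :=
  if h : flip x.1 i ∈ A then ⟨flip x.1 i, h⟩ else x

/-- transition matrix of the lazy censored walk on `A` -/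
def censoredWalk {n : ℕ} (A : Finset (Fin n → Bool)) : Matrix A A ℝ := fun x y =>
  (1 / 2) * (if y = x then 1 else 0) +
    (1 / 2) * ∑ i : Fin n, (1 / (n : ℝ)) * (if y = propose A x i then 1 else 0)

/-- total variation distance between the law after `t` steps from `x` and the uniform law on `A` -/
def tvDist {n : ℕ} (A : Finset (Fin n → Bool)) (t : ℕ) (x : A) : ℝ :=
  (1 / 2) * ∑ y : A, |((censoredWalk A) ^ t) x y - 1 / (A.card : ℝ)|

/-- after `t` steps the walk is mixed (from every starting state) -/
def IsMixed {n : ℕ} (A : Finset (Fin n → Bool)) (t : ℕ) : Prop := ∀ x : A, tvDist A t x ≤ 1 / 4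

/-- uniform measure of `A` in the cube -/
def cubeMeasure {n : ℕ} (A : Finset (Fin n → Bool)) : ℝ := (A.card : ℝ) / 2 ^ n

abbrev Cube (n : ℕ) := Fin n → Bool

/-- heat bath update of coordinate `i` -/
def eu {n : ℕ} (A : Finset (Cube n)) (i : Fin n) (f : Cube n → ℝ) (x : Cube n) : ℝ :=
  if Function.update x i false ∈ A then
    (f (Function.update x i false) + f (Function.update x i true)) / 2 else f x

/-- one step of the walk acting on functions -/
def step {n : ℕ} (A : Finset (Cube n)) (f : Cube n → ℝ) (x : Cube n) : ℝ :=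
  (1 / (n : ℝ)) * ∑ i : Fin n, eu A i f x

/-- energy, summed over `A` (not normalised) -/
def energy {n : ℕ} (A : Finset (Cube n)) (f : Cube n → ℝ) : ℝ :=
  ∑ i : Fin n, ∑ x ∈ A, (f x - eu A i f x) ^ 2

/-- points of `A` that agree with `x` off `R` -/
def fib {n : ℕ} (A : Finset (Cube n)) (R : Finset (Fin n)) (x : Cube n) : Finset (Cube n) :=
  A.filter (fun y => ∀ j, j ∉ R → y j = x j)

/-- density of `A` in the subcube through `x` with free coordinates `R` -/
def dens {n : ℕ} (A : Finset (Cube n)) (R : Finset (Fin n)) (x : Cube n) : ℝ :=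
  ((fib A R x).card : ℝ) / 2 ^ R.card

/-- weight of the random set `R` containing every coordinate independently with probability `p` -/
def wt (n : ℕ) (p : ℝ) (R : Finset (Fin n)) : ℝ := p ^ R.card * (1 - p) ^ (n - R.card)

/-- mean of `f` over the fibre -/
def cmean {n : ℕ} (A : Finset (Cube n)) (R : Finset (Fin n)) (f : Cube n → ℝ) (x : Cube n) : ℝ :=
  (∑ y ∈ fib A R x, f y) / ((fib A R x).card : ℝ)

/-- mean of `F` over the subcube through `x` with free coordinates `R` -/
def favg {n : ℕ} (R : Finset (Fin n)) (F : Cube n → ℝ) (x : Cube n) : ℝ :=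
  (∑ y ∈ fib univ R x, F y) / 2 ^ R.card

/-- noise kernel, survival probability `s` per coordinate -/
def ker {n : ℕ} (s : ℝ) (x y : Cube n) : ℝ :=
  ∏ i : Fin n, (if x i = y i then (1 + s) / 2 else (1 - s) / 2)

/-- noise operator -/
def noise {n : ℕ} (s : ℝ) (F : Cube n → ℝ) (x : Cube n) : ℝ := ∑ y, ker s x y * F y

/-- the function `F_k` clamped between levels `a` and `b` -/
def clp (a b u : ℝ) : ℝ := max a (min u b)

/-- truncated entropy function: second derivative `1/u` on `[a,b]`, zero elsewhere -/
def phi (a b u : ℝ) : ℝ := u * Real.log (clp a b u / a) - clp a b u + a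

/-- truncated square root -/
def rt (a b u : ℝ) : ℝ := √(clp a b u) - √a

/-- levels -/
def lev (L : ℝ) (k : ℕ) : ℝ := L ^ (2 * 2 ^ (k + 1))

/-- extension of `f` by zero -/
def ext {n : ℕ} (A : Finset (Cube n)) (f : Cube n → ℝ) (x : Cube n) : ℝ := if x ∈ A then f x else 0

/-- probability that along the chain `R_0 = R`, `R_{k+1}` = uniform subset of `R_k` all of the first
`j` densities are at least `q` -/
def chainProb {n : ℕ} (A : Finset (Cube n)) (q : ℝ) : ℕ → Finset (Fin n) → Cube n → ℝ
  | 0, _, _ => 1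
  | j + 1, R, x => (if q ≤ dens A R x then 1 else 0) *
      ((1 / 2 ^ R.card) * ∑ R' ∈ R.powerset, chainProb A q j R' x)

/-- the potential (not normalised) -/
def pot {n : ℕ} (A : Finset (Cube n)) (L : ℝ) (K : ℕ) (f : Cube n → ℝ) : ℝ :=
  ∑ k ∈ range K, (1 / 2 ^ (k + 1)) * ∑ x ∈ A, phi (lev L k) (lev L (k + 1)) (f x)

end

end Pool.Agent.Lib.MP_52661b_pr
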