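import Pool.Agent.Lib.MP_52661b_pr.Defs

set_option autoImplicit false

namespace Pool.Agent.Lib.MP_52661b_pr

open Finset

private lemma lev_sq (L : ℝ) (k : ℕ) : lev L (k + 1) = lev L k ^ 2 := by
  unfold lev
  rw [← pow_mul]
  congr 1
  rw [pow_succ 2 (k + 1)]
  ring

private lemma lev_ge (L : ℝ) (hL : 2 ≤ L) (k : ℕ) : 16 ≤ lev L k := by
  induction k with
  | zero =>
    unfold lev
    calc (16 : ℝ) = 2 ^ (2 * 2 ^ (0 + 1)) := by norm_num
      _ ≤ L ^ (2 * 2 ^ (0 + 1)) := pow_le_pow_left₀ (by norm_num) hL _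
  | succ k ih =>
    rw [lev_sq]
    nlinarith

theorem levels_lower (L : ℝ) (hL : 2 ≤ L) (K : ℕ) (u : ℝ) (h1 : 4 * lev L 0 ≤ u)
    (h2 : u ≤ lev L K) :
    u / 16 ≤ ∑ k ∈ range K, (rt (lev L k) (lev L (k + 1)) u) ^ 2 := by
  classical
  have h0 := lev_ge L hL 0
  have hu : 0 < u := by linarith
  suffices h : ∃ k ∈ range K, u / 16 ≤ (rt (lev L k) (lev L (k + 1)) u) ^ 2 by
    obtain ⟨k, hk, hk2⟩ := h
    exact hk2.trans (Finset.single_le_sum
      (f := fun k => (rt (lev L k) (lev L (k + 1)) u) ^ 2) (fun _ _ => sq_nonneg _) hk)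
  have hex : ∃ j, u ≤ lev L j := ⟨K, h2⟩
  have hj1 := Nat.find_spec hex
  have hjK : Nat.find hex ≤ K := Nat.find_min' hex h2
  have hj0 : Nat.find hex ≠ 0 := by
    intro h
    rw [h] at hj1
    linarith
  obtain ⟨k, hk⟩ : ∃ k, Nat.find hex = k + 1 := ⟨Nat.find hex - 1, by omega⟩
  have hk1 : lev L k < u := by
    by_contra hcon
    push Not at hcon
    exact Nat.find_min hex (show k < Nat.find hex by omega) hcon
  rw [hk] at hj1
  by_cases h4 : 4 * lev L k ≤ u
  · refine ⟨k, mem_range.mpr (by omega), ?_⟩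
    unfold rt clp
    rw [min_eq_left hj1, max_eq_right hk1.le]
    have h5 : √(lev L k) ≤ √u / 2 := by
      have h6 : lev L k ≤ u / 2 ^ 2 := by linarith
      have h7 := Real.sqrt_le_sqrt h6
      rw [Real.sqrt_div hu.le, Real.sqrt_sq (by norm_num)] at h7
      exact h7
    have h8 : √u / 2 ≤ √u - √(lev L k) := by linarith
    have h9 : 0 ≤ √u / 2 := by positivity
    have h10 := pow_le_pow_left₀ h9 h8 2
    have h11 : (√u / 2) ^ 2 = u / 4 := by
      rw [div_pow, Real.sq_sqrt hu.le]; norm_num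
    linarith
  · push Not at h4
    have hk0 : k ≠ 0 := by
      rintro rfl
      linarith
    obtain ⟨m, rfl⟩ : ∃ m, k = m + 1 := ⟨k - 1, by omega⟩
    refine ⟨m, mem_range.mpr (by omega), ?_⟩
    have hm := lev_ge L hL m
    have hsq := lev_sq L m
    unfold rt clp
    rw [min_eq_right hk1.le, max_eq_right (by rw [hsq]; nlinarith)]
    rw [hsq] at h4 ⊢
    rw [Real.sqrt_sq (by linarith)]
    have h5 : √(lev L m) ≤ lev L m / 4 := by
      rw [Real.sqrt_le_left (by linarith)]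
      nlinarith
    nlinarith

end Pool.Agent.Lib.MP_52661b_pr
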