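import Pool.Agent.Lib.MP_52661b_pr.Defs

set_option autoImplicit false

namespace Pool.Agent.Lib.MP_52661b_pr

open Finset

theorem lev_pos (L : ℝ) (hL : 1 ≤ L) (k : ℕ) : 1 ≤ lev L k := one_le_pow₀ hL

theorem lev_le_succ (L : ℝ) (hL : 1 ≤ L) (k : ℕ) : lev L k ≤ lev L (k + 1) := by
  unfold lev
  apply pow_le_pow_right₀ hL
  apply Nat.mul_le_mul_left
  exact Nat.pow_le_pow_right (by norm_num) (by omega)

theorem rt_nonneg (a b u : ℝ) (ha : 0 ≤ a) (hab : a ≤ b) : 0 ≤ rt a b u := by
  unfold rt clp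
  exact sub_nonneg.mpr (Real.sqrt_le_sqrt (le_max_left _ _))

theorem rt_eq_zero (a b u : ℝ) (ha : 0 ≤ a) (hab : a ≤ b) (hu : u ≤ a) : rt a b u = 0 := by
  unfold rt clp
  rw [min_eq_left (hu.trans hab), max_eq_left hu, sub_self]

private lemma rt_add (a b c u : ℝ) (hab : a ≤ b) (hbc : b ≤ c) :
    rt a b u + rt b c u = rt a c u := by
  unfold rt clp
  rcases le_total u b with h | h
  · rw [min_eq_left h, min_eq_left (h.trans hbc), max_eq_left h]
    ring
  · rw [min_eq_right h, max_eq_right hab, max_eq_right (le_min h hbc),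
      max_eq_right (hab.trans (le_min h hbc))]
    ring

private lemma lev_mono (L : ℝ) (hL : 1 ≤ L) (K : ℕ) : lev L 0 ≤ lev L K := by
  induction K with
  | zero => exact le_rfl
  | succ K ih => exact ih.trans (lev_le_succ L hL K)

theorem levels_upper (L : ℝ) (hL : 2 ≤ L) (K : ℕ) (u : ℝ) (hu : 0 ≤ u) :
    ∑ k ∈ range K, (rt (lev L k) (lev L (k + 1)) u) ^ 2 ≤ u := by
  have hL1 : 1 ≤ L := by linarith
  have h0 : 1 ≤ lev L 0 := lev_pos L hL1 0
  have key : ∀ K : ℕ, ∑ k ∈ range K, (rt (lev L k) (lev L (k + 1)) u) ^ 2 ≤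
      (rt (lev L 0) (lev L K) u) ^ 2 := by
    intro K
    induction K with
    | zero => simp only [range_zero, sum_empty]; positivity
    | succ K ih =>
      rw [sum_range_succ, ← rt_add (lev L 0) (lev L K) (lev L (K + 1)) u (lev_mono L hL1 K)
        (lev_le_succ L hL1 K)]
      have h1 := rt_nonneg (lev L 0) (lev L K) u (by linarith) (lev_mono L hL1 K)
      have h2 := rt_nonneg (lev L K) (lev L (K + 1)) u (by linarith [lev_pos L hL1 K])
        (lev_le_succ L hL1 K)
      nlinarith [mul_nonneg h1 h2]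
  refine (key K).trans ?_
  rcases le_total u (lev L 0) with h | h
  · rw [rt_eq_zero _ _ _ (by linarith) (lev_mono L hL1 K) h]
    simpa using hu
  · have h1 := rt_nonneg (lev L 0) (lev L K) u (by linarith) (lev_mono L hL1 K)
    have h2 : rt (lev L 0) (lev L K) u ≤ √u := by
      unfold rt clp
      have h3 : √(max (lev L 0) (min u (lev L K))) ≤ √u :=
        Real.sqrt_le_sqrt (max_le h (min_le_left _ _))
      have h4 := Real.sqrt_nonneg (lev L 0)
      linarith
    calc (rt (lev L 0) (lev L K) u) ^ 2 ≤ (√u) ^ 2 := pow_le_pow_left₀ h1 h2 2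
      _ = u := Real.sq_sqrt hu

end Pool.Agent.Lib.MP_52661b_pr
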