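import Pool.Agent.Lib.MP_52661b_pr.Defs

set_option autoImplicit false

namespace Pool.Agent.Lib.MP_52661b_pr

open Finset

theorem pj_clp_mem (a b u : ℝ) (hab : a ≤ b) : a ≤ clp a b u ∧ clp a b u ≤ b := by
  unfold clp
  exact ⟨le_max_left _ _, max_le hab (min_le_right _ _)⟩

/-- `x log (x / c) ≥ x - c` -/
theorem pj_log (x c : ℝ) (hx : 0 < x) (hc : 0 < c) : x - c ≤ x * Real.log (x / c) := by
  have h1 : 1 - (x / c)⁻¹ ≤ Real.log (x / c) := Real.one_sub_inv_le_log_of_pos (by positivity)
  have h2 : x * (1 - (x / c)⁻¹) ≤ x * Real.log (x / c) := mul_le_mul_of_nonneg_left h1 hx.le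
  have h3 : x * (1 - (x / c)⁻¹) = x - c := by field_simp
  linarith

/-- the function is the supremum of affine functions -/
theorem pj_affine (a b c u : ℝ) (ha : 0 < a) (hac : a ≤ c) (hcb : c ≤ b)
    (hu : 0 ≤ u) : u * Real.log (c / a) - c + a ≤ phi a b u := by
  have hc : 0 < c := by linarith
  have hb : 0 < b := by linarith
  unfold phi
  have key : clp a b u - c ≤ u * Real.log (clp a b u / c) := by
    rcases le_total u a with h | h
    · have h1 : clp a b u = a := by
        unfold clp
        rw [min_eq_left (by linarith), max_eq_left h]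
      rw [h1]
      have h2 := pj_log a c ha hc
      have h3 : Real.log (a / c) ≤ 0 := Real.log_nonpos (by positivity) (by
        rw [div_le_one hc]; exact hac)
      nlinarith
    · rcases le_total u b with h' | h'
      · have h1 : clp a b u = u := by
          unfold clp
          rw [min_eq_left h', max_eq_right h]
        rw [h1]
        exact pj_log u c (by linarith) hc
      · have h1 : clp a b u = b := by
          unfold clp
          rw [min_eq_right h', max_eq_right (by linarith)]
        rw [h1]
        have h2 := pj_log b c hb hc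
        have h3 : 0 ≤ Real.log (b / c) := Real.log_nonneg (by
          rw [le_div_iff₀ hc]; linarith)
        nlinarith
  have hx : 0 < clp a b u := by have := (pj_clp_mem a b u (by linarith)).1; linarith
  have e1 : Real.log (clp a b u / a) = Real.log (clp a b u) - Real.log a :=
    Real.log_div hx.ne' ha.ne'
  have e2 : Real.log (c / a) = Real.log c - Real.log a := Real.log_div hc.ne' ha.ne'
  have e3 : Real.log (clp a b u / c) = Real.log (clp a b u) - Real.log c :=
    Real.log_div hx.ne' hc.ne'
  rw [e3] at key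
  rw [e1, e2]
  nlinarith

/-- Jensen -/
theorem phi_jensen {n : ℕ} (hn : 0 < n) (a b : ℝ) (ha : 0 < a) (hab : a ≤ b) (u : Fin n → ℝ)
    (hu : ∀ i, 0 ≤ u i) :
    phi a b ((1 / (n : ℝ)) * ∑ i, u i) ≤ (1 / (n : ℝ)) * ∑ i, phi a b (u i) := by
  have hn' : (0 : ℝ) < n := by exact_mod_cast hn
  obtain ⟨h1, h2⟩ := pj_clp_mem a b ((1 / (n : ℝ)) * ∑ i, u i) hab
  set c := clp a b ((1 / (n : ℝ)) * ∑ i, u i) with hc
  have e : phi a b ((1 / (n : ℝ)) * ∑ i, u i) =
      (1 / (n : ℝ)) * ∑ i, (u i * Real.log (c / a) - c + a) := by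
    rw [sum_add_distrib, sum_sub_distrib, ← sum_mul, sum_const, sum_const, card_univ,
      Fintype.card_fin, nsmul_eq_mul, nsmul_eq_mul]
    unfold phi
    rw [← hc]
    field_simp
  rw [e]
  exact mul_le_mul_of_nonneg_left (sum_le_sum fun i _ => pj_affine a b c (u i) ha h1 h2 (hu i))
    (by positivity)

end Pool.Agent.Lib.MP_52661b_pr
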