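import Pool.Agent.Lib.MP_52661b_pr.Phi
import Pool.Agent.Lib.MP_52661b_pr.PhiJensen
import Pool.Agent.Lib.MP_52661b_pr.StepBasic

set_option autoImplicit false

namespace Pool.Agent.Lib.MP_52661b_pr

open Finset

private lemma eu_upd {n : ℕ} {A : Finset (Cube n)} (i : Fin n) (f : Cube n → ℝ) (x : Cube n)
    (b : Bool) (hx : Function.update x i false ∈ A) :
    eu A i f (Function.update x i b) =
      (f (Function.update x i false) + f (Function.update x i true)) / 2 := by
  unfold eu
  rw [Function.update_idem, Function.update_idem, if_pos hx]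

private lemma eu_blocked {n : ℕ} {A : Finset (Cube n)} (i : Fin n) (f : Cube n → ℝ) (x : Cube n)
    (hx : Function.update x i false ∉ A) : eu A i f x = f x := by
  unfold eu
  rw [if_neg hx]

private lemma phi_eu {n : ℕ} {A : Finset (Cube n)} (hA : IsUpperSet (A : Set (Cube n)))
    (a b : ℝ) (ha : 0 < a) (hab : a ≤ b) (f : Cube n → ℝ) (hf : ∀ x, 0 ≤ f x) (i : Fin n) :
    ∑ x ∈ A, phi a b (eu A i f x) ≤ ∑ x ∈ A, phi a b (f x) -
      ∑ x ∈ A, (rt a b (f x) - eu A i (fun x => rt a b (f x)) x) ^ 2 := by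
  have h := pairing hA i (fun x => phi a b (f x) - phi a b (eu A i f x) -
    (rt a b (f x) - eu A i (fun x => rt a b (f x)) x) ^ 2) ?_ ?_
  · rw [Finset.sum_sub_distrib, Finset.sum_sub_distrib] at h
    linarith
  · intro x _ hxA
    rw [eu_blocked i f x hxA, eu_blocked i _ x hxA]
    simp
  · intro x _ hxA
    rw [eu_upd i f x false hxA, eu_upd i f x true hxA, eu_upd i _ x false hxA,
      eu_upd i _ x true hxA]
    have h1 := phi_defect a b (f (Function.update x i false)) (f (Function.update x i true))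
      ha hab (hf _) (hf _)
    nlinarith

theorem phi_step {n : ℕ} (hn : 0 < n) {A : Finset (Cube n)} (hA : IsUpperSet (A : Set (Cube n)))
    (a b : ℝ) (ha : 0 < a) (hab : a ≤ b) (f : Cube n → ℝ) (hf : ∀ x, 0 ≤ f x) :
    ∑ x ∈ A, phi a b (step A f x) ≤
      ∑ x ∈ A, phi a b (f x) - (1 / (n : ℝ)) * energy A (fun x => rt a b (f x)) := by
  have hn0 : (0 : ℝ) < n := by exact_mod_cast hn
  have heu : ∀ (i : Fin n) (x : Cube n), 0 ≤ eu A i f x := by
    intro i x
    unfold eu
    split_ifs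
    · have := hf (Function.update x i false)
      have := hf (Function.update x i true)
      linarith
    · exact hf x
  have h1 : ∑ x ∈ A, phi a b (step A f x) ≤
      ∑ x ∈ A, (1 / (n : ℝ)) * ∑ i, phi a b (eu A i f x) := by
    apply Finset.sum_le_sum
    intro x _
    exact phi_jensen hn a b ha hab (fun i => eu A i f x) (fun i => heu i x)
  have h2 : ∑ x ∈ A, (1 / (n : ℝ)) * ∑ i, phi a b (eu A i f x) =
      (1 / (n : ℝ)) * ∑ i, ∑ x ∈ A, phi a b (eu A i f x) := by
    rw [← Finset.mul_sum, Finset.sum_comm]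
  have h3 : ∑ i, ∑ x ∈ A, phi a b (eu A i f x) ≤
      ∑ _i : Fin n, ∑ x ∈ A, phi a b (f x) - energy A (fun x => rt a b (f x)) := by
    unfold energy
    rw [← Finset.sum_sub_distrib]
    exact Finset.sum_le_sum fun i _ => phi_eu hA a b ha hab f hf i
  have h4 : ∑ _i : Fin n, ∑ x ∈ A, phi a b (f x) = n * ∑ x ∈ A, phi a b (f x) := by
    rw [Finset.sum_const, Finset.card_univ, Fintype.card_fin, nsmul_eq_mul]
  rw [h4] at h3
  have h5 := mul_le_mul_of_nonneg_left h3 (show 0 ≤ 1 / (n : ℝ) by positivity)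
  rw [mul_sub, ← mul_assoc, one_div, inv_mul_cancel₀ hn0.ne', one_mul] at h5
  rw [h2, one_div] at h1
  rw [one_div]
  linarith

end Pool.Agent.Lib.MP_52661b_pr
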