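import Pool.Agent.Lib.MP_52661b_pr.Key
import Pool.Agent.Lib.MP_52661b_pr.OneStep
import Pool.Agent.Lib.MP_52661b_pr.LevelsUpper
import Pool.Agent.Lib.MP_52661b_pr.LevelsLower

set_option autoImplicit false

namespace Pool.Agent.Lib.MP_52661b_pr

open Finset

/-- the potential decreases -/
theorem descent {n : ℕ} (hn : 0 < n) {A : Finset (Cube n)} (hA : IsUpperSet (A : Set (Cube n)))
    (L q : ℝ) (hL : 2 ≤ L) (hq : 0 < q) (K : ℕ) (G : Finset (Cube n))
    (hG : ∀ x ∈ G, ∀ k < K, (1 / 2 : ℝ) ≤ ∑ R : Finset (Fin n), wt n (1 / 2 ^ k) R *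
        (if q ≤ dens A R x then 1 else 0))
    (f : Cube n → ℝ) (hf : ∀ x, 0 ≤ f x) (hfs : ∑ x ∈ A, f x = (A.card : ℝ))
    (hfK : ∀ x ∈ A, f x ≤ lev L K) :
    pot A L K (step A f) ≤ pot A L K f - (q ^ 2 / (16 * n)) *
      ((1 / 32) * ∑ x ∈ A.filter (fun x => x ∈ G ∧ 4 * lev L 0 ≤ f x), f x -
        1 / (q * L) * (A.card : ℝ)) := by
  classical
  have hL1 : (1 : ℝ) ≤ L := by linarith
  have hn' : (0 : ℝ) < n := by exact_mod_cast hn
  set g : ℕ → Cube n → ℝ := fun k x => rt (lev L k) (lev L (k + 1)) (f x) with hg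
  have hg0 : ∀ k x, 0 ≤ g k x := fun k x =>
    rt_nonneg _ _ _ (by linarith [lev_pos L hL1 k]) (lev_le_succ L hL1 k)
  have hcard : (A.card : ℝ) ≤ 2 ^ n := by
    have h1 : A.card ≤ 2 ^ n := by
      have := card_le_univ A
      simpa using this
    exact_mod_cast h1
  -- the support
  have hsupp : ∀ k, (((A.filter (fun x => g k x ≠ 0)).card : ℕ) : ℝ) * lev L k ≤ 2 ^ n := by
    intro k
    calc (((A.filter (fun x => g k x ≠ 0)).card : ℕ) : ℝ) * lev L k
        = ∑ _x ∈ A.filter (fun x => g k x ≠ 0), lev L k := by rw [sum_const, nsmul_eq_mul]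
      _ ≤ ∑ x ∈ A.filter (fun x => g k x ≠ 0), f x := by
          refine sum_le_sum fun x hx => ?_
          rw [mem_filter] at hx
          by_contra hcon
          push Not at hcon
          exact hx.2 (rt_eq_zero _ _ _ (by linarith [lev_pos L hL1 k]) (lev_le_succ L hL1 k)
            hcon.le)
      _ ≤ ∑ x ∈ A, f x := sum_le_sum_of_subset_of_nonneg (filter_subset _ _) fun x _ _ => hf x
      _ ≤ 2 ^ n := by rw [hfs]; exact hcard
  have hE : ∀ k ∈ range K, q ^ 2 * 2 ^ (k + 1) / 16 *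
      ((1 / 2) * ∑ x ∈ A.filter (fun x => x ∈ G), (g k x) ^ 2 -
        1 / (q * L) * ∑ x ∈ A, (g k x) ^ 2) ≤ energy A (g k) := fun k hk =>
    key hA k L q hL1 hq G (fun x hx => hG x hx k (mem_range.1 hk)) (g k) (hg0 k) (hsupp k)
  have hstep : ∀ k, ∑ x ∈ A, phi (lev L k) (lev L (k + 1)) (step A f x) ≤
      ∑ x ∈ A, phi (lev L k) (lev L (k + 1)) (f x) - (1 / (n : ℝ)) * energy A (g k) := fun k =>
    phi_step hn hA _ _ (by linarith [lev_pos L hL1 k]) (lev_le_succ L hL1 k) f hf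
  -- sum over the levels
  have h1 : pot A L K (step A f) ≤ pot A L K f - ∑ k ∈ range K, q ^ 2 / (16 * n) *
      ((1 / 2) * ∑ x ∈ A.filter (fun x => x ∈ G), (g k x) ^ 2 -
        1 / (q * L) * ∑ x ∈ A, (g k x) ^ 2) := by
    unfold pot
    rw [← sum_sub_distrib]
    refine sum_le_sum fun k hk => ?_
    have h2 := hE k hk
    have h3 := hstep k
    have hp : (0 : ℝ) < 2 ^ (k + 1) := by positivity
    set W := (1 / 2) * ∑ x ∈ A.filter (fun x => x ∈ G), (g k x) ^ 2 -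
        1 / (q * L) * ∑ x ∈ A, (g k x) ^ 2 with hW
    have h4 : (1 / (n : ℝ)) * (q ^ 2 * 2 ^ (k + 1) / 16 * W) ≤ (1 / (n : ℝ)) * energy A (g k) :=
      mul_le_mul_of_nonneg_left h2 (by positivity)
    have h5 : 1 / 2 ^ (k + 1) * ∑ x ∈ A, phi (lev L k) (lev L (k + 1)) (step A f x) ≤
        1 / 2 ^ (k + 1) * (∑ x ∈ A, phi (lev L k) (lev L (k + 1)) (f x) -
          (1 / (n : ℝ)) * (q ^ 2 * 2 ^ (k + 1) / 16 * W)) :=
      mul_le_mul_of_nonneg_left (by linarith) (by positivity)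
    refine h5.trans (le_of_eq ?_)
    field_simp
  -- exchange the sums
  have h6 : ∑ k ∈ range K, q ^ 2 / (16 * n) *
      ((1 / 2) * ∑ x ∈ A.filter (fun x => x ∈ G), (g k x) ^ 2 -
        1 / (q * L) * ∑ x ∈ A, (g k x) ^ 2) = q ^ 2 / (16 * n) *
      ((1 / 2) * ∑ x ∈ A.filter (fun x => x ∈ G), ∑ k ∈ range K, (g k x) ^ 2 -
        1 / (q * L) * ∑ x ∈ A, ∑ k ∈ range K, (g k x) ^ 2) := by
    rw [← mul_sum, sum_sub_distrib, ← mul_sum, ← mul_sum, sum_comm,
      sum_comm (s := range K) (t := A)]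
  have h7 : ∑ x ∈ A, ∑ k ∈ range K, (g k x) ^ 2 ≤ (A.card : ℝ) := by
    rw [← hfs]
    exact sum_le_sum fun x _ => levels_upper L hL K (f x) (hf x)
  have h8 : ∑ x ∈ A.filter (fun x => x ∈ G ∧ 4 * lev L 0 ≤ f x), f x / 16 ≤
      ∑ x ∈ A.filter (fun x => x ∈ G), ∑ k ∈ range K, (g k x) ^ 2 := by
    calc ∑ x ∈ A.filter (fun x => x ∈ G ∧ 4 * lev L 0 ≤ f x), f x / 16
        ≤ ∑ x ∈ A.filter (fun x => x ∈ G ∧ 4 * lev L 0 ≤ f x), ∑ k ∈ range K, (g k x) ^ 2 := by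
          refine sum_le_sum fun x hx => ?_
          rw [mem_filter] at hx
          exact levels_lower L hL K (f x) hx.2.2 (hfK x hx.1)
      _ ≤ ∑ x ∈ A.filter (fun x => x ∈ G), ∑ k ∈ range K, (g k x) ^ 2 := by
          refine sum_le_sum_of_subset_of_nonneg (fun x hx => ?_) fun x _ _ =>
            sum_nonneg fun k _ => sq_nonneg _
          rw [mem_filter] at hx ⊢
          exact ⟨hx.1, hx.2.1⟩
  rw [← sum_div] at h8
  rw [h6] at h1
  refine h1.trans ?_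
  have h9 : 0 ≤ q ^ 2 / (16 * (n : ℝ)) := by positivity
  have h10 : 0 ≤ 1 / (q * L) := by
    have : 0 < q * L := by positivity
    positivity
  have h11 : (1 / 32) * ∑ x ∈ A.filter (fun x => x ∈ G ∧ 4 * lev L 0 ≤ f x), f x -
      1 / (q * L) * (A.card : ℝ) ≤
      (1 / 2) * ∑ x ∈ A.filter (fun x => x ∈ G), ∑ k ∈ range K, (g k x) ^ 2 -
        1 / (q * L) * ∑ x ∈ A, ∑ k ∈ range K, (g k x) ^ 2 := by
    have h12 := mul_le_mul_of_nonneg_left h7 h10
    linarith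
  have h13 := mul_le_mul_of_nonneg_left h11 h9
  linarith

theorem pot_nonneg {n : ℕ} (A : Finset (Cube n)) (L : ℝ) (hL : 1 ≤ L) (K : ℕ) (f : Cube n → ℝ)
    (hf : ∀ x, 0 ≤ f x) : 0 ≤ pot A L K f := by
  unfold pot
  refine sum_nonneg fun k _ => mul_nonneg (by positivity) (sum_nonneg fun x _ => ?_)
  exact phi_nonneg _ _ _ (by linarith [lev_pos L hL k]) (lev_le_succ L hL k) (hf x)

theorem descent_log (L : ℝ) (hL : 1 ≤ L) (k : ℕ) :
    Real.log (lev L (k + 1) / lev L k) = 2 * 2 ^ (k + 1) * Real.log L := by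
  have h1 := lev_pos L hL k
  have h2 := lev_pos L hL (k + 1)
  rw [Real.log_div (by linarith) (by linarith)]
  unfold lev
  rw [Real.log_pow, Real.log_pow]
  push_cast
  ring

/-- the initial potential -/
theorem pot_le {n : ℕ} (A : Finset (Cube n)) (L : ℝ) (hL : 1 ≤ L) (K : ℕ) (f : Cube n → ℝ)
    (hf : ∀ x, 0 ≤ f x) (hfs : ∑ x ∈ A, f x = (A.card : ℝ)) :
    pot A L K f ≤ 2 * K * Real.log L * (A.card : ℝ) := by
  unfold pot
  have h1 : ∀ k ∈ range K, (1 / 2 ^ (k + 1)) * ∑ x ∈ A, phi (lev L k) (lev L (k + 1)) (f x) ≤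
      2 * Real.log L * (A.card : ℝ) := by
    intro k _
    have h2 : ∑ x ∈ A, phi (lev L k) (lev L (k + 1)) (f x) ≤
        (A.card : ℝ) * (2 * 2 ^ (k + 1) * Real.log L) := by
      rw [← hfs, sum_mul]
      refine sum_le_sum fun x _ => ?_
      rw [← descent_log L hL k]
      exact phi_le _ _ _ (by linarith [lev_pos L hL k]) (lev_le_succ L hL k) (hf x)
    have hp : (0 : ℝ) < 2 ^ (k + 1) := by positivity
    calc (1 / 2 ^ (k + 1)) * ∑ x ∈ A, phi (lev L k) (lev L (k + 1)) (f x)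
        ≤ (1 / 2 ^ (k + 1)) * ((A.card : ℝ) * (2 * 2 ^ (k + 1) * Real.log L)) :=
          mul_le_mul_of_nonneg_left h2 (by positivity)
      _ = 2 * Real.log L * (A.card : ℝ) := by
          field_simp
  calc ∑ k ∈ range K, (1 / 2 ^ (k + 1)) * ∑ x ∈ A, phi (lev L k) (lev L (k + 1)) (f x)
      ≤ ∑ _k ∈ range K, 2 * Real.log L * (A.card : ℝ) := sum_le_sum h1
    _ = 2 * K * Real.log L * (A.card : ℝ) := by
        rw [sum_const, card_range, nsmul_eq_mul]
        ring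

end Pool.Agent.Lib.MP_52661b_pr
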