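import Pool.Agent.Lib.MP_52661b_pr.Defs

set_option autoImplicit false

namespace Pool.Agent.Lib.MP_52661b_pr

open Finset

theorem dobrushin {ι : Type*} [Fintype ι] (Q : Matrix ι ι ℝ) (hQ0 : ∀ x y, 0 ≤ Q x y)
    (hQ1 : ∀ x, ∑ y, Q x y = 1) (ε : ℝ) (hε : ∀ x y, ε ≤ ∑ z, min (Q x z) (Q y z))
    (σ : ι → ℝ) (hσ : ∑ x, σ x = 0) :
    ∑ z, |∑ x, σ x * Q x z| ≤ (1 - ε) * ∑ x, |σ x| := by
  classical
  set p : ι → ℝ := fun x => max (σ x) 0 with hp
  set q : ι → ℝ := fun x => max (-σ x) 0 with hq
  have hp0 : ∀ x, 0 ≤ p x := fun x => le_max_right _ _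
  have hq0 : ∀ x, 0 ≤ q x := fun x => le_max_right _ _
  have hsub : ∀ x, σ x = p x - q x := by
    intro x
    simp only [hp, hq]
    rcases le_total (σ x) 0 with h | h
    · rw [max_eq_right h, max_eq_left (by linarith)]; ring
    · rw [max_eq_left h, max_eq_right (by linarith)]; ring
  have habs : ∀ x, |σ x| = p x + q x := by
    intro x
    simp only [hp, hq]
    rcases le_total (σ x) 0 with h | h
    · rw [max_eq_right h, max_eq_left (by linarith), abs_of_nonpos h]; ring
    · rw [max_eq_left h, max_eq_right (by linarith), abs_of_nonneg h]; ring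
  set m : ℝ := ∑ x, p x with hm
  have hm' : ∑ x, q x = m := by
    have : ∑ x, (p x - q x) = 0 := by rw [← hσ]; exact Finset.sum_congr rfl (fun x _ => (hsub x).symm)
    rw [Finset.sum_sub_distrib] at this
    linarith
  have hm0 : 0 ≤ m := Finset.sum_nonneg (fun x _ => hp0 x)
  have hsum : ∑ x, |σ x| = 2 * m := by
    rw [Finset.sum_congr rfl (fun x _ => habs x), Finset.sum_add_distrib, hm']
    ring
  rcases hm0.eq_or_lt with h0 | hpos
  · -- everything is zero
    have hpz : ∀ x, p x = 0 := by
      intro x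
      exact (Finset.sum_eq_zero_iff_of_nonneg (fun x _ => hp0 x)).1 h0.symm x (mem_univ x)
    have hqz : ∀ x, q x = 0 := by
      intro x
      exact (Finset.sum_eq_zero_iff_of_nonneg (fun x _ => hq0 x)).1 (hm'.trans h0.symm) x (mem_univ x)
    have hσz : ∀ x, σ x = 0 := by intro x; rw [hsub, hpz, hqz]; ring
    simp [hσz]
  · have hkey : ∀ z, m * ∑ x, σ x * Q x z = ∑ x, ∑ y, p x * q y * (Q x z - Q y z) := by
      intro z
      have h1 : ∑ x, ∑ y, p x * q y * (Q x z - Q y z)
          = (∑ y, q y) * (∑ x, p x * Q x z) - (∑ x, p x) * (∑ y, q y * Q y z) := by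
        rw [Finset.sum_mul_sum, Finset.sum_mul_sum]
        rw [Finset.sum_comm (s := univ) (t := univ) (f := fun i j => q i * (p j * Q j z))]
        rw [← Finset.sum_sub_distrib]
        refine Finset.sum_congr rfl (fun x _ => ?_)
        rw [← Finset.sum_sub_distrib]
        refine Finset.sum_congr rfl (fun y _ => ?_)
        ring
      rw [h1, hm', ← hm, ← mul_sub, ← Finset.sum_sub_distrib]
      congr 1
      refine Finset.sum_congr rfl (fun x _ => ?_)
      rw [hsub x]; ring
    have hTV : ∀ x y, ∑ z, |Q x z - Q y z| ≤ 2 - 2 * ε := by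
      intro x y
      have h1 : ∀ z, |Q x z - Q y z| = Q x z + Q y z - 2 * min (Q x z) (Q y z) := by
        intro z
        rcases le_total (Q x z) (Q y z) with h | h
        · rw [min_eq_left h, abs_of_nonpos (by linarith)]; ring
        · rw [min_eq_right h, abs_of_nonneg (by linarith)]; ring
      rw [Finset.sum_congr rfl (fun z _ => h1 z), Finset.sum_sub_distrib, Finset.sum_add_distrib,
        hQ1, hQ1, ← Finset.mul_sum]
      have := hε x y
      linarith
    have hmain : m * ∑ z, |∑ x, σ x * Q x z| ≤ m * ((1 - ε) * ∑ x, |σ x|) := by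
      calc m * ∑ z, |∑ x, σ x * Q x z| = ∑ z, |m * ∑ x, σ x * Q x z| := by
            rw [Finset.mul_sum]
            refine Finset.sum_congr rfl (fun z _ => ?_)
            rw [abs_mul, abs_of_pos hpos]
        _ ≤ ∑ z, ∑ x, ∑ y, p x * q y * |Q x z - Q y z| := by
            refine Finset.sum_le_sum (fun z _ => ?_)
            rw [hkey z]
            refine (Finset.abs_sum_le_sum_abs _ _).trans (Finset.sum_le_sum (fun x _ => ?_))
            refine (Finset.abs_sum_le_sum_abs _ _).trans (Finset.sum_le_sum (fun y _ => ?_))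
            rw [abs_mul, abs_of_nonneg (mul_nonneg (hp0 x) (hq0 y))]
        _ = ∑ x, ∑ y, p x * q y * ∑ z, |Q x z - Q y z| := by
            rw [Finset.sum_comm]
            refine Finset.sum_congr rfl (fun x _ => ?_)
            rw [Finset.sum_comm]
            refine Finset.sum_congr rfl (fun y _ => ?_)
            rw [Finset.mul_sum]
        _ ≤ ∑ x, ∑ y, p x * q y * (2 - 2 * ε) := by
            refine Finset.sum_le_sum (fun x _ => Finset.sum_le_sum (fun y _ => ?_))
            exact mul_le_mul_of_nonneg_left (hTV x y) (mul_nonneg (hp0 x) (hq0 y))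
        _ = m * ((1 - ε) * ∑ x, |σ x|) := by
            rw [hsum]
            have : ∑ x, ∑ y, p x * q y * (2 - 2 * ε) = (∑ x, p x) * (∑ y, q y) * (2 - 2 * ε) := by
              rw [Finset.sum_mul_sum, Finset.sum_mul]
              refine Finset.sum_congr rfl (fun x _ => ?_)
              rw [Finset.sum_mul]
            rw [this, hm', ← hm]; ring
    exact le_of_mul_le_mul_left hmain hpos

end Pool.Agent.Lib.MP_52661b_pr
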