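import Pool.Agent.Lib.MP_52661b_pr.Defs

set_option autoImplicit false

namespace Pool.Agent.Lib.MP_52661b_pr

open Finset

private theorem fb_mem {n : ℕ} {A : Finset (Cube n)} {R : Finset (Fin n)} {x y : Cube n} :
    y ∈ fib A R x ↔ y ∈ A ∧ ∀ j, j ∉ R → y j = x j := by
  unfold fib
  rw [mem_filter]

private theorem fb_eq {n : ℕ} {A : Finset (Cube n)} {R : Finset (Fin n)} {x y : Cube n}
    (h : ∀ j, j ∉ R → y j = x j) : fib A R y = fib A R x := by
  ext z
  rw [fb_mem, fb_mem]
  constructor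
  · rintro ⟨h1, h2⟩
    exact ⟨h1, fun j hj => (h2 j hj).trans (h j hj)⟩
  · rintro ⟨h1, h2⟩
    exact ⟨h1, fun j hj => (h2 j hj).trans (h j hj).symm⟩

/-- sum of fibre averages is the sum -/
private theorem fb_sum {n : ℕ} (A : Finset (Cube n)) (R : Finset (Fin n)) (h k : Cube n → ℝ)
    (hh : ∀ x y, x ∈ A → y ∈ fib A R x → h y = h x) :
    ∑ x ∈ A, h x * ((∑ y ∈ fib A R x, k y) / ((fib A R x).card : ℝ)) = ∑ x ∈ A, h x * k x := by
  have h1 : ∑ x ∈ A, h x * ((∑ y ∈ fib A R x, k y) / ((fib A R x).card : ℝ)) =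
      ∑ x ∈ A, ∑ y ∈ fib A R x, h x * (k y / ((fib A R x).card : ℝ)) := by
    refine sum_congr rfl fun x _ => ?_
    rw [sum_div, mul_sum]
  have h2 : ∑ x ∈ A, ∑ y ∈ fib A R x, h x * (k y / ((fib A R x).card : ℝ)) =
      ∑ y ∈ A, ∑ x ∈ fib A R y, h x * (k y / ((fib A R x).card : ℝ)) := by
    refine sum_comm' ?_
    intro x y
    rw [fb_mem, fb_mem]
    constructor
    · rintro ⟨h1, h2, h3⟩
      exact ⟨⟨h1, fun j hj => (h3 j hj).symm⟩, h2⟩
    · rintro ⟨⟨h1, h2⟩, h3⟩
      exact ⟨h1, h3, fun j hj => (h2 j hj).symm⟩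
  rw [h1, h2]
  refine sum_congr rfl fun y hy => ?_
  have h3 : ∀ x ∈ fib A R y, h x * (k y / ((fib A R x).card : ℝ)) =
      h y * (k y / ((fib A R y).card : ℝ)) := by
    intro x hx
    rw [hh y x hy hx, fb_eq (fb_mem.1 hx).2]
  rw [sum_congr rfl h3, sum_const, nsmul_eq_mul]
  have h4 : y ∈ fib A R y := fb_mem.2 ⟨hy, fun _ _ => rfl⟩
  have h5 : ((fib A R y).card : ℝ) ≠ 0 := by
    have := card_pos.2 ⟨y, h4⟩
    positivity
  field_simp

/-- fibre averages of the whole cube versus `A` -/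
theorem cmean_bound {n : ℕ} (A : Finset (Cube n)) (f : Cube n → ℝ) (q : ℝ) (hq : 0 < q)
    (R : Finset (Fin n)) :
    ∑ x ∈ A, (if q ≤ dens A R x then (cmean A R f x) ^ 2 else 0) ≤
      (1 / q) * ∑ x : Cube n, ext A f x * favg R (ext A f) x := by
  have e1 : ∀ x, ∑ y ∈ fib univ R x, ext A f y = ∑ y ∈ fib A R x, f y := by
    intro x
    unfold ext
    rw [← sum_filter]
    refine sum_congr ?_ fun _ _ => rfl
    ext y
    rw [mem_filter, fb_mem, fb_mem]
    constructor
    · rintro ⟨⟨_, h1⟩, h2⟩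
      exact ⟨h2, h1⟩
    · rintro ⟨h1, h2⟩
      exact ⟨⟨mem_univ _, h2⟩, h1⟩
  have e2 : ∀ x ∈ A, favg R (ext A f) x = dens A R x * cmean A R f x := by
    intro x hx
    have h4 : x ∈ fib A R x := fb_mem.2 ⟨hx, fun _ _ => rfl⟩
    have h5 : ((fib A R x).card : ℝ) ≠ 0 := by
      have := card_pos.2 ⟨x, h4⟩
      positivity
    unfold favg dens cmean
    rw [e1]
    field_simp
  have e3 : ∑ x : Cube n, ext A f x * favg R (ext A f) x =
      ∑ x ∈ A, (dens A R x * cmean A R f x) * f x := by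
    have h1 : ∀ x : Cube n, ext A f x * favg R (ext A f) x =
        if x ∈ A then (dens A R x * cmean A R f x) * f x else 0 := by
      intro x
      by_cases hx : x ∈ A
      · rw [if_pos hx, ← e2 x hx]
        have : ext A f x = f x := by
          unfold ext
          rw [if_pos hx]
        rw [this, mul_comm]
      · rw [if_neg hx]
        have : ext A f x = 0 := by
          unfold ext
          rw [if_neg hx]
        rw [this, zero_mul]
    rw [sum_congr rfl fun x _ => h1 x, ← sum_filter]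
    refine sum_congr ?_ fun _ _ => rfl
    ext y
    simp
  have e4 : ∑ x ∈ A, (dens A R x * cmean A R f x) * f x =
      ∑ x ∈ A, (dens A R x * cmean A R f x) * cmean A R f x := by
    rw [← fb_sum A R (fun x => dens A R x * cmean A R f x) f]
    · rfl
    · intro x y _ hy
      have h1 := fb_eq (A := A) (fb_mem.1 hy).2
      change dens A R y * cmean A R f y = dens A R x * cmean A R f x
      unfold dens cmean
      rw [h1]
  rw [e3, e4, mul_sum]
  refine sum_le_sum fun x _ => ?_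
  have hd : 0 ≤ dens A R x := by
    unfold dens
    positivity
  have h6 : 0 ≤ (cmean A R f x) ^ 2 := sq_nonneg _
  have h7 : 1 / q * (dens A R x * cmean A R f x * cmean A R f x) =
      (dens A R x / q) * (cmean A R f x) ^ 2 := by
    field_simp
  rw [h7]
  split_ifs with h
  · have h8 : 1 ≤ dens A R x / q := by
      rw [le_div_iff₀ hq]
      linarith
    nlinarith
  · positivity

/-- sum of fibre averages is the sum -/
theorem sum_fibre_avg {n : ℕ} (A : Finset (Cube n)) (R : Finset (Fin n)) (h k : Cube n → ℝ)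
    (hh : ∀ x y, x ∈ A → y ∈ fib A R x → h y = h x) :
    ∑ x ∈ A, h x * ((∑ y ∈ fib A R x, k y) / ((fib A R x).card : ℝ)) = ∑ x ∈ A, h x * k x :=
  fb_sum A R h k hh

end Pool.Agent.Lib.MP_52661b_pr
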