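import Pool.Agent.Lib.MP_52661b_pr.ChainFail
import Pool.Agent.Lib.MP_52661b_pr.ChainMarginal

set_option autoImplicit false

namespace Pool.Agent.Lib.MP_52661b_pr

open Finset

/-- monotonicity of the densities -/
theorem gs_dens_mono {n : ℕ} {A : Finset (Cube n)} (hA : IsUpperSet (A : Set (Cube n)))
    (R : Finset (Fin n)) {x y : Cube n} (hxy : x ≤ y) : dens A R x ≤ dens A R y := by
  unfold dens
  apply div_le_div_of_nonneg_right _ (by positivity)
  have h : (fib A R x).card ≤ (fib A R y).card := by
    apply card_le_card_of_injOn (fun z => fun j => if j ∈ R then z j else y j)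
    · intro z hz
      have hz' : z ∈ A ∧ ∀ j, j ∉ R → z j = x j := by
        simpa [fib] using hz
      have h1 : (fun j => if j ∈ R then z j else y j) ∈ A := by
        have h2 : z ≤ (fun j => if j ∈ R then z j else y j) := by
          intro j
          by_cases hj : j ∈ R
          · simp [hj]
          · simp only [hj, if_false]
            rw [hz'.2 j hj]
            exact hxy j
        exact_mod_cast hA h2 (by exact_mod_cast hz'.1)
      have h3 : ∀ j, j ∉ R → (if j ∈ R then z j else y j) = y j := by
        intro j hj; simp [hj]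
      show (fun j => if j ∈ R then z j else y j) ∈ (fib A R y : Set (Cube n))
      rw [mem_coe]
      unfold fib
      exact mem_filter.mpr ⟨h1, h3⟩
    · intro z hz z' hz' heq
      have h1 : z ∈ A ∧ ∀ j, j ∉ R → z j = x j := by simpa [fib] using hz
      have h2 : z' ∈ A ∧ ∀ j, j ∉ R → z' j = x j := by simpa [fib] using hz'
      funext j
      by_cases hj : j ∈ R
      · have := congrFun heq j
        simpa [hj] using this
      · rw [h1.2 j hj, h2.2 j hj]
  exact_mod_cast h

/-- the good set -/
theorem good_set {n : ℕ} {A : Finset (Cube n)} (hA : IsUpperSet (A : Set (Cube n))) (K : ℕ)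
    (q : ℝ) (hq0 : 0 < q) (hq : 4 * q * 2 ^ n ≤ (A.card : ℝ)) :
    ∃ G : Finset (Cube n), IsUpperSet (G : Set (Cube n)) ∧ (A.card : ℝ) ≤ 2 * (G.card : ℝ) ∧
      ∀ x ∈ G, ∀ k < K, (1 / 2 : ℝ) ≤ ∑ R : Finset (Fin n), wt n (1 / 2 ^ k) R *
        (if q ≤ dens A R x then 1 else 0) := by
  classical
  set P : Cube n → Prop := fun x => ∀ k < K, (1 / 2 : ℝ) ≤ ∑ R : Finset (Fin n),
    wt n (1 / 2 ^ k) R * (if q ≤ dens A R x then 1 else 0) with hP
  refine ⟨univ.filter P, ?_, ?_, fun x hx => (mem_filter.mp hx).2⟩
  · intro x y hxy hx
    have hx' : P x := by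
      have : x ∈ univ.filter P := by exact_mod_cast hx
      exact (mem_filter.mp this).2
    have hy : P y := by
      intro k hk
      refine (hx' k hk).trans (sum_le_sum fun R _ => ?_)
      apply mul_le_mul_of_nonneg_left
      · have hd := gs_dens_mono hA R hxy
        split_ifs with h1 h2 h2
        · exact le_rfl
        · exact absurd (h1.trans hd) h2
        · exact zero_le_one
        · exact le_rfl
      · unfold wt
        have h1 : (1 : ℝ) / 2 ^ k ≤ 1 := by
          rw [div_le_one (by positivity)]
          exact one_le_pow₀ (by norm_num)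
        have h2 : (0 : ℝ) ≤ 1 - 1 / 2 ^ k := by linarith
        positivity
    have : y ∈ univ.filter P := mem_filter.mpr ⟨mem_univ _, hy⟩
    exact_mod_cast this
  · have hfib : fib A univ (fun _ => true) = A := by
      unfold fib
      apply filter_true_of_mem
      intro z _ j hj
      exact absurd (mem_univ j) hj
    have h1 := chain_fail A q hq0 K univ (fun _ => true)
    rw [hfib, card_univ, Fintype.card_fin] at h1
    have h2 : ((A.filter (fun x => ¬ P x)).card : ℝ) * (1 / 2) ≤
        ∑ y ∈ A, (1 - chainProb A q K univ y) := by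
      calc ((A.filter (fun x => ¬ P x)).card : ℝ) * (1 / 2)
          = ∑ y ∈ A.filter (fun x => ¬ P x), (1 / 2 : ℝ) := by
            rw [sum_const, nsmul_eq_mul]
        _ ≤ ∑ y ∈ A.filter (fun x => ¬ P x), (1 - chainProb A q K univ y) := by
            refine sum_le_sum fun y hy => ?_
            have hy' := (mem_filter.mp hy).2
            rw [hP] at hy'
            push Not at hy'
            obtain ⟨k, hk, hlt⟩ := hy'
            have h3 := chain_marginal A q K k hk y
            linarith
        _ ≤ ∑ y ∈ A, (1 - chainProb A q K univ y) := by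
            refine sum_le_sum_of_subset_of_nonneg (filter_subset _ _) fun y _ _ => ?_
            have := chainProb_le_one A q K univ y
            linarith
    have h3 : (A.card : ℝ) = ((A.filter P).card : ℝ) + ((A.filter (fun x => ¬ P x)).card : ℝ) := by
      exact_mod_cast (card_filter_add_card_filter_not (s := A) P).symm
    have h4 : ((A.filter P).card : ℝ) ≤ ((univ.filter P).card : ℝ) := by
      exact_mod_cast card_le_card (filter_subset_filter P (subset_univ A))
    have h5 : (0 : ℝ) < 2 ^ n := by positivity
    linarith

end Pool.Agent.Lib.MP_52661b_pr
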