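import Pool.Agent.Lib.MP_52661b_pr.Descent
import Pool.Agent.Lib.MP_52661b_pr.GoodSet
import Pool.Agent.Lib.MP_52661b_pr.BurnIn
import Pool.Agent.Lib.MP_52661b_pr.StepBasic

set_option autoImplicit false

namespace Pool.Agent.Lib.MP_52661b_pr

open Finset

noncomputable section

/-- density of the walk started at `x0`, after `t` steps -/
def den {n : ℕ} (A : Finset (Cube n)) (x0 : Cube n) (t : ℕ) : Cube n → ℝ :=
  (step A)^[t] (fun z => if z = x0 then (A.card : ℝ) else 0)

theorem den_nonneg {n : ℕ} (A : Finset (Cube n)) (x0 : Cube n) (t : ℕ) (x : Cube n) :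
    0 ≤ den A x0 t x := by
  unfold den
  induction t generalizing x with
  | zero => simp only [Function.iterate_zero, id]; split_ifs <;> positivity
  | succ t ih =>
    rw [Function.iterate_succ_apply']
    exact step_nonneg _ ih x

theorem den_succ {n : ℕ} (A : Finset (Cube n)) (x0 : Cube n) (t : ℕ) :
    den A x0 (t + 1) = step A (den A x0 t) := by
  unfold den
  rw [Function.iterate_succ_apply']

theorem den_sum {n : ℕ} (hn : 0 < n) {A : Finset (Cube n)} (hA : IsUpperSet (A : Set (Cube n)))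
    (x0 : Cube n) (hx0 : x0 ∈ A) (t : ℕ) : ∑ x ∈ A, den A x0 t x = (A.card : ℝ) := by
  induction t with
  | zero =>
    unfold den
    simp only [Function.iterate_zero, id]
    rw [Finset.sum_ite_eq' A x0]
    simp [hx0]
  | succ t ih => rw [den_succ, step_sum hn hA, ih]

theorem den_le {n : ℕ} (hn : 0 < n) {A : Finset (Cube n)} (hA : IsUpperSet (A : Set (Cube n)))
    (x0 : Cube n) (hx0 : x0 ∈ A) (t : ℕ) (x : Cube n) (hx : x ∈ A) :
    den A x0 t x ≤ (2 : ℝ) ^ n := by
  have h1 : den A x0 t x ≤ ∑ x ∈ A, den A x0 t x :=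
    Finset.single_le_sum (f := den A x0 t) (fun y _ => den_nonneg A x0 t y) hx
  rw [den_sum hn hA x0 hx0 t] at h1
  have h2 : A.card ≤ 2 ^ n := by
    have := Finset.card_le_univ A
    simpa using this
  have h3 : (A.card : ℝ) ≤ 2 ^ n := by exact_mod_cast h2
  linarith

/-- mass of an increasing set after the burn-in -/
theorem den_good {n : ℕ} (hn : 0 < n) {A : Finset (Cube n)} (hA : IsUpperSet (A : Set (Cube n)))
    (G : Finset (Cube n)) (hG : IsUpperSet (G : Set (Cube n))) (t : ℕ) (x0 : Cube n)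
    (hx0 : x0 ∈ A) :
    (A.card : ℝ) * ((G.card : ℝ) / 2 ^ n - n * (1 - 1 / (n : ℝ)) ^ t) ≤
      ∑ x ∈ A.filter (fun x => x ∈ G), den A x0 t x := by
  have h1 := burn_in hn hA G hG t x0 hx0
  have h2 : ∑ x ∈ A.filter (fun x => x ∈ G), den A x0 t x =
      ∑ x ∈ A, den A x0 t x * (if x ∈ G then (1 : ℝ) else 0) := by
    rw [Finset.sum_filter]
    apply Finset.sum_congr rfl
    intro x _
    split_ifs <;> simp
  rw [h2]
  unfold den
  rw [step_iter_symm hA t]
  have h3 : ∑ x ∈ A, (if x = x0 then (A.card : ℝ) else 0) *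
      (step A)^[t] (fun y => if y ∈ G then (1 : ℝ) else 0) x =
      (A.card : ℝ) * (step A)^[t] (fun y => if y ∈ G then (1 : ℝ) else 0) x0 := by
    rw [Finset.sum_eq_single x0]
    · simp
    · intro b _ hb; simp [hb]
    · intro h; exact absurd hx0 h
  rw [h3]
  exact mul_le_mul_of_nonneg_left h1 (by positivity)

theorem clog_le (n : ℕ) (hn : 2 ≤ n) : (Nat.clog 2 n : ℝ) ≤ 3 * Real.log n := by
  have hlog2 : (0.6931471803 : ℝ) < Real.log 2 := Real.log_two_gt_d9
  have hk : 1 ≤ Nat.clog 2 n := by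
    by_contra h
    have h0 : Nat.clog 2 n = 0 := by omega
    have := Nat.le_pow_clog (b := 2) (by norm_num) n
    rw [h0] at this
    omega
  obtain ⟨k, hk'⟩ : ∃ k, Nat.clog 2 n = k + 1 := ⟨Nat.clog 2 n - 1, by omega⟩
  have h1 : 2 ^ k < n := by
    by_contra h
    push Not at h
    have := Nat.clog_le_of_le_pow h
    omega
  have h2 : (k : ℝ) * Real.log 2 ≤ Real.log n := by
    rw [← Real.log_pow]
    apply Real.log_le_log (by positivity)
    exact_mod_cast h1.le
  have h3 : Real.log 2 ≤ Real.log n := by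
    apply Real.log_le_log (by norm_num)
    exact_mod_cast hn
  rw [hk']
  push_cast
  nlinarith

theorem two_pow_le_lev (n : ℕ) (L : ℝ) (hL : 2 ≤ L) : (2 : ℝ) ^ n ≤ lev L (Nat.clog 2 n) := by
  unfold lev
  have h1 : n ≤ 2 * 2 ^ (Nat.clog 2 n + 1) := by
    have := Nat.le_pow_clog (b := 2) (by norm_num) n
    have h2 : 2 ^ (Nat.clog 2 n + 1) = 2 * 2 ^ (Nat.clog 2 n) := by ring
    omega
  calc (2 : ℝ) ^ n ≤ L ^ n := pow_le_pow_left₀ (by norm_num) hL n
    _ ≤ L ^ (2 * 2 ^ (Nat.clog 2 n + 1)) := pow_le_pow_right₀ (by linarith) h1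

/-- there is a time at which a fixed proportion of the mass has low density -/
theorem low_time {n : ℕ} (hn : 0 < n) {A : Finset (Cube n)} (hA : IsUpperSet (A : Set (Cube n)))
    (x0 : Cube n) (hx0 : x0 ∈ A) (α : ℝ) (hα : α = cubeMeasure A) (L : ℝ) (hL : L = 2048 / α ^ 2)
    (t1 : ℕ) (ht1 : ∀ t, t1 ≤ t → n * (1 - 1 / (n : ℝ)) ^ t ≤ α / 4)
    (m : ℕ) (hm : 262144 * n * (Nat.clog 2 n : ℝ) * Real.log L / α ^ 3 < m) :
    ∃ t, t1 ≤ t ∧ t < t1 + m ∧
      α / 8 * (A.card : ℝ) ≤ ∑ x ∈ A.filter (fun x => den A x0 t x < 4 * lev L 0), den A x0 t x := by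
  have hcard : 0 < (A.card : ℝ) := by
    exact_mod_cast Finset.card_pos.mpr ⟨x0, hx0⟩
  have hn' : (0 : ℝ) < n := by exact_mod_cast hn
  have hAn : (A.card : ℝ) = α * 2 ^ n := by
    rw [hα]; unfold cubeMeasure; field_simp
  have hα0 : 0 < α := by rw [hα]; unfold cubeMeasure; positivity
  have hcle : (A.card : ℝ) ≤ 2 ^ n := by
    have := Finset.card_le_univ A
    have h3 : A.card ≤ 2 ^ n := by simpa using this
    exact_mod_cast h3
  have hα1 : α ≤ 1 := by
    rw [hα]; unfold cubeMeasure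
    rw [div_le_one (by positivity)]
    exact hcle
  have hα2 : α ^ 2 ≤ 1 := by nlinarith
  have hL2 : 2 ≤ L := by
    rw [hL, le_div_iff₀ (by positivity)]
    nlinarith
  set K := Nat.clog 2 n with hK
  obtain ⟨G, hGu, hGc, hG⟩ := good_set hA K (α / 4) (by positivity) (by rw [hAn]; linarith)
  by_contra hcon
  push Not at hcon
  -- decrement
  have hdec : ∀ t, t1 ≤ t → t < t1 + m →
      pot A L K (den A x0 (t + 1)) ≤ pot A L K (den A x0 t) -
        α ^ 3 / (131072 * n) * (A.card : ℝ) := by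
    intro t h1 h2
    have hd := descent hn hA L (α / 4) hL2 (by positivity) K G hG (den A x0 t)
      (den_nonneg A x0 t) (den_sum hn hA x0 hx0 t)
      (fun x hx => le_trans (den_le hn hA x0 hx0 t x hx) (two_pow_le_lev n L hL2))
    rw [← den_succ] at hd
    have hc := hcon t h1 h2
    have hg := den_good hn hA G hGu t x0 hx0
    have hb := ht1 t h1
    have hGm : α / 2 ≤ (G.card : ℝ) / 2 ^ n := by
      rw [le_div_iff₀ (by positivity)]
      rw [hAn] at hGc
      linarith
    have hg2 : (A.card : ℝ) * (α / 4) ≤ ∑ x ∈ A.filter (fun x => x ∈ G), den A x0 t x := by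
      refine le_trans (mul_le_mul_of_nonneg_left ?_ hcard.le) hg
      linarith
    have hsplit : ∑ x ∈ A.filter (fun x => x ∈ G), den A x0 t x ≤
        ∑ x ∈ A.filter (fun x => x ∈ G ∧ 4 * lev L 0 ≤ den A x0 t x), den A x0 t x +
        ∑ x ∈ A.filter (fun x => den A x0 t x < 4 * lev L 0), den A x0 t x := by
      rw [Finset.sum_filter, Finset.sum_filter, Finset.sum_filter, ← Finset.sum_add_distrib]
      apply Finset.sum_le_sum
      intro x _
      have h0 := den_nonneg A x0 t x
      by_cases hxG : x ∈ G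
      · by_cases hx4 : 4 * lev L 0 ≤ den A x0 t x
        · rw [if_pos hxG, if_pos ⟨hxG, hx4⟩, if_neg (not_lt.mpr hx4)]; linarith
        · rw [if_pos hxG, if_neg (fun h => hx4 h.2), if_pos (not_le.mp hx4)]; linarith
      · rw [if_neg hxG, if_neg (fun h => hxG h.1)]
        split_ifs <;> linarith
    set S := ∑ x ∈ A.filter (fun x => x ∈ G ∧ 4 * lev L 0 ≤ den A x0 t x), den A x0 t x with hS
    have hS2 : (A.card : ℝ) * (α / 8) ≤ S := by nlinarith
    have hqL : 1 / (α / 4 * L) = α / 512 := by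
      rw [hL]; field_simp; norm_num
    rw [hqL] at hd
    have hbr : (A.card : ℝ) * (α / 512) ≤ 1 / 32 * S - α / 512 * (A.card : ℝ) := by nlinarith
    have hfac : 0 ≤ (α / 4) ^ 2 / (16 * (n : ℝ)) := by positivity
    have hmul := mul_le_mul_of_nonneg_left hbr hfac
    have he : (α / 4) ^ 2 / (16 * (n : ℝ)) * ((A.card : ℝ) * (α / 512)) =
        α ^ 3 / (131072 * n) * (A.card : ℝ) := by
      field_simp; ring
    rw [he] at hmul
    linarith
  have hit : ∀ j, j ≤ m → pot A L K (den A x0 (t1 + j)) ≤ pot A L K (den A x0 t1) -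
      j * (α ^ 3 / (131072 * n) * (A.card : ℝ)) := by
    intro j
    induction j with
    | zero => intro _; simp
    | succ j ih =>
      intro hj
      have h1 := ih (by omega)
      have h2 := hdec (t1 + j) (by omega) (by omega)
      have h3 : t1 + (j + 1) = t1 + j + 1 := by ring
      rw [h3]
      push_cast
      linarith
  have h1 := hit m le_rfl
  have h2 := pot_nonneg A L (by linarith) K (den A x0 (t1 + m)) (den_nonneg A x0 (t1 + m))
  have h3 := pot_le A L (by linarith) K (den A x0 t1) (den_nonneg A x0 t1)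
    (den_sum hn hA x0 hx0 t1)
  have h4 : (m : ℝ) * (α ^ 3 / (131072 * n) * (A.card : ℝ)) ≤ 2 * K * Real.log L * (A.card : ℝ) := by
    linarith
  have h5 : (m : ℝ) * (α ^ 3 / (131072 * n)) ≤ 2 * K * Real.log L := by
    have : (m : ℝ) * (α ^ 3 / (131072 * n)) * (A.card : ℝ) ≤ 2 * K * Real.log L * (A.card : ℝ) := by
      linarith
    exact le_of_mul_le_mul_right this hcard
  have h6 : (m : ℝ) ≤ 262144 * n * (K : ℝ) * Real.log L / α ^ 3 := by
    rw [le_div_iff₀ (by positivity)]
    have h7 : (m : ℝ) * (α ^ 3 / (131072 * n)) = (m : ℝ) * α ^ 3 / (131072 * n) := by ring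
    rw [h7, div_le_iff₀ (by positivity)] at h5
    linarith
  linarith

/-- bounded minorant of fixed mass -/
theorem minorant {n : ℕ} (A : Finset (Cube n)) (f : Cube n → ℝ) (hf : ∀ x, 0 ≤ f x) (κ c : ℝ)
    (hκ : 0 ≤ κ)
    (hS : κ * (A.card : ℝ) ≤ ∑ x ∈ A.filter (fun x => f x < c), f x) :
    ∃ h : Cube n → ℝ, (∀ x, 0 ≤ h x) ∧ (∀ x, h x ≤ f x) ∧ (∀ x, h x ≤ max c 0) ∧
      ∑ x ∈ A, h x = κ * (A.card : ℝ) := by
  set S := ∑ x ∈ A.filter (fun x => f x < c), f x with hSdef
  have hS0 : 0 ≤ S := Finset.sum_nonneg (fun x _ => hf x)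
  rcases eq_or_lt_of_le hS0 with h0 | h0
  · refine ⟨fun _ => 0, fun _ => le_rfl, hf, fun _ => le_max_right _ _, ?_⟩
    rw [← h0] at hS
    have : 0 ≤ κ * (A.card : ℝ) := by positivity
    simp only [Finset.sum_const_zero]
    linarith
  · refine ⟨fun x => (κ * (A.card : ℝ) / S) * (if f x < c then f x else 0), ?_, ?_, ?_, ?_⟩
    · intro x
      apply mul_nonneg (by positivity)
      split_ifs
      · exact hf x
      · exact le_rfl
    · intro x
      have h1 : κ * (A.card : ℝ) / S ≤ 1 := by rw [div_le_one h0]; exact hS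
      have h2 : 0 ≤ κ * (A.card : ℝ) / S := by positivity
      show κ * (A.card : ℝ) / S * (if f x < c then f x else 0) ≤ f x
      have hfx := hf x
      split_ifs
      · nlinarith
      · simp [hfx]
    · intro x
      have h1 : κ * (A.card : ℝ) / S ≤ 1 := by rw [div_le_one h0]; exact hS
      have h2 : 0 ≤ κ * (A.card : ℝ) / S := by positivity
      show κ * (A.card : ℝ) / S * (if f x < c then f x else 0) ≤ max c 0
      have hfx := hf x
      split_ifs with h
      · have : κ * (A.card : ℝ) / S * f x ≤ f x := by nlinarith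
        exact le_trans this (le_trans h.le (le_max_left _ _))
      · rw [mul_zero]; exact le_max_right _ _
    · rw [← Finset.mul_sum]
      have : ∑ x ∈ A, (if f x < c then f x else 0) = S := by
        rw [hSdef, Finset.sum_filter]
      rw [this]
      field_simp

end

end Pool.Agent.Lib.MP_52661b_pr
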