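import Pool.Agent.Lib.MP_52661b_pr.FinalA
import Pool.Agent.Lib.MP_52661b_pr.Contract

set_option autoImplicit false

namespace Pool.Agent.Lib.MP_52661b_pr

open Finset

noncomputable section

theorem den_add {n : ℕ} (A : Finset (Cube n)) (x0 : Cube n) (t s : ℕ) :
    den A x0 (t + s) = (step A)^[s] (den A x0 t) := by
  unfold den
  rw [add_comm t s, Function.iterate_add_apply]

/-- L1 distance to the constant of a contracted bounded function -/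
theorem l1_close {n : ℕ} (hn : 0 < n) {A : Finset (Cube n)} (hA : IsUpperSet (A : Set (Cube n)))
    (hne : A.Nonempty) (α : ℝ) (hα : α = cubeMeasure A) (c κ : ℝ) (h : Cube n → ℝ)
    (h0 : ∀ x, 0 ≤ h x) (hc : ∀ x, h x ≤ c) (hκ : 0 ≤ κ) (hκc : κ ≤ c)
    (hS : ∑ x ∈ A, h x = κ * (A.card : ℝ)) (s : ℕ)
    (hs : (1 - α ^ 2 / (8 * n)) ^ s * c ^ 2 ≤ (κ / 4) ^ 2) :
    ∑ x ∈ A, |(step A)^[s] h x - κ| ≤ κ / 4 * (A.card : ℝ) := by
  have hcard : 0 < (A.card : ℝ) := by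
    exact_mod_cast Finset.card_pos.mpr hne
  have h1 := contract hn hA hne h κ hS s
  rw [← hα] at h1
  have h2 : ∑ x ∈ A, (h x - κ) ^ 2 ≤ c ^ 2 * (A.card : ℝ) := by
    have : ∑ x ∈ A, (h x - κ) ^ 2 ≤ ∑ x ∈ A, c ^ 2 := by
      apply Finset.sum_le_sum
      intro x _
      have := h0 x
      have := hc x
      apply sq_le_sq'
      · linarith
      · linarith
    simpa [mul_comm] using this
  have hα0 : 0 < α := by rw [hα]; unfold cubeMeasure; positivity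
  have hα1 : α ≤ 1 := by
    rw [hα]; unfold cubeMeasure
    rw [div_le_one (by positivity)]
    have := Finset.card_le_univ A
    have h3 : A.card ≤ 2 ^ n := by simpa using this
    exact_mod_cast h3
  have hn1 : (1 : ℝ) ≤ n := by exact_mod_cast hn
  have hfac : 0 ≤ 1 - α ^ 2 / (8 * n) := by
    rw [sub_nonneg, div_le_one (by positivity)]
    nlinarith
  have h3 : ∑ x ∈ A, ((step A)^[s] h x - κ) ^ 2 ≤ (κ / 4) ^ 2 * (A.card : ℝ) := by
    calc ∑ x ∈ A, ((step A)^[s] h x - κ) ^ 2 ≤ (1 - α ^ 2 / (8 * n)) ^ s * ∑ x ∈ A, (h x - κ) ^ 2 := h1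
      _ ≤ (1 - α ^ 2 / (8 * n)) ^ s * (c ^ 2 * (A.card : ℝ)) :=
          mul_le_mul_of_nonneg_left h2 (pow_nonneg hfac s)
      _ = ((1 - α ^ 2 / (8 * n)) ^ s * c ^ 2) * (A.card : ℝ) := by ring
      _ ≤ _ := mul_le_mul_of_nonneg_right hs hcard.le
  have h4 : (∑ x ∈ A, |(step A)^[s] h x - κ|) ^ 2 ≤
      (A.card : ℝ) * ∑ x ∈ A, |(step A)^[s] h x - κ| ^ 2 := sq_sum_le_card_mul_sum_sq
  simp only [sq_abs] at h4
  have h5 : (∑ x ∈ A, |(step A)^[s] h x - κ|) ^ 2 ≤ (κ / 4 * (A.card : ℝ)) ^ 2 := by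
    calc _ ≤ (A.card : ℝ) * ∑ x ∈ A, ((step A)^[s] h x - κ) ^ 2 := h4
      _ ≤ (A.card : ℝ) * ((κ / 4) ^ 2 * (A.card : ℝ)) := mul_le_mul_of_nonneg_left h3 hcard.le
      _ = _ := by ring
  have h6 : 0 ≤ κ / 4 * (A.card : ℝ) := by positivity
  exact le_of_sq_le_sq h5 h6

/-- if the density at time `t` has mass of low density then it dominates a nearly constant function
at all later times -/
theorem den_lower {n : ℕ} (hn : 0 < n) {A : Finset (Cube n)} (hA : IsUpperSet (A : Set (Cube n)))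
    (x0 : Cube n) (hx0 : x0 ∈ A) (α : ℝ) (hα : α = cubeMeasure A) (κ c : ℝ) (hκ : 0 ≤ κ)
    (hc0 : 0 ≤ c) (hκc : κ ≤ c) (t : ℕ)
    (ht : κ * (A.card : ℝ) ≤ ∑ x ∈ A.filter (fun x => den A x0 t x < c), den A x0 t x) (s : ℕ)
    (hs : (1 - α ^ 2 / (8 * n)) ^ s * c ^ 2 ≤ (κ / 4) ^ 2) :
    ∃ u : Cube n → ℝ, (∀ x ∈ A, u x ≤ den A x0 (t + s) x) ∧
      ∑ x ∈ A, |u x - κ| ≤ κ / 4 * (A.card : ℝ) := by
  obtain ⟨h, h0, h1, h2, h3⟩ := minorant A (den A x0 t) (den_nonneg A x0 t) κ c hκ ht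
  rw [max_eq_left hc0] at h2
  refine ⟨(step A)^[s] h, ?_, l1_close hn hA ⟨x0, hx0⟩ α hα c κ h h0 h2 hκ hκc h3 s hs⟩
  intro x hx
  rw [den_add]
  exact step_iter_mono hA s h (den A x0 t) (fun y _ => h1 y) x hx

theorem overlap {n : ℕ} (A : Finset (Cube n)) (f g u v : Cube n → ℝ) (κ : ℝ)
    (hf : ∀ x ∈ A, u x ≤ f x) (hg : ∀ x ∈ A, v x ≤ g x)
    (hu : ∑ x ∈ A, |u x - κ| ≤ κ / 4 * (A.card : ℝ))
    (hv : ∑ x ∈ A, |v x - κ| ≤ κ / 4 * (A.card : ℝ)) :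
    κ / 2 * (A.card : ℝ) ≤ ∑ x ∈ A, min (f x) (g x) := by
  have h1 : ∑ x ∈ A, (κ - |u x - κ| - |v x - κ|) ≤ ∑ x ∈ A, min (f x) (g x) := by
    apply Finset.sum_le_sum
    intro x hx
    have a1 := hf x hx
    have a2 := hg x hx
    have b1 := neg_abs_le (u x - κ)
    have b2 := neg_abs_le (v x - κ)
    have b3 := abs_nonneg (u x - κ)
    have b4 := abs_nonneg (v x - κ)
    apply le_min <;> linarith
  rw [Finset.sum_sub_distrib, Finset.sum_sub_distrib, Finset.sum_const, nsmul_eq_mul] at h1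
  nlinarith

/-- two starting points have overlap at time `T` -/
theorem overlap_at {n : ℕ} (hn : 0 < n) {A : Finset (Cube n)} (hA : IsUpperSet (A : Set (Cube n)))
    (α : ℝ) (hα : α = cubeMeasure A) (L : ℝ) (hL : L = 2048 / α ^ 2)
    (t1 : ℕ) (ht1 : ∀ t, t1 ≤ t → n * (1 - 1 / (n : ℝ)) ^ t ≤ α / 4)
    (m : ℕ) (hm : 262144 * n * (Nat.clog 2 n : ℝ) * Real.log L / α ^ 3 < m)
    (s : ℕ) (hs : (1 - α ^ 2 / (8 * n)) ^ s * (4 * lev L 0) ^ 2 ≤ (α / 8 / 4) ^ 2)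
    (x y : Cube n) (hx : x ∈ A) (hy : y ∈ A) :
    α / 16 * (A.card : ℝ) ≤ ∑ z ∈ A, min (den A x (t1 + m + s) z) (den A y (t1 + m + s) z) := by
  have hcard : 0 < (A.card : ℝ) := by
    exact_mod_cast Finset.card_pos.mpr ⟨x, hx⟩
  have hα0 : 0 < α := by rw [hα]; unfold cubeMeasure; positivity
  have hα1 : α ≤ 1 := by
    rw [hα]; unfold cubeMeasure
    rw [div_le_one (by positivity)]
    have := Finset.card_le_univ A
    have h3 : A.card ≤ 2 ^ n := by simpa using this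
    exact_mod_cast h3
  have hn1 : (1 : ℝ) ≤ n := by exact_mod_cast hn
  have hL1 : 1 ≤ L := by
    rw [hL, le_div_iff₀ (by positivity)]
    nlinarith
  have hlev : 1 ≤ lev L 0 := lev_pos L hL1 0
  have hfac0 : 0 ≤ 1 - α ^ 2 / (8 * n) := by
    rw [sub_nonneg, div_le_one (by positivity)]
    nlinarith
  have hfac1 : 1 - α ^ 2 / (8 * n) ≤ 1 := by
    have : 0 ≤ α ^ 2 / (8 * n) := by positivity
    linarith
  have key : ∀ w : Cube n, w ∈ A → ∃ u : Cube n → ℝ, (∀ z ∈ A, u z ≤ den A w (t1 + m + s) z) ∧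
      ∑ z ∈ A, |u z - α / 8| ≤ α / 8 / 4 * (A.card : ℝ) := by
    intro w hw
    obtain ⟨t, h1, h2, h3⟩ := low_time hn hA w hw α hα L hL t1 ht1 m hm
    obtain ⟨s', hs'⟩ : ∃ s', t1 + m + s = t + s' := ⟨t1 + m + s - t, by omega⟩
    have hss : s ≤ s' := by omega
    rw [hs']
    refine den_lower hn hA w hw α hα (α / 8) (4 * lev L 0) (by positivity) (by linarith)
      (by linarith) t h3 s' ?_
    refine le_trans (mul_le_mul_of_nonneg_right ?_ (by positivity)) hs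
    exact pow_le_pow_of_le_one hfac0 hfac1 hss
  obtain ⟨u, hu1, hu2⟩ := key x hx
  obtain ⟨v, hv1, hv2⟩ := key y hy
  have := overlap A _ _ u v (α / 8) hu1 hv1 hu2 hv2
  have e : α / 8 / 2 = α / 16 := by ring
  rw [e] at this
  exact this

end

end Pool.Agent.Lib.MP_52661b_pr
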