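import Pool.Agent.Lib.MP_52661b_pr.StepBasic

set_option autoImplicit false

namespace Pool.Agent.Lib.MP_52661b_pr

open Finset

theorem wi_flip_flip {n : ℕ} (x : Cube n) (i : Fin n) : flip (flip x i) i = x := by
  unfold flip
  simp

theorem propose_eq {n : ℕ} {A : Finset (Cube n)} (hA : IsUpperSet (A : Set (Cube n)))
    (x : A) (i : Fin n) (f : Cube n → ℝ) :
    (f x.1 + f (propose A x i).1) / 2 = eu A i f x.1 := by
  obtain ⟨x, hx⟩ := x
  by_cases h : Function.update x i false ∈ A
  · have ht := sb_upd_true hA i h
    rw [eu, if_pos h]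
    cases hxi : x i
    · have e1 : Function.update x i false = x := by rw [← hxi, Function.update_eq_self]
      have e2 : Function.update x i true = flip x i := by unfold flip; rw [hxi]; rfl
      have e3 : flip x i ∈ A := by rw [← e2]; exact ht
      have e4 : (propose A ⟨x, hx⟩ i).1 = flip x i := by unfold propose; rw [dif_pos e3]
      rw [e4, e1, e2]
    · have e1 : Function.update x i true = x := by rw [← hxi, Function.update_eq_self]
      have e2 : Function.update x i false = flip x i := by unfold flip; rw [hxi]; rfl
      have e3 : flip x i ∈ A := by rw [← e2]; exact h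
      have e4 : (propose A ⟨x, hx⟩ i).1 = flip x i := by unfold propose; rw [dif_pos e3]
      rw [e4, e1, e2, add_comm]
  · rw [eu, if_neg h]
    have hxi : x i = true := by
      cases hxi : x i
      · exfalso
        apply h
        rw [← hxi, Function.update_eq_self]
        exact hx
      · rfl
    have e2 : Function.update x i false = flip x i := by unfold flip; rw [hxi]; rfl
    have e3 : flip x i ∉ A := by rw [← e2]; exact h
    have e4 : (propose A ⟨x, hx⟩ i).1 = x := by unfold propose; rw [dif_neg e3]
    rw [e4]
    ring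

theorem wi_sum {n : ℕ} {A : Finset (Cube n)} (x : A) (g : A → ℝ) :
    ∑ y : A, censoredWalk A x y * g y =
      (1 / 2) * g x + (1 / 2) * ∑ i : Fin n, (1 / (n : ℝ)) * g (propose A x i) := by
  unfold censoredWalk
  simp_rw [add_mul]
  rw [Finset.sum_add_distrib]
  congr 1
  · simp_rw [mul_assoc]
    rw [← Finset.mul_sum]
    congr 1
    simp
  · simp_rw [mul_assoc]
    rw [← Finset.mul_sum]
    congr 1
    simp_rw [Finset.sum_mul]
    rw [Finset.sum_comm]
    refine Finset.sum_congr rfl fun i _ => ?_
    simp_rw [mul_assoc]
    rw [← Finset.mul_sum]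
    congr 1
    simp

/-- one step of the matrix -/
theorem walk_step {n : ℕ} (hn : 0 < n) {A : Finset (Cube n)}
    (hA : IsUpperSet (A : Set (Cube n))) (f : Cube n → ℝ) (x : A) :
    ∑ y : A, censoredWalk A x y * f y.1 = step A f x.1 := by
  rw [wi_sum x (fun y => f y.1), step]
  have h1 : ∀ i, eu A i f x.1 = (f x.1 + f (propose A x i).1) / 2 := fun i =>
    (propose_eq hA x i f).symm
  simp_rw [h1]
  have hn' : (n : ℝ) ≠ 0 := by positivity
  rw [← Finset.mul_sum, ← Finset.sum_div, Finset.sum_add_distrib]
  simp only [Finset.sum_const, Finset.card_univ, Fintype.card_fin, nsmul_eq_mul]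
  field_simp

theorem wi_propose_symm {n : ℕ} {A : Finset (Cube n)} (x y : A) (i : Fin n)
    (h : y = propose A x i) : x = propose A y i := by
  unfold propose at h ⊢
  by_cases hx : flip x.1 i ∈ A
  · rw [dif_pos hx] at h
    have h1 : flip y.1 i = x.1 := by rw [h]; exact wi_flip_flip x.1 i
    rw [dif_pos (by rw [h1]; exact x.2)]
    exact Subtype.ext h1.symm
  · rw [dif_neg hx] at h
    subst h
    rw [dif_neg hx]

theorem walk_symm {n : ℕ} {A : Finset (Cube n)} (x y : A) :
    censoredWalk A x y = censoredWalk A y x := by
  unfold censoredWalk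
  congr 2
  · simp only [eq_comm]
  · refine Finset.sum_congr rfl fun i _ => ?_
    congr 1
    by_cases h : y = propose A x i
    · rw [if_pos h, if_pos (wi_propose_symm x y i h)]
    · rw [if_neg h, if_neg (fun h' => h (wi_propose_symm y x i h'))]

/-- matrix powers versus iterates of `step` -/
theorem walk_iterate {n : ℕ} (hn : 0 < n) {A : Finset (Cube n)}
    (hA : IsUpperSet (A : Set (Cube n))) (x0 : A) (t : ℕ) (y : A) :
    (A.card : ℝ) * ((censoredWalk A) ^ t) x0 y =
      (step A)^[t] (fun z => if z = x0.1 then (A.card : ℝ) else 0) y.1 := by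
  induction t generalizing y with
  | zero =>
    rw [pow_zero, Matrix.one_apply, Function.iterate_zero, id]
    by_cases h : x0 = y
    · subst h; simp
    · have h' : ¬ y.1 = x0.1 := fun h' => h (Subtype.ext h'.symm)
      rw [if_neg h, if_neg h', mul_zero]
  | succ t ih =>
    rw [Function.iterate_succ_apply', ← walk_step hn hA, pow_succ, Matrix.mul_apply,
      Finset.mul_sum]
    refine Finset.sum_congr rfl fun z _ => ?_
    rw [← ih z, walk_symm y z]
    ring

/-- rows of the powers sum to one -/
theorem walk_row {n : ℕ} (hn : 0 < n) {A : Finset (Cube n)} (t : ℕ) (x : A) :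
    ∑ y : A, ((censoredWalk A) ^ t) x y = 1 := by
  have hn' : (n : ℝ) ≠ 0 := by positivity
  have h1 : ∀ x : A, ∑ y : A, censoredWalk A x y = 1 := by
    intro x
    have := wi_sum x (fun _ => (1 : ℝ))
    simp only [mul_one] at this
    rw [this]
    simp only [Finset.sum_const, Finset.card_univ, Fintype.card_fin, nsmul_eq_mul]
    field_simp
    norm_num
  induction t generalizing x with
  | zero => simp [Matrix.one_apply]
  | succ t ih =>
    simp_rw [pow_succ, Matrix.mul_apply]
    rw [Finset.sum_comm]
    simp_rw [← Finset.mul_sum, h1, mul_one]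
    exact ih x

theorem walk_nonneg {n : ℕ} {A : Finset (Cube n)} (t : ℕ) (x y : A) :
    0 ≤ ((censoredWalk A) ^ t) x y := by
  have h1 : ∀ x y : A, 0 ≤ censoredWalk A x y := by
    intro x y
    unfold censoredWalk
    refine add_nonneg (mul_nonneg (by norm_num) (by split_ifs <;> norm_num))
      (mul_nonneg (by norm_num) (Finset.sum_nonneg fun i _ => mul_nonneg (by positivity)
        (by split_ifs <;> norm_num)))
  induction t generalizing y with
  | zero =>
    rw [pow_zero, Matrix.one_apply]
    split_ifs <;> norm_num
  | succ t ih =>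
    rw [pow_succ, Matrix.mul_apply]
    exact Finset.sum_nonneg fun z _ => mul_nonneg (ih z) (h1 z y)

end Pool.Agent.Lib.MP_52661b_pr
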