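import Pool.Agent.Lib.MP_52661b_pr.FinalB
import Pool.Agent.Lib.MP_52661b_pr.WalkIter
import Pool.Agent.Lib.MP_52661b_pr.Dobrushin

set_option autoImplicit false

namespace Pool.Agent.Lib.MP_52661b_pr

open Finset

noncomputable section

theorem walk_pow_den {n : ℕ} (hn : 0 < n) {A : Finset (Cube n)}
    (hA : IsUpperSet (A : Set (Cube n))) (x0 : A) (t : ℕ) (y : A) :
    ((censoredWalk A) ^ t) x0 y = den A x0.1 t y.1 / (A.card : ℝ) := by
  have hcard : 0 < (A.card : ℝ) := by
    exact_mod_cast Finset.card_pos.mpr ⟨x0.1, x0.2⟩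
  rw [eq_div_iff hcard.ne', mul_comm]
  exact walk_iterate hn hA x0 t y

theorem walk_pow_symm {n : ℕ} {A : Finset (Cube n)} (t : ℕ) (x y : A) :
    ((censoredWalk A) ^ t) x y = ((censoredWalk A) ^ t) y x := by
  have h : (censoredWalk A).transpose = censoredWalk A := by
    ext a b
    rw [Matrix.transpose_apply]
    exact walk_symm b a
  have h2 : ((censoredWalk A) ^ t).transpose = (censoredWalk A) ^ t := by
    rw [Matrix.transpose_pow, h]
  rw [← Matrix.transpose_apply ((censoredWalk A) ^ t) y x, h2]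

theorem walk_col {n : ℕ} (hn : 0 < n) {A : Finset (Cube n)} (t : ℕ) (y : A) :
    ∑ x : A, ((censoredWalk A) ^ t) x y = 1 := by
  rw [← walk_row hn t y]
  apply Finset.sum_congr rfl
  intro x _
  exact walk_pow_symm t x y

/-- overlap of the rows of the `T`-th power -/
theorem walk_overlap {n : ℕ} (hn : 0 < n) {A : Finset (Cube n)}
    (hA : IsUpperSet (A : Set (Cube n))) (T : ℕ) (ε : ℝ)
    (h : ∀ x ∈ A, ∀ y ∈ A, ε * (A.card : ℝ) ≤ ∑ z ∈ A, min (den A x T z) (den A y T z))
    (x y : A) :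
    ε ≤ ∑ z : A, min (((censoredWalk A) ^ T) x z) (((censoredWalk A) ^ T) y z) := by
  have hcard : 0 < (A.card : ℝ) := by
    exact_mod_cast Finset.card_pos.mpr ⟨x.1, x.2⟩
  have h1 := h x.1 x.2 y.1 y.2
  have h2 : ∑ z : A, min (((censoredWalk A) ^ T) x z) (((censoredWalk A) ^ T) y z) =
      (∑ z ∈ A, min (den A x.1 T z) (den A y.1 T z)) / (A.card : ℝ) := by
    rw [← Finset.sum_coe_sort A (fun z => min (den A x.1 T z) (den A y.1 T z)), Finset.sum_div]
    apply Finset.sum_congr rfl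
    intro z _
    rw [walk_pow_den hn hA, walk_pow_den hn hA, min_div_div_right hcard.le]
  rw [h2, le_div_iff₀ hcard]
  exact h1

/-- iteration of the Dobrushin contraction -/
theorem dob_iter {n : ℕ} (hn : 0 < n) {A : Finset (Cube n)} (T : ℕ) (ε : ℝ)
    (hov : ∀ x y : A,
      ε ≤ ∑ z : A, min (((censoredWalk A) ^ T) x z) (((censoredWalk A) ^ T) y z))
    (hε1 : ε ≤ 1) (r : ℕ) (x : A) (j : ℕ) :
    ∑ z : A, |((censoredWalk A) ^ (r + j * T)) x z - 1 / (A.card : ℝ)| ≤ 2 * (1 - ε) ^ j := by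
  have hcard : 0 < (A.card : ℝ) := by
    exact_mod_cast Finset.card_pos.mpr ⟨x.1, x.2⟩
  have hs0 : ∀ t : ℕ, ∑ z : A, (((censoredWalk A) ^ t) x z - 1 / (A.card : ℝ)) = 0 := by
    intro t
    rw [Finset.sum_sub_distrib, walk_row hn t x, Finset.sum_const, Finset.card_univ,
      Fintype.card_coe, nsmul_eq_mul]
    field_simp
    norm_num
  induction j with
  | zero =>
    have h1 : ∀ z : A, |((censoredWalk A) ^ (r + 0 * T)) x z - 1 / (A.card : ℝ)| ≤
        ((censoredWalk A) ^ (r + 0 * T)) x z + 1 / (A.card : ℝ) := by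
      intro z
      have h2 := walk_nonneg (r + 0 * T) x z
      have h3 : 0 ≤ 1 / (A.card : ℝ) := by positivity
      rw [abs_le]
      constructor <;> linarith
    refine le_trans (Finset.sum_le_sum (fun z _ => h1 z)) ?_
    rw [Finset.sum_add_distrib, walk_row hn, Finset.sum_const, Finset.card_univ,
      Fintype.card_coe, nsmul_eq_mul]
    rw [mul_one_div_cancel hcard.ne']
    norm_num
  | succ j ih =>
    have hd := dobrushin ((censoredWalk A) ^ T) (fun a b => walk_nonneg T a b)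
      (fun a => walk_row hn T a) ε hov
      (fun z => ((censoredWalk A) ^ (r + j * T)) x z - 1 / (A.card : ℝ)) (hs0 _)
    have he : ∀ z : A, ∑ w : A, (((censoredWalk A) ^ (r + j * T)) x w - 1 / (A.card : ℝ)) *
        ((censoredWalk A) ^ T) w z =
        ((censoredWalk A) ^ (r + (j + 1) * T)) x z - 1 / (A.card : ℝ) := by
      intro z
      have e1 : r + (j + 1) * T = r + j * T + T := by ring
      rw [e1, pow_add (censoredWalk A) (r + j * T) T, Matrix.mul_apply]
      simp only [sub_mul]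
      rw [Finset.sum_sub_distrib, ← Finset.mul_sum, walk_col hn T z, mul_one]
    simp only [he] at hd
    calc _ ≤ (1 - ε) * ∑ z : A, |((censoredWalk A) ^ (r + j * T)) x z - 1 / (A.card : ℝ)| := hd
      _ ≤ (1 - ε) * (2 * (1 - ε) ^ j) := mul_le_mul_of_nonneg_left ih (by linarith)
      _ = _ := by ring

theorem mixed_of_overlap {n : ℕ} (hn : 0 < n) {A : Finset (Cube n)} (T : ℕ) (ε : ℝ)
    (hov : ∀ x y : A,
      ε ≤ ∑ z : A, min (((censoredWalk A) ^ T) x z) (((censoredWalk A) ^ T) y z))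
    (hε1 : ε ≤ 1) (j : ℕ) (hj : (1 - ε) ^ j ≤ 1 / 4) (t : ℕ) (ht : j * T ≤ t) :
    IsMixed A t := by
  intro x
  obtain ⟨r, hr⟩ : ∃ r, t = r + j * T := ⟨t - j * T, by omega⟩
  have h := dob_iter hn T ε hov hε1 r x j
  unfold tvDist
  rw [hr]
  linarith

end

end Pool.Agent.Lib.MP_52661b_pr
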