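import Pool.Agent.Lib.MP_52661b_pr.FinalC

set_option autoImplicit false

namespace Pool.Agent.Lib.MP_52661b_pr

open Finset

noncomputable section

theorem pow_le_of_log (x y : ℝ) (_ : 0 ≤ x) (hx1 : x ≤ 1) (hy : 0 < y) (t : ℕ)
    (ht : Real.log (1 / y) ≤ t * x) : (1 - x) ^ t ≤ y := by
  have h1 : 1 - x ≤ Real.exp (-x) := by
    have := Real.add_one_le_exp (-x)
    linarith
  have h2 : (1 - x) ^ t ≤ Real.exp (-x) ^ t := pow_le_pow_left₀ (by linarith) h1 t
  rw [← Real.exp_nat_mul] at h2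
  have h3 : Real.exp ((t : ℝ) * -x) ≤ Real.exp (Real.log y) := by
    apply Real.exp_le_exp.mpr
    rw [one_div, Real.log_inv] at ht
    linarith
  rw [Real.exp_log hy] at h3
  linarith

theorem mixing_aux {n : ℕ} (hn : 2 ≤ n) {A : Finset (Cube n)} (hA : IsUpperSet (A : Set (Cube n)))
    (hne : A.Nonempty) (t : ℕ)
    (ht : 210000000 * (1 / cubeMeasure A) ^ 5 * (n * Real.log n) ≤ t) : IsMixed A t := by
  have hcard : 0 < (A.card : ℝ) := by
    exact_mod_cast Finset.card_pos.mpr hne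
  set α := cubeMeasure A with hα
  have hα0 : 0 < α := by rw [hα]; unfold cubeMeasure; positivity
  have hα1 : α ≤ 1 := by
    rw [hα]; unfold cubeMeasure
    rw [div_le_one (by positivity)]
    have := Finset.card_le_univ A
    have h3 : A.card ≤ 2 ^ n := by simpa using this
    exact_mod_cast h3
  have hn0 : 0 < n := by omega
  have hn2 : (2 : ℝ) ≤ n := by exact_mod_cast hn
  have hn1 : (1 : ℝ) ≤ n := by linarith
  have hnp : (0 : ℝ) < n := by linarith
  have l2a : (0.6931471803 : ℝ) < Real.log 2 := Real.log_two_gt_d9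
  have l2b : Real.log 2 < (0.6931471808 : ℝ) := Real.log_two_lt_d9
  set β := 1 / α with hβ
  have hβ1 : 1 ≤ β := by rw [hβ, le_div_iff₀ hα0]; linarith
  have hαβ : α * β = 1 := by rw [hβ]; field_simp
  set ℓ := Real.log n with hℓ
  have hℓ0 : 0.6931 ≤ ℓ := by
    have : Real.log 2 ≤ Real.log n := Real.log_le_log (by norm_num) hn2
    linarith
  set L := 2048 / α ^ 2 with hL
  have hLβ : L = 2048 * β ^ 2 := by rw [hL, hβ]; field_simp
  have hLpos : 0 < L := by rw [hLβ]; positivity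
  have hlogβ : Real.log β ≤ β - 1 := Real.log_le_sub_one_of_pos (by linarith)
  have hlogβ0 : 0 ≤ Real.log β := Real.log_nonneg hβ1
  have hlogL : Real.log L = 11 * Real.log 2 + 2 * Real.log β := by
    rw [hLβ, Real.log_mul (by norm_num) (by positivity), Real.log_pow]
    have : (2048 : ℝ) = 2 ^ 11 := by norm_num
    rw [this, Real.log_pow]
    push_cast
    ring
  have hlogL8 : Real.log L ≤ 8 * β := by rw [hlogL]; linarith
  have hlogL0 : 0 ≤ Real.log L := by rw [hlogL]; linarith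
  set K := Nat.clog 2 n with hK
  have hKl : (K : ℝ) ≤ 3 * ℓ := clog_le n hn
  have hK0 : (0 : ℝ) ≤ K := by positivity
  -- parameters
  set t1 := ⌈(n : ℝ) * Real.log (4 * n * β)⌉₊ with ht1def
  set m := ⌊262144 * n * (K : ℝ) * Real.log L / α ^ 3⌋₊ + 1 with hmdef
  set s := ⌈(8 * n / α ^ 2) * Real.log (16384 * L ^ 8 / α ^ 2)⌉₊ with hsdef
  set j := ⌈32 * β⌉₊ with hjdef
  have hm : 262144 * n * (K : ℝ) * Real.log L / α ^ 3 < m := by
    rw [hmdef]
    push_cast
    exact Nat.lt_floor_add_one _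
  have ht1 : ∀ t, t1 ≤ t → n * (1 - 1 / (n : ℝ)) ^ t ≤ α / 4 := by
    intro t htt
    have h1 : (n : ℝ) * Real.log (4 * n * β) ≤ t := by
      have h2 : (n : ℝ) * Real.log (4 * n * β) ≤ (t1 : ℝ) := Nat.le_ceil _
      have h3 : (t1 : ℝ) ≤ t := by exact_mod_cast htt
      linarith
    have h2 : (1 - 1 / (n : ℝ)) ^ t ≤ α / (4 * n) := by
      apply pow_le_of_log (1 / (n : ℝ)) (α / (4 * n)) (by positivity)
        (by rw [div_le_one hnp]; exact hn1) (by positivity)
      have e : 1 / (α / (4 * n)) = 4 * n * β := by rw [hβ]; field_simp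
      have e2 : (t : ℝ) * (1 / (n : ℝ)) = t / n := by ring
      rw [e, e2, le_div_iff₀ hnp]
      linarith
    calc n * (1 - 1 / (n : ℝ)) ^ t ≤ n * (α / (4 * n)) := mul_le_mul_of_nonneg_left h2 hnp.le
      _ = α / 4 := by field_simp
  have hlev0 : lev L 0 = L ^ 4 := by unfold lev; norm_num
  have hs : (1 - α ^ 2 / (8 * n)) ^ s * (4 * lev L 0) ^ 2 ≤ (α / 8 / 4) ^ 2 := by
    have h1 : (1 - α ^ 2 / (8 * n)) ^ s ≤ α ^ 2 / (16384 * L ^ 8) := by
      apply pow_le_of_log _ _ (by positivity) (by rw [div_le_one (by positivity)]; nlinarith)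
        (by positivity)
      have e : 1 / (α ^ 2 / (16384 * L ^ 8)) = 16384 * L ^ 8 / α ^ 2 := by
        rw [one_div_div]
      rw [e]
      have h2 : (8 * n / α ^ 2) * Real.log (16384 * L ^ 8 / α ^ 2) ≤ (s : ℝ) := Nat.le_ceil _
      have h3 : (8 * n / α ^ 2) * Real.log (16384 * L ^ 8 / α ^ 2) * (α ^ 2 / (8 * n)) ≤
          (s : ℝ) * (α ^ 2 / (8 * n)) := mul_le_mul_of_nonneg_right h2 (by positivity)
      have h4 : (8 * n / α ^ 2) * Real.log (16384 * L ^ 8 / α ^ 2) * (α ^ 2 / (8 * n)) =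
          Real.log (16384 * L ^ 8 / α ^ 2) := by
        field_simp
      linarith
    rw [hlev0]
    calc (1 - α ^ 2 / (8 * n)) ^ s * (4 * L ^ 4) ^ 2 ≤ α ^ 2 / (16384 * L ^ 8) * (4 * L ^ 4) ^ 2 :=
          mul_le_mul_of_nonneg_right h1 (by positivity)
      _ = (α / 8 / 4) ^ 2 := by field_simp; norm_num
  have hov : ∀ x y : A, α / 16 ≤ ∑ z : A, min (((censoredWalk A) ^ (t1 + m + s)) x z)
      (((censoredWalk A) ^ (t1 + m + s)) y z) := by
    intro x y
    apply walk_overlap hn0 hA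
    intro x hx y hy
    exact overlap_at hn0 hA α hα L hL t1 ht1 m hm s hs x y hx hy
  have hj : (1 - α / 16) ^ j ≤ 1 / 4 := by
    apply pow_le_of_log _ _ (by positivity) (by linarith) (by norm_num)
    have h1 : 32 * β ≤ (j : ℝ) := Nat.le_ceil _
    have h2 : 32 * β * (α / 16) ≤ (j : ℝ) * (α / 16) := mul_le_mul_of_nonneg_right h1 (by positivity)
    have h3 : 32 * β * (α / 16) = 2 := by
      have : 32 * β * (α / 16) = 2 * (α * β) := by ring
      rw [this, hαβ]; norm_num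
    have h4 : Real.log (1 / (1 / 4)) = 2 * Real.log 2 := by
      have : (1 / (1 / 4) : ℝ) = 2 ^ 2 := by norm_num
      rw [this, Real.log_pow]; push_cast; ring
    rw [h4]
    linarith
  refine mixed_of_overlap hn0 (t1 + m + s) (α / 16) hov (by linarith) j hj t ?_
  -- numerical bound
  have hβ4 : 1 ≤ β ^ 4 := one_le_pow₀ hβ1
  have hβ3 : 1 ≤ β ^ 3 := one_le_pow₀ hβ1
  have hβ34 : β ^ 3 ≤ β ^ 4 := pow_le_pow_right₀ hβ1 (by norm_num)
  have hβ14 : β ≤ β ^ 4 := by
    calc β = β ^ 1 := (pow_one β).symm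
      _ ≤ β ^ 4 := pow_le_pow_right₀ hβ1 (by norm_num)
  set X := (n : ℝ) * ℓ * β ^ 4 with hX
  have hnℓ : (1 : ℝ) ≤ n * ℓ := by nlinarith
  have hX1 : 1 ≤ X := by
    rw [hX]; nlinarith
  have hnX : (n : ℝ) * β ^ 4 ≤ 1.5 * X := by
    rw [hX]
    have : (n : ℝ) * β ^ 4 * 1 ≤ (n : ℝ) * β ^ 4 * (1.5 * ℓ) :=
      mul_le_mul_of_nonneg_left (by linarith) (by positivity)
    linarith
  have hb1 : (t1 : ℝ) ≤ 5 * X := by
    have h1 : (t1 : ℝ) < (n : ℝ) * Real.log (4 * n * β) + 1 := by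
      apply Nat.ceil_lt_add_one
      apply mul_nonneg hnp.le
      apply Real.log_nonneg
      nlinarith
    have h2 : Real.log (4 * n * β) = 2 * Real.log 2 + ℓ + Real.log β := by
      rw [Real.log_mul (by positivity) (by positivity), Real.log_mul (by norm_num) (by positivity)]
      have : (4 : ℝ) = 2 ^ 2 := by norm_num
      rw [this, Real.log_pow]
      push_cast
      ring
    rw [h2] at h1
    have h3 : (n : ℝ) * (2 * Real.log 2 + ℓ + Real.log β) ≤ n * (1.3863 * β ^ 4 + ℓ * β ^ 4) := by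
      apply mul_le_mul_of_nonneg_left _ hnp.le
      have : ℓ ≤ ℓ * β ^ 4 := by nlinarith
      nlinarith
    have h4 : (n : ℝ) * (1.3863 * β ^ 4 + ℓ * β ^ 4) = 1.3863 * (n * β ^ 4) + X := by
      rw [hX]; ring
    linarith
  have hb2 : (m : ℝ) ≤ 6291457 * X := by
    have h1 : (m : ℝ) ≤ 262144 * n * (K : ℝ) * Real.log L / α ^ 3 + 1 := by
      rw [hmdef]
      push_cast
      have := Nat.floor_le (a := 262144 * n * (K : ℝ) * Real.log L / α ^ 3) (by positivity)
      linarith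
    have h2 : 262144 * n * (K : ℝ) * Real.log L / α ^ 3 = 262144 * n * β ^ 3 * (K * Real.log L) := by
      rw [hβ]; field_simp
    have h3 : (K : ℝ) * Real.log L ≤ (3 * ℓ) * (8 * β) :=
      mul_le_mul hKl hlogL8 hlogL0 (by linarith)
    have h4 : 262144 * n * β ^ 3 * (K * Real.log L) ≤ 262144 * n * β ^ 3 * ((3 * ℓ) * (8 * β)) :=
      mul_le_mul_of_nonneg_left h3 (by positivity)
    have h5 : 262144 * n * β ^ 3 * ((3 * ℓ) * (8 * β)) = 6291456 * X := by rw [hX]; ring
    linarith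
  have hb3 : (s : ℝ) ≤ 912 * X := by
    have e1 : (16384 * L ^ 8 / α ^ 2 : ℝ) = 16384 * L ^ 8 * β ^ 2 := by
      rw [hβ]; field_simp
    have h2 : Real.log (16384 * L ^ 8 * β ^ 2) = 14 * Real.log 2 + 8 * Real.log L + 2 * Real.log β := by
      rw [Real.log_mul (by positivity) (by positivity), Real.log_mul (by norm_num) (by positivity),
        Real.log_pow, Real.log_pow]
      have : (16384 : ℝ) = 2 ^ 14 := by norm_num
      rw [this, Real.log_pow]
      push_cast
      ring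
    have h1 : (s : ℝ) < (8 * n / α ^ 2) * Real.log (16384 * L ^ 8 / α ^ 2) + 1 := by
      apply Nat.ceil_lt_add_one
      rw [e1, h2]
      apply mul_nonneg (by positivity)
      linarith
    rw [e1, h2] at h1
    have h3 : 14 * Real.log 2 + 8 * Real.log L + 2 * Real.log β ≤ 75.8 * β := by
      linarith
    have e2 : (8 * n / α ^ 2 : ℝ) = 8 * n * β ^ 2 := by rw [hβ]; field_simp
    rw [e2] at h1
    have h4 : 8 * n * β ^ 2 * (14 * Real.log 2 + 8 * Real.log L + 2 * Real.log β) ≤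
        8 * n * β ^ 2 * (75.8 * β) := mul_le_mul_of_nonneg_left h3 (by positivity)
    have h5 : 8 * n * β ^ 2 * (75.8 * β) = 606.4 * (n * β ^ 3) := by ring
    have h6 : (n : ℝ) * β ^ 3 ≤ n * β ^ 4 := mul_le_mul_of_nonneg_left hβ34 hnp.le
    linarith
  have hbj : (j : ℝ) ≤ 33 * β := by
    have h1 : (j : ℝ) < 32 * β + 1 := Nat.ceil_lt_add_one (by positivity)
    linarith
  have hT : ((t1 + m + s : ℕ) : ℝ) ≤ 6292374 * X := by
    push_cast
    linarith
  have hprod : ((j * (t1 + m + s) : ℕ) : ℝ) ≤ 33 * β * (6292374 * X) := by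
    push_cast
    push_cast at hT
    exact mul_le_mul hbj hT (by positivity) (by positivity)
  have hfin : 33 * β * (6292374 * X) ≤ 210000000 * β ^ 5 * (n * ℓ) := by
    have e : 33 * β * (6292374 * X) = 207648342 * (β ^ 5 * (n * ℓ)) := by rw [hX]; ring
    rw [e]
    have : 0 ≤ β ^ 5 * (n * ℓ) := by positivity
    linarith
  have : ((j * (t1 + m + s) : ℕ) : ℝ) ≤ (t : ℝ) := by linarith
  exact_mod_cast this

end

end Pool.Agent.Lib.MP_52661b_pr
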