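import Pool.Agent.Lib.MP_52661b_pr.Defs

set_option autoImplicit false

namespace Pool.Agent.Lib.MP_52661b_pr

open Finset

private theorem eu_univ {n : ℕ} (i : Fin n) (f : Cube n → ℝ) (x : Cube n) :
    eu univ i f x = (f (Function.update x i false) + f (Function.update x i true)) / 2 := by
  simp [eu]

private theorem pair_eq {n : ℕ} (f : Cube n → ℝ) (x : Cube n) (i : Fin n) :
    f (Function.update x i false) + f (Function.update x i true) = f x + f (flip x i) := by
  cases hx : x i
  · have h1 : Function.update x i false = x := by rw [← hx, Function.update_eq_self]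
    have h2 : flip x i = Function.update x i true := by rw [flip, hx]; rfl
    rw [h1, h2]
  · have h1 : Function.update x i true = x := by rw [← hx, Function.update_eq_self]
    have h2 : flip x i = Function.update x i false := by rw [flip, hx]; rfl
    rw [h1, h2, add_comm]

private theorem flip_flip {n : ℕ} (i : Fin n) : Function.Involutive (fun x : Cube n => flip x i) := by
  intro x
  simp [flip]

private theorem sum_flip {n : ℕ} (f : Cube n → ℝ) (i : Fin n) :
    ∑ x : Cube n, f (flip x i) = ∑ x : Cube n, f x :=
  Equiv.sum_comp (flip_flip i).toPerm f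

private theorem sum_eu {n : ℕ} (i : Fin n) (f : Cube n → ℝ) :
    ∑ x : Cube n, eu univ i f x = ∑ x : Cube n, f x := by
  simp only [eu_univ, pair_eq]
  rw [← Finset.sum_div, Finset.sum_add_distrib, sum_flip]
  ring

private theorem sum_step {n : ℕ} (hn : 0 < n) (f : Cube n → ℝ) :
    ∑ x : Cube n, step univ f x = ∑ x : Cube n, f x := by
  have hn' : (n : ℝ) ≠ 0 := by exact_mod_cast hn.ne'
  simp only [step]
  rw [← Finset.mul_sum, Finset.sum_comm]
  simp only [sum_eu]
  rw [Finset.sum_const, Finset.card_univ, Fintype.card_fin, nsmul_eq_mul]
  field_simp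

private theorem sum_iter {n : ℕ} (hn : 0 < n) (f : Cube n → ℝ) (t : ℕ) :
    ∑ x : Cube n, (step univ)^[t] f x = ∑ x : Cube n, f x := by
  induction t with
  | zero => rfl
  | succ t ih => rw [Function.iterate_succ_apply', sum_step hn, ih]

private theorem osc_eu {n : ℕ} (f : Cube n → ℝ) (d : ℝ)
    (h : ∀ i x, |f (Function.update x i false) - f (Function.update x i true)| ≤ d)
    (i j : Fin n) (x : Cube n) :
    |eu univ j f (Function.update x i false) - eu univ j f (Function.update x i true)| ≤
      if j = i then 0 else d := by
  split_ifs with hij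
  · subst hij
    simp [eu_univ]
  · have hc : ∀ b c : Bool, Function.update (Function.update x i b) j c =
        Function.update (Function.update x j c) i b := fun b c =>
      Function.update_comm (Ne.symm hij) _ _ _
    rw [eu_univ, eu_univ, hc, hc, hc, hc]
    have h1 := h i (Function.update x j false)
    have h2 := h i (Function.update x j true)
    rw [abs_le] at *
    constructor <;> linarith [h1.1, h1.2, h2.1, h2.2]

private theorem osc_step {n : ℕ} (hn : 0 < n) (f : Cube n → ℝ) (d : ℝ)
    (h : ∀ i x, |f (Function.update x i false) - f (Function.update x i true)| ≤ d)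
    (i : Fin n) (x : Cube n) :
    |step univ f (Function.update x i false) - step univ f (Function.update x i true)| ≤
      d * (1 - 1 / (n : ℝ)) := by
  have hn' : (0 : ℝ) < n := by exact_mod_cast hn
  have h1 : step univ f (Function.update x i false) - step univ f (Function.update x i true) =
      (1 / (n : ℝ)) * ∑ j : Fin n, (eu univ j f (Function.update x i false) -
        eu univ j f (Function.update x i true)) := by
    rw [step, step, Finset.sum_sub_distrib]
    ring
  rw [h1, abs_mul, abs_of_nonneg (by positivity : (0 : ℝ) ≤ 1 / (n : ℝ))]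
  have h2 : |∑ j : Fin n, (eu univ j f (Function.update x i false) -
        eu univ j f (Function.update x i true))| ≤ ∑ j : Fin n, (if j = i then 0 else d) :=
    (Finset.abs_sum_le_sum_abs _ _).trans (Finset.sum_le_sum fun j _ => osc_eu f d h i j x)
  have h3 : ∑ j : Fin n, (if j = i then 0 else d) = d * (n - 1) := by
    have : ∀ j : Fin n, (if j = i then 0 else d) = d - (if j = i then d else 0) := by
      intro j
      split_ifs <;> ring
    simp only [this, Finset.sum_sub_distrib, Finset.sum_const, Finset.card_univ,
      Fintype.card_fin, nsmul_eq_mul, Finset.sum_ite_eq', Finset.mem_univ, if_true]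
    ring
  rw [h3] at h2
  calc (1 / (n : ℝ)) * |∑ j : Fin n, (eu univ j f (Function.update x i false) -
        eu univ j f (Function.update x i true))| ≤ (1 / (n : ℝ)) * (d * (n - 1)) :=
        mul_le_mul_of_nonneg_left h2 (by positivity)
    _ = d * (1 - 1 / (n : ℝ)) := by
        field_simp

private theorem osc_iter {n : ℕ} (hn : 0 < n) (f : Cube n → ℝ) (d : ℝ)
    (h : ∀ i x, |f (Function.update x i false) - f (Function.update x i true)| ≤ d) (t : ℕ) :
    ∀ i x, |(step univ)^[t] f (Function.update x i false) -
      (step univ)^[t] f (Function.update x i true)| ≤ d * (1 - 1 / (n : ℝ)) ^ t := by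
  induction t with
  | zero => simpa using h
  | succ t ih =>
    intro i x
    rw [Function.iterate_succ_apply']
    refine (osc_step hn _ _ ih i x).trans (le_of_eq ?_)
    rw [pow_succ]
    ring

private theorem path {n : ℕ} (f : Cube n → ℝ) (d : ℝ)
    (h : ∀ i x, |f (Function.update x i false) - f (Function.update x i true)| ≤ d)
    (S : Finset (Fin n)) :
    ∀ x y : Cube n, (∀ j, j ∉ S → x j = y j) → |f x - f y| ≤ S.card * d := by
  induction S using Finset.induction_on with
  | empty =>
    intro x y hxy
    have : x = y := funext fun j => hxy j (Finset.notMem_empty j)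
    rw [this]
    simp
  | insert i S hi ih =>
    intro x y hxy
    have h1 := ih (Function.update x i (y i)) y (by
      intro j hj
      by_cases hji : j = i
      · subst hji
        simp
      · rw [Function.update_of_ne hji]
        apply hxy
        simp [hji, hj])
    have h2 : |f x - f (Function.update x i (y i))| ≤ d := by
      have hd := (abs_nonneg _).trans (h i x)
      have e : Function.update x i (x i) = x := Function.update_eq_self i x
      have h3 := h i x
      cases hx : x i <;> cases hy : y i
      · rw [hx] at e
        rw [e, sub_self, abs_zero]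
        exact hd
      · rw [hx] at e
        rw [e] at h3
        exact h3
      · rw [hx] at e
        rw [e, abs_sub_comm] at h3
        exact h3
      · rw [hx] at e
        rw [e, sub_self, abs_zero]
        exact hd
    rw [Finset.card_insert_of_notMem hi]
    push_cast
    have h4 : f x - f y = (f x - f (Function.update x i (y i))) +
      (f (Function.update x i (y i)) - f y) := by ring
    rw [h4]
    refine (abs_add_le _ _).trans ?_
    linarith

/-- the free walk (`step univ`) mixes: all coordinates are refreshed -/
theorem free_mix {n : ℕ} (hn : 0 < n) (h : Cube n → ℝ) (h0 : ∀ x, 0 ≤ h x) (h1 : ∀ x, h x ≤ 1)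
    (t : ℕ) (x : Cube n) :
    (∑ y, h y) / 2 ^ n - n * (1 - 1 / (n : ℝ)) ^ t ≤ (step univ)^[t] h x := by
  have hosc : ∀ i x, |h (Function.update x i false) - h (Function.update x i true)| ≤ 1 := by
    intro i x
    rw [abs_le]
    constructor <;> linarith [h0 (Function.update x i false), h1 (Function.update x i false),
      h0 (Function.update x i true), h1 (Function.update x i true)]
  have h2 := osc_iter hn h 1 hosc t
  have h3 := path ((step univ)^[t] h) _ h2 univ
  have h4 : ∀ y, (step univ)^[t] h y - n * (1 - 1 / (n : ℝ)) ^ t ≤ (step univ)^[t] h x := by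
    intro y
    have := h3 x y (fun j hj => absurd (Finset.mem_univ j) hj)
    rw [Finset.card_univ, Fintype.card_fin, abs_le] at this
    linarith [this.1]
  have h5 : ∑ y : Cube n, ((step univ)^[t] h y - n * (1 - 1 / (n : ℝ)) ^ t) ≤
      ∑ _y : Cube n, (step univ)^[t] h x := Finset.sum_le_sum fun y _ => h4 y
  rw [Finset.sum_sub_distrib, sum_iter hn, Finset.sum_const, Finset.sum_const,
    Finset.card_univ, nsmul_eq_mul, nsmul_eq_mul] at h5
  have h6 : ((Fintype.card (Cube n) : ℕ) : ℝ) = 2 ^ n := by
    simp [Cube]
  rw [h6] at h5
  have h7 : (0 : ℝ) < 2 ^ n := by positivity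
  rw [sub_le_iff_le_add, div_le_iff₀ h7]
  linarith

end Pool.Agent.Lib.MP_52661b_pr
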