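import Pool.Agent.Lib.MP_52661b_pr.Defs

set_option autoImplicit false

namespace Pool.Agent.Lib.MP_52661b_pr

open Finset

theorem nw_card_compl {n : ℕ} (R : Finset (Fin n)) :
    ((univ : Finset (Fin n)) \ R).card = n - R.card := by
  rw [card_sdiff_of_subset (subset_univ R), card_univ, Fintype.card_fin]

theorem sum_wt {n : ℕ} (p : ℝ) : ∑ R : Finset (Fin n), wt n p R = 1 := by
  have h := Finset.sum_pow_mul_eq_add_pow p (1 - p) (univ : Finset (Fin n))
  rw [card_univ, Fintype.card_fin, add_sub_cancel, one_pow, powerset_univ] at h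
  exact h

theorem wt_nonneg {n : ℕ} (p : ℝ) (h0 : 0 ≤ p) (h1 : p ≤ 1) (R : Finset (Fin n)) :
    0 ≤ wt n p R := by
  unfold wt
  have : 0 ≤ 1 - p := by linarith
  positivity

theorem nw_mem {n : ℕ} (p : ℝ) (i : Fin n) :
    ∑ R : Finset (Fin n), (if i ∈ R then wt n p R else 0) = p := by
  classical
  have h := Finset.prod_add (fun _ : Fin n => p) (fun j : Fin n => if j ≠ i then 1 - p else 0)
    (univ : Finset (Fin n))
  rw [powerset_univ] at h
  have h1 : ∀ R : Finset (Fin n), (∏ _j ∈ R, p) *
      ∏ j ∈ univ \ R, (if j ≠ i then 1 - p else 0) = if i ∈ R then wt n p R else 0 := by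
    intro R
    rw [Finset.prod_ite_zero, prod_const, prod_const, nw_card_compl]
    by_cases hi : i ∈ R
    · rw [if_pos hi, if_pos]
      · rfl
      · intro j hj hji
        rw [hji, mem_sdiff] at hj
        exact hj.2 hi
    · rw [if_neg hi, if_neg, mul_zero]
      intro hall
      exact hall i (mem_sdiff.2 ⟨mem_univ i, hi⟩) rfl
  rw [sum_congr rfl fun R _ => h1 R] at h
  rw [← h, Finset.prod_eq_single i]
  · simp
  · intro j _ hj
    rw [if_pos hj]
    ring
  · intro hi
    exact absurd (mem_univ i) hi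

theorem sum_wt_mem {n : ℕ} (p : ℝ) (e : Fin n → ℝ) :
    ∑ R : Finset (Fin n), wt n p R * ∑ i ∈ R, e i = p * ∑ i, e i := by
  classical
  have h1 : ∀ R : Finset (Fin n), wt n p R * ∑ i ∈ R, e i =
      ∑ i, (if i ∈ R then wt n p R else 0) * e i := by
    intro R
    rw [mul_sum, ← Finset.sum_filter_add_sum_filter_not (univ : Finset (Fin n)) (fun i => i ∈ R)]
    have h2 : ∑ i ∈ univ.filter (fun i => i ∉ R), (if i ∈ R then wt n p R else 0) * e i = 0 := by
      refine sum_eq_zero fun i hi => ?_
      rw [mem_filter] at hi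
      rw [if_neg hi.2, zero_mul]
    rw [h2, add_zero, Finset.filter_univ_mem]
    exact sum_congr rfl fun i hi => by rw [if_pos hi]
  rw [sum_congr rfl fun R _ => h1 R, sum_comm, mul_sum]
  refine sum_congr rfl fun i _ => ?_
  rw [← sum_mul, nw_mem]

/-- expansion of the noise operator over random blocks -/
theorem sum_wt_favg {n : ℕ} (p : ℝ) (F : Cube n → ℝ) (x : Cube n) :
    ∑ R : Finset (Fin n), wt n p R * favg R F x = noise (1 - p) F x := by
  classical
  have h1 : ∀ R : Finset (Fin n), wt n p R * favg R F x =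
      ∑ y : Cube n, (∏ _i ∈ R, p / 2) * (∏ i ∈ univ \ R, if y i = x i then 1 - p else 0) * F y := by
    intro R
    unfold favg fib
    rw [sum_filter, sum_div, mul_sum]
    refine sum_congr rfl fun y _ => ?_
    rw [Finset.prod_ite_zero, prod_const, prod_const, nw_card_compl]
    have h3 : (∀ j, j ∉ R → y j = x j) ↔ ∀ i ∈ univ \ R, y i = x i := by
      constructor
      · intro h i hi
        exact h i (mem_sdiff.1 hi).2
      · intro h i hi
        exact h i (mem_sdiff.2 ⟨mem_univ i, hi⟩)
    by_cases hy : ∀ j, j ∉ R → y j = x j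
    · rw [if_pos hy, if_pos (h3.1 hy)]
      unfold wt
      rw [div_pow]
      ring
    · rw [if_neg hy, if_neg (fun h => hy (h3.2 h))]
      ring
  rw [sum_congr rfl fun R _ => h1 R, sum_comm]
  unfold noise
  refine sum_congr rfl fun y _ => ?_
  rw [← sum_mul]
  congr 1
  have h := Finset.prod_add (fun _ : Fin n => p / 2) (fun i : Fin n => if y i = x i then 1 - p else 0)
    (univ : Finset (Fin n))
  rw [powerset_univ] at h
  rw [← h]
  unfold ker
  refine prod_congr rfl fun i _ => ?_
  by_cases hxy : x i = y i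
  · rw [if_pos hxy, if_pos hxy.symm]
    ring
  · rw [if_neg hxy, if_neg (fun h => hxy h.symm)]
    ring

end Pool.Agent.Lib.MP_52661b_pr
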