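import Pool.Agent.Lib.MP_52661b_pr.L2Small

set_option autoImplicit false

namespace Pool.Agent.Lib.MP_52661b_pr

open Finset

private theorem ss_half (k : ℕ) : (1 - 1 / 2 ^ k : ℝ) ^ 2 ^ k ≤ 1 / 2 := by
  rcases Nat.eq_zero_or_pos k with rfl | hk
  · norm_num
  · have h2 : (2 : ℝ) ≤ 2 ^ k := by
      calc (2 : ℝ) = 2 ^ 1 := by norm_num
        _ ≤ 2 ^ k := pow_le_pow_right₀ (by norm_num) hk
    have hpos : (0 : ℝ) < 2 ^ k := by positivity
    set x : ℝ := 1 / 2 ^ k with hx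
    have hx0 : 0 < x := by positivity
    have hx1 : x ≤ 1 / 2 := by
      rw [hx]
      exact one_div_le_one_div_of_le (by norm_num) h2
    have h3 : (1 + x) ^ 2 ^ k ≥ 1 + (2 ^ k : ℕ) * x :=
      one_add_mul_le_pow (by linarith) _
    have h4 : ((2 ^ k : ℕ) : ℝ) * x = 1 := by
      rw [hx]
      push_cast
      field_simp
    rw [h4] at h3
    have h5 : (1 - x) ^ 2 ^ k * (1 + x) ^ 2 ^ k ≤ 1 := by
      rw [← mul_pow]
      apply pow_le_one₀
      · nlinarith
      · nlinarith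
    have h6 : 0 ≤ (1 - x) ^ 2 ^ k := pow_nonneg (by linarith) _
    nlinarith

/-- small set expansion for the noise operator with survival probability `1 - 2^{-k}` -/
theorem small_set {n : ℕ} (k : ℕ) (L : ℝ) (hL : 1 ≤ L) (F : Cube n → ℝ) (hF : ∀ x, 0 ≤ F x)
    (hsupp : (((univ.filter (fun x => F x ≠ 0)).card : ℕ) : ℝ) * lev L k ≤ 2 ^ n) :
    ∑ x, F x * noise (1 - 1 / 2 ^ k) F x ≤ (1 / L) * ∑ x, (F x) ^ 2 := by
  have hL0 : 0 < L := by linarith
  set p : ℝ := 1 - 1 / 2 ^ k with hp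
  have hp0 : 0 ≤ p := by
    have h2 : (1 : ℝ) ≤ 2 ^ k := one_le_pow₀ (by norm_num)
    have h3 : (1 : ℝ) / 2 ^ k ≤ 1 := by
      rw [div_le_one (by positivity)]
      exact h2
    linarith
  have hp1 : p ≤ 1 := by
    have : (0 : ℝ) < 1 / 2 ^ k := by positivity
    linarith
  set E := ∑ x, (F x) ^ 2 with hE
  have hE0 : 0 ≤ E := Finset.sum_nonneg fun x _ => sq_nonneg _
  set a : ℝ → ℝ := fun t => ∑ x, F x * noise t F x with ha
  have hsq : ∀ t, ∑ x, (noise t F x) ^ 2 = a (t ^ 2) := by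
    intro t
    simp only [ha]
    have h1 := noise_symm t F (noise t F)
    simp only [noise_noise] at h1
    rw [← pow_two] at h1
    rw [h1]
    refine Finset.sum_congr rfl fun x _ => ?_
    ring
  have hcs : ∀ t, (a t) ^ 2 ≤ E * a (t ^ 2) := by
    intro t
    rw [← hsq]
    exact Finset.sum_mul_sq_le_sq_mul_sq univ F (noise t F)
  have ha0 : ∀ t, 0 ≤ t → t ≤ 1 → 0 ≤ a t := by
    intro t h0 h1
    exact Finset.sum_nonneg fun x _ => mul_nonneg (hF x) (noise_nonneg t h0 h1 F hF x)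
  rcases hE0.eq_or_lt with hE0' | hEpos
  · have h1 := hcs p
    rw [← hE0', zero_mul] at h1
    have h2 : a p = 0 := by
      have := le_antisymm h1 (sq_nonneg _)
      exact pow_eq_zero_iff two_ne_zero |>.mp this
    have h3 : ∑ x, F x * noise p F x = 0 := h2
    rw [h3, ← hE0', mul_zero]
  · have hind : ∀ j : ℕ, E * (a p) ^ 2 ^ j ≤ E ^ 2 ^ j * a (p ^ 2 ^ j) := by
      intro j
      induction j with
      | zero => simp
      | succ j ih =>
        have h1 : 0 ≤ E * (a p) ^ 2 ^ j := mul_nonneg hE0 (pow_nonneg (ha0 p hp0 hp1) _)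
        have h2 := pow_le_pow_left₀ h1 ih 2
        have h3 := hcs (p ^ 2 ^ j)
        have e1 : (p ^ 2 ^ j) ^ 2 = p ^ 2 ^ (j + 1) := by
          rw [← pow_mul, ← pow_succ]
        rw [e1] at h3
        have e2 : (E * (a p) ^ 2 ^ j) ^ 2 = E * (E * (a p) ^ 2 ^ (j + 1)) := by
          rw [pow_succ 2 j, pow_mul]
          ring
        have e3 : (E ^ 2 ^ j * a (p ^ 2 ^ j)) ^ 2 = E ^ 2 ^ (j + 1) * (a (p ^ 2 ^ j)) ^ 2 := by
          rw [pow_succ 2 j, pow_mul]
          ring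
        rw [e2, e3] at h2
        have h4 : E ^ 2 ^ (j + 1) * (a (p ^ 2 ^ j)) ^ 2 ≤
            E ^ 2 ^ (j + 1) * (E * a (p ^ 2 ^ (j + 1))) :=
          mul_le_mul_of_nonneg_left h3 (by positivity)
        have h5 : E * (E * (a p) ^ 2 ^ (j + 1)) ≤ E * (E ^ 2 ^ (j + 1) * a (p ^ 2 ^ (j + 1))) := by
          calc _ ≤ _ := h2
            _ ≤ _ := h4
            _ = _ := by ring
        exact le_of_mul_le_mul_left h5 hEpos
    have h1 := hind (k + 1)
    have hs0 : 0 ≤ p ^ 2 ^ k := pow_nonneg hp0 _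
    have h2 := l2_small (p ^ 2 ^ k) hs0 (ss_half k) F
    rw [hsq] at h2
    have e1 : (p ^ 2 ^ k) ^ 2 = p ^ 2 ^ (k + 1) := by
      rw [← pow_mul, ← pow_succ]
    rw [e1] at h2
    set B := a (p ^ 2 ^ (k + 1)) with hB
    have hB0 : 0 ≤ B := ha0 _ (pow_nonneg hp0 _) (pow_le_one₀ hp0 hp1)
    set N := 2 ^ (k + 1) with hN
    have hN0 : N ≠ 0 := by positivity
    have hlev : lev L k = (L ^ N) ^ 2 := by
      unfold lev
      rw [← pow_mul, mul_comm]
    have hlev0 : 0 ≤ lev L k := by rw [hlev]; positivity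
    have h3 : (2 : ℝ) ^ n * ((L ^ N * B) ^ 2) ≤ 2 ^ n * E ^ 2 := by
      calc (2 : ℝ) ^ n * ((L ^ N * B) ^ 2) = (2 ^ n * B ^ 2) * lev L k := by
            rw [hlev]
            ring
        _ ≤ ((((univ.filter (fun x => F x ≠ 0)).card : ℕ) : ℝ) * E ^ 2) * lev L k :=
          mul_le_mul_of_nonneg_right h2 hlev0
        _ = ((((univ.filter (fun x => F x ≠ 0)).card : ℕ) : ℝ) * lev L k) * E ^ 2 := by ring
        _ ≤ 2 ^ n * E ^ 2 := mul_le_mul_of_nonneg_right hsupp (sq_nonneg _)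
    have h4 : (L ^ N * B) ^ 2 ≤ E ^ 2 := le_of_mul_le_mul_left h3 (by positivity)
    have h5 : L ^ N * B ≤ E :=
      (pow_le_pow_iff_left₀ (by positivity) hE0 two_ne_zero).mp h4
    have h6 : E * (L * a p) ^ N ≤ E * E ^ N := by
      calc E * (L * a p) ^ N = L ^ N * (E * (a p) ^ N) := by
            rw [mul_pow]
            ring
        _ ≤ L ^ N * (E ^ N * B) := mul_le_mul_of_nonneg_left h1 (by positivity)
        _ = E ^ N * (L ^ N * B) := by ring
        _ ≤ E ^ N * E := mul_le_mul_of_nonneg_left h5 (by positivity)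
        _ = _ := by ring
    have h7 : (L * a p) ^ N ≤ E ^ N := le_of_mul_le_mul_left h6 hEpos
    have h8 : L * a p ≤ E :=
      (pow_le_pow_iff_left₀ (mul_nonneg hL0.le (ha0 p hp0 hp1)) hE0 hN0).mp h7
    have h9 : ∑ x, F x * noise p F x = a p := rfl
    rw [h9, one_div, ← div_eq_inv_mul, le_div_iff₀ hL0, mul_comm]
    exact h8

end Pool.Agent.Lib.MP_52661b_pr
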