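import Pool.Agent.Lib.MP_52661b_pr.BlockLower
import Pool.Agent.Lib.MP_52661b_pr.SmallSet
import Pool.Agent.Lib.MP_52661b_pr.NoiseWt

set_option autoImplicit false

namespace Pool.Agent.Lib.MP_52661b_pr

open Finset

private theorem sum_ext_sq {n : ℕ} (A : Finset (Cube n)) (f : Cube n → ℝ) :
    ∑ x : Cube n, (ext A f x) ^ 2 = ∑ x ∈ A, (f x) ^ 2 := by
  have : ∀ x : Cube n, (ext A f x) ^ 2 = if x ∈ A then (f x) ^ 2 else 0 := by
    intro x
    rw [ext]
    split_ifs <;> simp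
  simp only [this]
  rw [← Finset.sum_filter]
  congr 1
  ext x
  simp

/-- energy lower bound for functions of small support -/
theorem key {n : ℕ} {A : Finset (Cube n)} (hA : IsUpperSet (A : Set (Cube n))) (k : ℕ)
    (L q : ℝ) (hL : 1 ≤ L) (hq : 0 < q) (G : Finset (Cube n))
    (hG : ∀ x ∈ G, (1 / 2 : ℝ) ≤ ∑ R : Finset (Fin n), wt n (1 / 2 ^ k) R *
      (if q ≤ dens A R x then 1 else 0))
    (f : Cube n → ℝ) (hf : ∀ x, 0 ≤ f x)
    (hsupp : (((A.filter (fun x => f x ≠ 0)).card : ℕ) : ℝ) * lev L k ≤ 2 ^ n) :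
    q ^ 2 * 2 ^ (k + 1) / 16 *
        ((1 / 2) * ∑ x ∈ A.filter (fun x => x ∈ G), (f x) ^ 2 - 1 / (q * L) * ∑ x ∈ A, (f x) ^ 2) ≤
      energy A f := by
  have h2 : (0 : ℝ) < 2 ^ k := by positivity
  have hp0 : (0 : ℝ) ≤ 1 / 2 ^ k := by positivity
  have hp1 : (1 : ℝ) / 2 ^ k ≤ 1 := by
    rw [div_le_one h2]
    exact one_le_pow₀ (by norm_num)
  have hw := fun R => wt_nonneg (n := n) (1 / 2 ^ k) hp0 hp1 R
  -- the averaged block inequality
  have h1 : ∑ R : Finset (Fin n), wt n (1 / 2 ^ k) R *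
      (∑ x ∈ A, (if q ≤ dens A R x then (f x) ^ 2 - (cmean A R f x) ^ 2 else 0)) ≤
      8 / q ^ 2 * ((1 / 2 ^ k) * energy A f) := by
    rw [energy, ← sum_wt_mem, Finset.mul_sum]
    apply Finset.sum_le_sum
    intro R _
    have := mul_le_mul_of_nonneg_left (block_lower hA f q hq R) (hw R)
    calc _ ≤ _ := this
      _ = _ := by ring
  -- split the left side
  have h3 : ∑ R : Finset (Fin n), wt n (1 / 2 ^ k) R *
      (∑ x ∈ A, (if q ≤ dens A R x then (f x) ^ 2 - (cmean A R f x) ^ 2 else 0)) =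
      ∑ x ∈ A, (f x) ^ 2 * (∑ R : Finset (Fin n), wt n (1 / 2 ^ k) R *
        (if q ≤ dens A R x then 1 else 0)) -
      ∑ R : Finset (Fin n), wt n (1 / 2 ^ k) R *
        (∑ x ∈ A, (if q ≤ dens A R x then (cmean A R f x) ^ 2 else 0)) := by
    have e1 : ∑ x ∈ A, (f x) ^ 2 * (∑ R : Finset (Fin n), wt n (1 / 2 ^ k) R *
        (if q ≤ dens A R x then 1 else 0)) =
        ∑ R : Finset (Fin n), wt n (1 / 2 ^ k) R *
          ∑ x ∈ A, (if q ≤ dens A R x then (f x) ^ 2 else 0) := by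
      simp only [Finset.mul_sum]
      rw [Finset.sum_comm]
      refine Finset.sum_congr rfl fun R _ => Finset.sum_congr rfl fun x _ => ?_
      split_ifs <;> ring
    rw [e1, ← Finset.sum_sub_distrib]
    refine Finset.sum_congr rfl fun R _ => ?_
    rw [← mul_sub, ← Finset.sum_sub_distrib]
    congr 1
    refine Finset.sum_congr rfl fun x _ => ?_
    split_ifs <;> ring
  -- the first part
  have h4 : (1 / 2) * ∑ x ∈ A.filter (fun x => x ∈ G), (f x) ^ 2 ≤
      ∑ x ∈ A, (f x) ^ 2 * (∑ R : Finset (Fin n), wt n (1 / 2 ^ k) R *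
        (if q ≤ dens A R x then 1 else 0)) := by
    have hnn : ∀ x : Cube n, 0 ≤ (f x) ^ 2 * (∑ R : Finset (Fin n), wt n (1 / 2 ^ k) R *
        (if q ≤ dens A R x then 1 else 0)) := by
      intro x
      apply mul_nonneg (sq_nonneg _)
      apply Finset.sum_nonneg
      intro R _
      apply mul_nonneg (hw R)
      split_ifs <;> norm_num
    calc (1 / 2) * ∑ x ∈ A.filter (fun x => x ∈ G), (f x) ^ 2
        = ∑ x ∈ A.filter (fun x => x ∈ G), (f x) ^ 2 * (1 / 2) := by
          rw [Finset.mul_sum]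
          exact Finset.sum_congr rfl fun x _ => by ring
      _ ≤ ∑ x ∈ A.filter (fun x => x ∈ G), (f x) ^ 2 *
          (∑ R : Finset (Fin n), wt n (1 / 2 ^ k) R * (if q ≤ dens A R x then 1 else 0)) := by
          apply Finset.sum_le_sum
          intro x hx
          exact mul_le_mul_of_nonneg_left (hG x (Finset.mem_filter.1 hx).2) (sq_nonneg _)
      _ ≤ _ := Finset.sum_le_sum_of_subset_of_nonneg (Finset.filter_subset _ _)
          fun x _ _ => hnn x
  -- the second part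
  have hFs : (((univ.filter (fun x => ext A f x ≠ 0)).card : ℕ) : ℝ) * lev L k ≤ 2 ^ n := by
    have : univ.filter (fun x => ext A f x ≠ 0) = A.filter (fun x => f x ≠ 0) := by
      ext x
      simp only [Finset.mem_filter, Finset.mem_univ, true_and, ext]
      by_cases hx : x ∈ A <;> simp [hx]
    rw [this]
    exact hsupp
  have hF0 : ∀ x : Cube n, 0 ≤ ext A f x := by
    intro x
    rw [ext]
    split_ifs
    · exact hf x
    · exact le_rfl
  have h5 : ∑ R : Finset (Fin n), wt n (1 / 2 ^ k) R *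
      (∑ x ∈ A, (if q ≤ dens A R x then (cmean A R f x) ^ 2 else 0)) ≤
      1 / (q * L) * ∑ x ∈ A, (f x) ^ 2 := by
    calc ∑ R : Finset (Fin n), wt n (1 / 2 ^ k) R *
          (∑ x ∈ A, (if q ≤ dens A R x then (cmean A R f x) ^ 2 else 0))
        ≤ ∑ R : Finset (Fin n), wt n (1 / 2 ^ k) R *
          ((1 / q) * ∑ x : Cube n, ext A f x * favg R (ext A f) x) :=
          Finset.sum_le_sum fun R _ =>
            mul_le_mul_of_nonneg_left (cmean_bound A f q hq R) (hw R)
      _ = (1 / q) * ∑ x : Cube n, ext A f x * noise (1 - 1 / 2 ^ k) (ext A f) x := by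
          simp only [← sum_wt_favg, Finset.mul_sum]
          rw [Finset.sum_comm]
          refine Finset.sum_congr rfl fun R _ => Finset.sum_congr rfl fun x _ => ?_
          ring
      _ ≤ (1 / q) * ((1 / L) * ∑ x : Cube n, (ext A f x) ^ 2) :=
          mul_le_mul_of_nonneg_left (small_set k L hL (ext A f) hF0 hFs) (by positivity)
      _ = _ := by
          rw [sum_ext_sq]
          have : q ≠ 0 := hq.ne'
          have : L ≠ 0 := by linarith
          field_simp
  have h6 : (1 / 2) * ∑ x ∈ A.filter (fun x => x ∈ G), (f x) ^ 2 -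
      1 / (q * L) * ∑ x ∈ A, (f x) ^ 2 ≤ 8 / q ^ 2 * ((1 / 2 ^ k) * energy A f) := by
    linarith
  have h7 : 0 ≤ q ^ 2 * 2 ^ (k + 1) / 16 := by positivity
  have h8 := mul_le_mul_of_nonneg_left h6 h7
  refine h8.trans (le_of_eq ?_)
  have : q ≠ 0 := hq.ne'
  have h9 : q ^ 2 * 2 ^ (k + 1) / 16 * (8 / q ^ 2 * ((1 / 2 ^ k) * energy A f)) =
      (q ^ 2 / q ^ 2) * (2 ^ k / 2 ^ k) * energy A f := by
    rw [pow_succ 2 k]
    ring
  rw [h9, div_self (pow_ne_zero 2 this), div_self h2.ne', one_mul, one_mul]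

end Pool.Agent.Lib.MP_52661b_pr
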