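import Pool.Agent.Lib.MP_52661b_pr.NoiseAlg
import Pool.Agent.Lib.MP_52661b_pr.Bonami

set_option autoImplicit false

namespace Pool.Agent.Lib.MP_52661b_pr

open Finset

/-- the noise operator with `s ≤ 1/2` on functions of small support -/
theorem l2_small {n : ℕ} (s : ℝ) (hs0 : 0 ≤ s) (hs : s ≤ 1 / 2) (F : Cube n → ℝ) :
    (2 : ℝ) ^ n * (∑ x, (noise s F x) ^ 2) ^ 2 ≤
      (((univ.filter (fun x => F x ≠ 0)).card : ℕ) : ℝ) * (∑ x, (F x) ^ 2) ^ 2 := by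
  classical
  set W : ℝ := ∑ x, (noise s F x) ^ 2 with hW
  set E : ℝ := ∑ x, (F x) ^ 2 with hE
  set S : Finset (Cube n) := univ.filter (fun x => F x ≠ 0) with hS
  set h : Cube n → ℝ := noise s (noise s F) with hh
  -- W = ∑ F h
  have hWF : W = ∑ x ∈ S, F x * h x := by
    have h1 : ∑ x, F x * h x = ∑ x, noise s F x * noise s F x := noise_symm s F (noise s F)
    have h2 : W = ∑ x, noise s F x * noise s F x := by
      rw [hW]; exact Finset.sum_congr rfl (fun x _ => by ring)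
    rw [h2, ← h1, hS, Finset.sum_filter]
    refine Finset.sum_congr rfl (fun x _ => ?_)
    by_cases hx : F x = 0
    · simp [hx]
    · simp [hx]
  have hES : ∑ x ∈ S, (F x) ^ 2 ≤ E := by
    rw [hE]
    exact Finset.sum_le_sum_of_subset_of_nonneg (Finset.subset_univ _) (fun x _ _ => sq_nonneg _)
  have hE0 : 0 ≤ E := Finset.sum_nonneg (fun x _ => sq_nonneg _)
  have hW0 : 0 ≤ W := Finset.sum_nonneg (fun x _ => sq_nonneg _)
  set Q : ℝ := ∑ x ∈ S, (h x) ^ 2 with hQ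
  have hQ0 : 0 ≤ Q := Finset.sum_nonneg (fun x _ => sq_nonneg _)
  have hCS1 : W ^ 2 ≤ E * Q := by
    rw [hWF]
    calc (∑ x ∈ S, F x * h x) ^ 2 ≤ (∑ x ∈ S, (F x) ^ 2) * ∑ x ∈ S, (h x) ^ 2 :=
          Finset.sum_mul_sq_le_sq_mul_sq S F h
      _ ≤ E * Q := mul_le_mul_of_nonneg_right hES hQ0
  have hCS2 : Q ^ 2 ≤ (S.card : ℝ) * ∑ x, (h x) ^ 4 := by
    have h3 : Q ^ 2 ≤ (S.card : ℝ) * ∑ x ∈ S, ((h x) ^ 2) ^ 2 := by
      rw [hQ]; exact sq_sum_le_card_mul_sum_sq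
    have h4 : ∑ x ∈ S, ((h x) ^ 2) ^ 2 ≤ ∑ x, (h x) ^ 4 := by
      have : ∀ x, ((h x) ^ 2) ^ 2 = (h x) ^ 4 := fun x => by ring
      simp only [this]
      exact Finset.sum_le_sum_of_subset_of_nonneg (Finset.subset_univ _)
        (fun x _ _ => by positivity)
    exact h3.trans (mul_le_mul_of_nonneg_left h4 (Nat.cast_nonneg _))
  have hB : (2 : ℝ) ^ n * ∑ x, (h x) ^ 4 ≤ W ^ 2 := bonami s hs0 hs (noise s F)
  have hc0 : (0 : ℝ) ≤ (S.card : ℝ) := Nat.cast_nonneg _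
  have h2n : (0 : ℝ) < 2 ^ n := by positivity
  have hmain : (2 : ℝ) ^ n * (W ^ 2) ^ 2 ≤ ((S.card : ℝ) * E ^ 2) * W ^ 2 := by
    calc (2 : ℝ) ^ n * (W ^ 2) ^ 2 ≤ 2 ^ n * (E * Q) ^ 2 :=
          mul_le_mul_of_nonneg_left (pow_le_pow_left₀ (sq_nonneg _) hCS1 2) h2n.le
      _ = 2 ^ n * (E ^ 2 * Q ^ 2) := by ring
      _ ≤ 2 ^ n * (E ^ 2 * ((S.card : ℝ) * ∑ x, (h x) ^ 4)) :=
          mul_le_mul_of_nonneg_left (mul_le_mul_of_nonneg_left hCS2 (sq_nonneg _)) h2n.le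
      _ = ((S.card : ℝ) * E ^ 2) * (2 ^ n * ∑ x, (h x) ^ 4) := by ring
      _ ≤ ((S.card : ℝ) * E ^ 2) * W ^ 2 :=
          mul_le_mul_of_nonneg_left hB (mul_nonneg hc0 (sq_nonneg _))
  rcases hW0.eq_or_lt with hz | hpos
  · rw [← hz]
    have : 0 ≤ (S.card : ℝ) * E ^ 2 := mul_nonneg hc0 (sq_nonneg _)
    simpa using this
  · have hW2 : 0 < W ^ 2 := by positivity
    have : ((2 : ℝ) ^ n * W ^ 2) * W ^ 2 ≤ ((S.card : ℝ) * E ^ 2) * W ^ 2 := by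
      calc ((2 : ℝ) ^ n * W ^ 2) * W ^ 2 = (2 : ℝ) ^ n * (W ^ 2) ^ 2 := by ring
        _ ≤ _ := hmain
    exact le_of_mul_le_mul_right this hW2

end Pool.Agent.Lib.MP_52661b_pr
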