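import Pool.Agent.Lib.MP_52661b_pr.Defs

set_option autoImplicit false

namespace Pool.Agent.Lib.MP_52661b_pr

open Finset

theorem ker_symm {n : ℕ} (s : ℝ) (x y : Cube n) : ker s x y = ker s y x := by
  unfold ker
  refine Finset.prod_congr rfl fun i _ => ?_
  by_cases h : x i = y i
  · rw [if_pos h, if_pos h.symm]
  · rw [if_neg h, if_neg (fun h' => h h'.symm)]

private theorem na_coord (s t : ℝ) (a c : Bool) :
    ∑ b : Bool, (if a = b then (1 + s) / 2 else (1 - s) / 2) *
        (if b = c then (1 + t) / 2 else (1 - t) / 2) =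
      if a = c then (1 + s * t) / 2 else (1 - s * t) / 2 := by
  cases a <;> cases c <;> simp <;> ring

private theorem na_ker {n : ℕ} (s t : ℝ) (x z : Cube n) :
    ∑ y : Cube n, ker s x y * ker t y z = ker (s * t) x z := by
  classical
  unfold ker
  have h1 : ∀ y : Cube n, (∏ i : Fin n, (if x i = y i then (1 + s) / 2 else (1 - s) / 2)) *
      (∏ i : Fin n, (if y i = z i then (1 + t) / 2 else (1 - t) / 2)) =
      ∏ i : Fin n, ((if x i = y i then (1 + s) / 2 else (1 - s) / 2) *
        (if y i = z i then (1 + t) / 2 else (1 - t) / 2)) := fun y => Finset.prod_mul_distrib.symm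
  rw [Finset.sum_congr rfl fun y _ => h1 y]
  have h2 := Finset.prod_univ_sum (fun _ : Fin n => (Finset.univ : Finset Bool))
    (fun i b => (if x i = b then (1 + s) / 2 else (1 - s) / 2) *
      (if b = z i then (1 + t) / 2 else (1 - t) / 2))
  rw [Fintype.piFinset_univ] at h2
  rw [← h2]
  exact Finset.prod_congr rfl fun i _ => na_coord s t (x i) (z i)

theorem noise_noise {n : ℕ} (s t : ℝ) (F : Cube n → ℝ) (x : Cube n) :
    noise s (noise t F) x = noise (s * t) F x := by
  unfold noise
  have h1 : ∀ y : Cube n, ker s x y * ∑ z, ker t y z * F z =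
      ∑ z, ker s x y * ker t y z * F z := by
    intro y
    rw [Finset.mul_sum]
    exact Finset.sum_congr rfl fun z _ => by ring
  rw [Finset.sum_congr rfl fun y _ => h1 y, Finset.sum_comm]
  refine Finset.sum_congr rfl fun z _ => ?_
  rw [← Finset.sum_mul, na_ker]

theorem noise_symm {n : ℕ} (s : ℝ) (F H : Cube n → ℝ) :
    ∑ x, F x * noise s H x = ∑ x, noise s F x * H x := by
  unfold noise
  have h1 : ∀ x : Cube n, F x * ∑ y, ker s x y * H y = ∑ y, ker s y x * F x * H y := by
    intro x
    rw [Finset.mul_sum]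
    refine Finset.sum_congr rfl fun y _ => ?_
    rw [ker_symm s x y]
    ring
  rw [Finset.sum_congr rfl fun x _ => h1 x, Finset.sum_comm]
  refine Finset.sum_congr rfl fun y _ => ?_
  rw [Finset.sum_mul]

theorem noise_nonneg {n : ℕ} (s : ℝ) (h0 : 0 ≤ s) (h1 : s ≤ 1) (F : Cube n → ℝ)
    (hF : ∀ x, 0 ≤ F x) (x : Cube n) : 0 ≤ noise s F x := by
  unfold noise ker
  refine Finset.sum_nonneg fun y _ => mul_nonneg (Finset.prod_nonneg fun i _ => ?_) (hF y)
  by_cases h : x i = y i
  · rw [if_pos h]
    linarith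
  · rw [if_neg h]
    linarith

end Pool.Agent.Lib.MP_52661b_pr
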