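import Pool.Agent.Lib.MP_52661b_pr.Defs

set_option autoImplicit false

namespace Pool.Agent.Lib.MP_52661b_pr

open Finset

private lemma clp_cases (a b u : ℝ) (hab : a ≤ b) :
    (clp a b u = a ∧ u ≤ a) ∨ (clp a b u = u ∧ a ≤ u ∧ u ≤ b) ∨ (clp a b u = b ∧ b ≤ u) := by
  unfold clp
  rcases le_total u a with h | h
  · left
    exact ⟨by rw [min_eq_left (h.trans hab), max_eq_left h], h⟩
  · rcases le_total u b with h' | h'
    · right; left
      exact ⟨by rw [min_eq_left h', max_eq_right h], h, h'⟩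
    · right; right
      exact ⟨by rw [min_eq_right h', max_eq_right hab], h'⟩

private lemma clp_mem (a b u : ℝ) (hab : a ≤ b) : a ≤ clp a b u ∧ clp a b u ≤ b := by
  unfold clp
  exact ⟨le_max_left _ _, max_le hab (min_le_right _ _)⟩

/-- `x log (x/c) - x + c ≥ (√x - √c)^2` -/
private lemma ent_ge (x c : ℝ) (hx : 0 < x) (hc : 0 < c) :
    (√x - √c) ^ 2 ≤ x * Real.log (x / c) - x + c := by
  have hsx : 0 < √x := Real.sqrt_pos.mpr hx
  have hsc : 0 < √c := Real.sqrt_pos.mpr hc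
  have h1 : Real.log (√c / √x) ≤ √c / √x - 1 := Real.log_le_sub_one_of_pos (by positivity)
  have h2 : Real.log (x / c) = -2 * Real.log (√c / √x) := by
    rw [Real.log_div hx.ne' hc.ne', Real.log_div hsc.ne' hsx.ne', Real.log_sqrt hx.le,
      Real.log_sqrt hc.le]
    ring
  have h3 : x * (√c / √x) = √x * √c := by
    have h4 : x = √x * √x := (Real.mul_self_sqrt hx.le).symm
    nth_rewrite 1 [h4]
    field_simp
  have h5 : x * Real.log (√c / √x) ≤ √x * √c - x := by
    have := mul_le_mul_of_nonneg_left h1 hx.le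
    rw [mul_sub, h3, mul_one] at this
    exact this
  have h6 : √x ^ 2 = x := Real.sq_sqrt hx.le
  have h7 : √c ^ 2 = c := Real.sq_sqrt hc.le
  rw [h2]
  nlinarith

/-- `u log (x/c) ≥ x log (x/c)` when `x` is the clamped value of `u` -/
private lemma clp_log (a b u c : ℝ) (ha : 0 < a) (hab : a ≤ b) (hc : a ≤ c) (hcb : c ≤ b) :
    clp a b u * Real.log (clp a b u / c) ≤ u * Real.log (clp a b u / c) := by
  have hc0 : 0 < c := lt_of_lt_of_le ha hc
  rcases clp_cases a b u hab with ⟨h, h'⟩ | ⟨h, h', -⟩ | ⟨h, h'⟩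
  · rw [h]
    have h1 : Real.log (a / c) ≤ 0 :=
      Real.log_nonpos (by positivity) ((div_le_one hc0).mpr hc)
    nlinarith
  · rw [h]
  · rw [h]
    have h1 : 0 ≤ Real.log (b / c) := Real.log_nonneg ((one_le_div hc0).mpr hcb)
    nlinarith

private lemma bracket (a b u c : ℝ) (ha : 0 < a) (hab : a ≤ b) (hc : a ≤ c) (hcb : c ≤ b) :
    (√(clp a b u) - √c) ^ 2 ≤ u * Real.log (clp a b u / c) - clp a b u + c := by
  have h1 := clp_mem a b u hab
  have h2 := ent_ge (clp a b u) c (lt_of_lt_of_le ha h1.1) (lt_of_lt_of_le ha hc)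
  have h3 := clp_log a b u c ha hab hc hcb
  linarith

theorem phi_nonneg (a b u : ℝ) (ha : 0 < a) (hab : a ≤ b) (hu : 0 ≤ u) : 0 ≤ phi a b u := by
  have h := bracket a b u a ha hab le_rfl hab
  unfold phi
  exact (sq_nonneg _).trans h

theorem phi_le (a b u : ℝ) (ha : 0 < a) (hab : a ≤ b) (hu : 0 ≤ u) :
    phi a b u ≤ u * Real.log (b / a) := by
  have h1 := clp_mem a b u hab
  have h2 : Real.log (clp a b u / a) ≤ Real.log (b / a) := by
    apply Real.log_le_log
    · exact div_pos (lt_of_lt_of_le ha h1.1) ha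
    · exact div_le_div_of_nonneg_right h1.2 ha.le
  have h3 := mul_le_mul_of_nonneg_left h2 hu
  unfold phi
  linarith

/-- midpoint defect -/
theorem phi_defect (a b u v : ℝ) (ha : 0 < a) (hab : a ≤ b) (hu : 0 ≤ u) (hv : 0 ≤ v) :
    phi a b ((u + v) / 2) + (rt a b u - rt a b v) ^ 2 / 4 ≤ (phi a b u + phi a b v) / 2 := by
  have h1 := clp_mem a b ((u + v) / 2) hab
  have h2 := clp_mem a b u hab
  have h3 := clp_mem a b v hab
  have b1 := bracket a b u (clp a b ((u + v) / 2)) ha hab h1.1 h1.2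
  have b2 := bracket a b v (clp a b ((u + v) / 2)) ha hab h1.1 h1.2
  unfold phi rt
  set c := clp a b ((u + v) / 2) with hc
  set x := clp a b u with hx
  set y := clp a b v with hy
  have hc0 : 0 < c := lt_of_lt_of_le ha h1.1
  have hx0 : 0 < x := lt_of_lt_of_le ha h2.1
  have hy0 : 0 < y := lt_of_lt_of_le ha h3.1
  rw [Real.log_div hx0.ne' hc0.ne'] at b1
  rw [Real.log_div hy0.ne' hc0.ne'] at b2
  rw [Real.log_div hx0.ne' ha.ne', Real.log_div hy0.ne' ha.ne', Real.log_div hc0.ne' ha.ne']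
  have h4 : (√x - √a - (√y - √a)) ^ 2 / 2 ≤ (√x - √c) ^ 2 + (√y - √c) ^ 2 := by
    nlinarith [sq_nonneg (√x + √y - 2 * √c)]
  nlinarith

end Pool.Agent.Lib.MP_52661b_pr
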