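import Pool.Agent.Lib.MP_52661b_pr.Defs

set_option autoImplicit false

namespace Pool.Agent.Lib.MP_52661b_pr

open Finset

private theorem tp_real {S T a1 a2 q1 q2 b1 qb c : ℝ} (hS : 0 < S) (hT : 0 < T) (hTS : T ≤ S)
    (h1 : (a1 - a2) ^ 2 ≤ (S - T) * (q1 - q2))
    (h2 : ∀ w : ℝ, ((w - 1) * b1 + a2) ^ 2 ≤ T * ((w - 1) ^ 2 * qb + 2 * (w - 1) * c + q2))
    (h4 : a1 ^ 2 ≤ S * q1) :
    (q1 + qb) - (a1 + b1) ^ 2 / (S + T) ≤
      (2 * T / (S + T)) ^ 2 * (qb - b1 ^ 2 / T) + (2 * S / (S + T)) ^ 2 * (q1 - a1 ^ 2 / S) +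
        4 * (qb - 2 * c + q2) := by
  have hST : 0 < S + T := by positivity
  obtain ⟨r, hr⟩ : ∃ r, r = (S - T) / (S + T) := ⟨_, rfl⟩
  have hr1 : 2 * T / (S + T) = 1 - r := by
    rw [hr]; field_simp; ring
  have hr2 : 2 * S / (S + T) = 1 + r := by
    rw [hr]; field_simp; ring
  have hr0 : 0 ≤ r := by
    rw [hr]; exact div_nonneg (by linarith) hST.le
  have hr3 : r ≤ 1 := by
    rw [hr, div_le_one hST]; linarith
  obtain ⟨V0, hV0⟩ : ∃ V, V = qb - b1 ^ 2 / T := ⟨_, rfl⟩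
  obtain ⟨V1, hV1⟩ : ∃ V, V = q1 - a1 ^ 2 / S := ⟨_, rfl⟩
  obtain ⟨W, hW⟩ : ∃ V, V = q2 - a2 ^ 2 / T := ⟨_, rfl⟩
  obtain ⟨d, hd⟩ : ∃ V, V = (b1 - a2) / T := ⟨_, rfl⟩
  obtain ⟨e, he⟩ : ∃ V, V = a2 / T - a1 / S := ⟨_, rfl⟩
  obtain ⟨D, hD⟩ : ∃ V, V = qb - 2 * c + q2 := ⟨_, rfl⟩
  have hV1n : 0 ≤ V1 := by
    rw [hV1, sub_nonneg, div_le_iff₀ hS]
    linarith
  have h3 := h2 0
  have hDT : T * d ^ 2 ≤ D := by
    have e1 : T * d ^ 2 = (b1 - a2) ^ 2 / T := by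
      rw [hd]; field_simp
    rw [e1, div_le_iff₀ hT, hD]
    nlinarith [h3]
  have hid : (q1 + qb) - (a1 + b1) ^ 2 / (S + T) = V0 + V1 + T * (1 + r) / 2 * (d + e) ^ 2 := by
    rw [hV0, hV1, hd, he, ← hr2]
    field_simp
    ring
  have hi : T * (1 + r) / 2 * e ^ 2 ≤ r * (V1 - W) := by
    rcases eq_or_lt_of_le hTS with hc | hc
    · have h5 : a1 = a2 := by
        have h6 : (a1 - a2) ^ 2 ≤ 0 := by
          rw [hc] at h1
          linarith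
        have h7 : a1 - a2 = 0 := by
          have := le_antisymm h6 (sq_nonneg _)
          exact pow_eq_zero_iff (two_ne_zero) |>.1 this
        linarith
      have h8 : e = 0 := by
        rw [he, h5, hc, sub_self]
      have h9 : r = 0 := by
        rw [hr, hc, sub_self, zero_div]
      rw [h8, h9]
      simp
    · have hc' : 0 < S - T := by linarith
      have e2 : r * (V1 - W) - T * (1 + r) / 2 * e ^ 2 =
          r * ((q1 - q2) - (a1 - a2) ^ 2 / (S - T)) := by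
        rw [hV1, hW, he, ← hr2, hr]
        field_simp
        ring
      have e3 : 0 ≤ (q1 - q2) - (a1 - a2) ^ 2 / (S - T) := by
        rw [sub_nonneg, div_le_iff₀ hc']
        linarith
      have e4 := mul_nonneg hr0 e3
      linarith
  have hii : r * (1 - r / 2) * V0 - (2 - r) * (D - T * d ^ 2) ≤ r * W := by
    have h5 := h2 (r / 2)
    have e1 : r * W - (r * (1 - r / 2) * V0 - (2 - r) * (D - T * d ^ 2)) =
        2 * (T * ((r / 2 - 1) ^ 2 * qb + 2 * (r / 2 - 1) * c + q2) -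
          ((r / 2 - 1) * b1 + a2) ^ 2) / T := by
      rw [hW, hV0, hD, hd]
      field_simp
      ring
    have e2 : 0 ≤ 2 * (T * ((r / 2 - 1) ^ 2 * qb + 2 * (r / 2 - 1) * c + q2) -
          ((r / 2 - 1) * b1 + a2) ^ 2) / T := by
      apply div_nonneg _ hT.le
      linarith
    linarith
  rw [hr1, hr2, ← hV0, ← hV1, ← hD, hid]
  have e5 : T * (1 + r) / 2 * (d + e) ^ 2 ≤ T * (1 + r) * d ^ 2 + T * (1 + r) * e ^ 2 := by
    have : 0 ≤ T * (1 + r) / 2 * (d - e) ^ 2 := by positivity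
    nlinarith
  have e6 : 0 ≤ r ^ 2 * V1 := by positivity
  have e7 : 0 ≤ T * d ^ 2 * (1 - r) := by
    have : 0 ≤ 1 - r := by linarith
    positivity
  have e8 : 0 ≤ r * D := by
    have : 0 ≤ T * d ^ 2 := by positivity
    exact mul_nonneg hr0 (this.trans hDT)
  nlinarith [e5, e6, e7, e8, hi, hii]

/-- variance of a function on two nested pieces -/
theorem twoPiece {β : Type*} [DecidableEq β] (s t : Finset β) (hts : t ⊆ s) (hs : s.Nonempty)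
    (a b : β → ℝ) :
    (∑ x ∈ s, a x ^ 2 + ∑ x ∈ t, b x ^ 2) -
        (∑ x ∈ s, a x + ∑ x ∈ t, b x) ^ 2 / ((s.card : ℝ) + (t.card : ℝ)) ≤
      (2 * (t.card : ℝ) / ((s.card : ℝ) + (t.card : ℝ))) ^ 2 *
          (∑ x ∈ t, b x ^ 2 - (∑ x ∈ t, b x) ^ 2 / (t.card : ℝ)) +
        (2 * (s.card : ℝ) / ((s.card : ℝ) + (t.card : ℝ))) ^ 2 *
          (∑ x ∈ s, a x ^ 2 - (∑ x ∈ s, a x) ^ 2 / (s.card : ℝ)) +
        4 * ∑ x ∈ t, (b x - a x) ^ 2 := by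
  have hS : (0 : ℝ) < s.card := by exact_mod_cast hs.card_pos
  have h4 : (∑ x ∈ s, a x) ^ 2 ≤ (s.card : ℝ) * ∑ x ∈ s, a x ^ 2 := sq_sum_le_card_mul_sum_sq
  rcases t.eq_empty_or_nonempty with ht | ht
  · subst ht
    simp only [sum_empty, add_zero, card_empty, Nat.cast_zero, mul_zero, zero_div]
    have e1 : 2 * (s.card : ℝ) / s.card = 2 := by field_simp
    have e2 : 0 ≤ ∑ x ∈ s, a x ^ 2 - (∑ x ∈ s, a x) ^ 2 / (s.card : ℝ) := by
      rw [sub_nonneg, div_le_iff₀ hS]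
      linarith
    rw [e1]
    nlinarith
  · have hT : (0 : ℝ) < t.card := by exact_mod_cast ht.card_pos
    have hTS : (t.card : ℝ) ≤ s.card := by exact_mod_cast card_le_card hts
    have hd1 : ∑ x ∈ s \ t, a x = ∑ x ∈ s, a x - ∑ x ∈ t, a x := by
      rw [eq_sub_iff_add_eq, sum_sdiff hts]
    have hd2 : ∑ x ∈ s \ t, a x ^ 2 = ∑ x ∈ s, a x ^ 2 - ∑ x ∈ t, a x ^ 2 := by
      rw [eq_sub_iff_add_eq, sum_sdiff hts]
    have hd3 : ((s \ t).card : ℝ) = (s.card : ℝ) - t.card := by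
      rw [card_sdiff_of_subset hts, Nat.cast_sub (card_le_card hts)]
    have h1 : (∑ x ∈ s, a x - ∑ x ∈ t, a x) ^ 2 ≤
        ((s.card : ℝ) - t.card) * (∑ x ∈ s, a x ^ 2 - ∑ x ∈ t, a x ^ 2) := by
      rw [← hd1, ← hd2, ← hd3]
      exact sq_sum_le_card_mul_sum_sq
    have h2 : ∀ w : ℝ, ((w - 1) * ∑ x ∈ t, b x + ∑ x ∈ t, a x) ^ 2 ≤
        (t.card : ℝ) * ((w - 1) ^ 2 * ∑ x ∈ t, b x ^ 2 + 2 * (w - 1) * ∑ x ∈ t, b x * a x +
          ∑ x ∈ t, a x ^ 2) := by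
      intro w
      have h3 : (∑ x ∈ t, ((w - 1) * b x + a x)) ^ 2 ≤
          (t.card : ℝ) * ∑ x ∈ t, ((w - 1) * b x + a x) ^ 2 := sq_sum_le_card_mul_sum_sq
      have e1 : ∑ x ∈ t, ((w - 1) * b x + a x) = (w - 1) * ∑ x ∈ t, b x + ∑ x ∈ t, a x := by
        rw [sum_add_distrib, mul_sum]
      have e2 : ∑ x ∈ t, ((w - 1) * b x + a x) ^ 2 =
          (w - 1) ^ 2 * ∑ x ∈ t, b x ^ 2 + 2 * (w - 1) * ∑ x ∈ t, b x * a x +
          ∑ x ∈ t, a x ^ 2 := by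
        rw [mul_sum, mul_sum, ← sum_add_distrib, ← sum_add_distrib]
        refine sum_congr rfl fun x _ => ?_
        ring
      rw [e1, e2] at h3
      exact h3
    have h5 : ∑ x ∈ t, (b x - a x) ^ 2 =
        ∑ x ∈ t, b x ^ 2 - 2 * ∑ x ∈ t, b x * a x + ∑ x ∈ t, a x ^ 2 := by
      rw [mul_sum, ← sum_sub_distrib, ← sum_add_distrib]
      refine sum_congr rfl fun x _ => ?_
      ring
    rw [h5]
    exact tp_real hS hT hTS h1 h2 h4

end Pool.Agent.Lib.MP_52661b_pr
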